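import Pool.Agent.E8helper88.Mul.McM4

/-!
# Multipliers and critical heights in large characteristic: the algebraic lemmas
-/

set_option linter.unusedSectionVars false
set_option linter.unusedVariables false

namespace Pool.Agent.E8helper65.CM

open Polynomial Finset
open Pool.Agent.W277.UH Pool.Agent.Y706.CH Pool.Agent.Y195.CH Pool.Agent.Y676.CH
open Pool.Agent.E8helper88.Mul

universe u v w

section
variable {K : Type u} [Field K]

lemma wr_hc (d : ℕ) (hd : 1 ≤ d) (hd0 : (d : K) ≠ 0) (p q A B : K[X]) (hp : p.natDegree ≤ d)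
    (hq : q.natDegree ≤ d) (x : K) :
    (wr (hc d p A B) (hc d q A B)).eval x =
      WH d p q (A.eval x, B.eval x) * (wr A B).eval x := by
  apply mul_left_cancel₀ hd0
  have e1 := hev_euler d hd p hp (A.eval x, B.eval x)
  have e2 := hev_euler d hd q hq (A.eval x, B.eval x)
  have e3 := jac_wr d hd p q hp hq (A.eval x, B.eval x)
  have e4 := hc_der d hd p A B hp x
  have e5 := hc_der d hd q A B hq x
  rw [← mul_assoc, ← e3]
  unfold wr
  simp only [eval_sub, eval_mul] at e1 e2 ⊢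
  rw [e4, e5, hc_eval, hc_eval]
  linear_combination (-(hev (d - 1) (derivative p) (A.eval x, B.eval x) * (derivative A).eval x +
      hev (d - 1) (tl' d p) (A.eval x, B.eval x) * (derivative B).eval x)) * e2 +
      (hev (d - 1) (derivative q) (A.eval x, B.eval x) * (derivative A).eval x +
      hev (d - 1) (tl' d q) (A.eval x, B.eval x) * (derivative B).eval x) * e1

lemma itP_wr (d : ℕ) (hd : 1 ≤ d) (hd0 : (d : K) ≠ 0) (p q : K[X]) (hp : p.natDegree ≤ d)
    (hq : q.natDegree ≤ d) (n : ℕ) (x : K) :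
    (wr (itP d p q n).1 (itP d p q n).2).eval x =
      ∏ j ∈ range n, WH d p q ((FH d p q)^[j] (x, 1)) := by
  induction n with
  | zero => simp [itP, wr]
  | succ n ih =>
    rw [Finset.prod_range_succ, ← ih]
    simp only [itP]
    rw [wr_hc d hd hd0 p q _ _ hp hq x, itP_eval, mul_comm]

lemma WH_conj [Infinite K] (d : ℕ) (hd : 1 ≤ d) (hd0 : (d : K) ≠ 0) (p q u w : K[X]) (hp : p.natDegree ≤ d)
    (hq : q.natDegree ≤ d) (hu : u.natDegree ≤ d) (hw : w.natDegree ≤ d) (a b c e s : K)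
    (hdet : a * e - b * c ≠ 0) (h : ∀ Z, FH d u w (Ph a b c e Z) = s • Ph a b c e (FH d p q Z))
    (Z : K × K) (hZ : Z ≠ 0) : WH d u w (Ph a b c e Z) = s ^ 2 * WH d p q Z := by
  obtain ⟨V, hV⟩ : ∃ V : K × K, V.1 * Z.2 - Z.1 * V.2 ≠ 0 := by
    by_cases h2 : Z.2 = 0
    · have h1 : Z.1 ≠ 0 := fun h1 => hZ (Prod.ext h1 h2)
      exact ⟨(0, 1), by simpa [h2] using h1⟩
    · exact ⟨(1, 0), by simpa using h2⟩
  set A : K[X] := C Z.1 + C V.1 * X with hA
  set B : K[X] := C Z.2 + C V.2 * X with hB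
  set A' : K[X] := C a * A + C b * B with hA'
  set B' : K[X] := C c * A + C e * B with hB'
  have e1 : hc d u A' B' = C s * (C a * hc d p A B + C b * hc d q A B) := by
    apply Polynomial.funext
    intro x
    have h1 := congrArg Prod.fst (h (A.eval x, B.eval x))
    simp only [FH, Ph, Prod.smul_fst, smul_eq_mul] at h1
    rw [hc_eval]
    simp only [eval_mul, eval_add, eval_C, hc_eval, hA', hB']
    exact h1
  have e2 : hc d w A' B' = C s * (C c * hc d p A B + C e * hc d q A B) := by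
    apply Polynomial.funext
    intro x
    have h1 := congrArg Prod.snd (h (A.eval x, B.eval x))
    simp only [FH, Ph, Prod.smul_snd, smul_eq_mul] at h1
    rw [hc_eval]
    simp only [eval_mul, eval_add, eval_C, hc_eval, hA', hB']
    exact h1
  have e3 : wr (hc d u A' B') (hc d w A' B') =
      C (s ^ 2 * (a * e - b * c)) * wr (hc d p A B) (hc d q A B) := by
    rw [e1, e2]
    unfold wr
    simp only [derivative_mul, derivative_C, zero_mul, zero_add, derivative_add, C_mul, C_pow,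
      C_sub]
    ring
  have e4 := wr_hc d hd hd0 u w A' B' hu hw 0
  have e5 := wr_hc d hd hd0 p q A B hp hq 0
  have e6 : wr A' B' = C (a * e - b * c) * wr A B := by
    unfold wr
    simp only [hA', hB', derivative_mul, derivative_C, zero_mul, zero_add, derivative_add, C_mul,
      C_sub]
    ring
  have e7 : (wr A B).eval 0 = V.1 * Z.2 - Z.1 * V.2 := by
    rw [wr_eval]
    simp [hA, hB]
  have e8 : (A.eval 0, B.eval 0) = Z := by
    simp [hA, hB]
  have e9 : (A'.eval 0, B'.eval 0) = Ph a b c e Z := by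
    simp [hA', hB', hA, hB, Ph]
  rw [e3, e6, e9, eval_mul, eval_mul, eval_C, eval_C, e5, e8, e7] at e4
  apply mul_right_cancel₀ (mul_ne_zero hdet hV)
  linear_combination -e4

lemma IsMul_conj [Infinite K] (d : ℕ) (hd : 1 ≤ d) (hd0 : (d : K) ≠ 0) (p q u w : K[X]) (hp : p.natDegree ≤ d)
    (hq : q.natDegree ≤ d) (hu : u.natDegree ≤ d) (hw : w.natDegree ≤ d)
    (hmax : max p.natDegree q.natDegree = d) (hco : IsCoprime p q)
    (h : CjF d p q u w) (n : ℕ) (lam : K) (hl : IsMul d p q n lam) : IsMul d u w n lam := by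
  obtain ⟨a, b, c, e, s, hdet, hs, h⟩ := h
  obtain ⟨t, ht0, ht1, ht2, ht3⟩ := FH_conj_iter d p q u w a b c e s hs h
  obtain ⟨Z, hZ, μ, hμ, h1, h2⟩ := hl
  refine ⟨Ph a b c e Z, Ph_ne a b c e hdet Z hZ, t n * μ, mul_ne_zero (ht2 n) hμ, ?_, ?_⟩
  · rw [ht3, h1, Ph_smul, smul_smul]
  · have h3 : ∀ m, ∏ j ∈ range m, WH d u w ((FH d u w)^[j] (Ph a b c e Z)) =
        t m ^ 2 * ∏ j ∈ range m, WH d p q ((FH d p q)^[j] Z) := by
      intro m
      induction m with
      | zero => simp [ht0]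
      | succ m ih =>
        rw [Finset.prod_range_succ, Finset.prod_range_succ, ih, ht3, WH_smul,
          WH_conj d hd hd0 p q u w hp hq hu hw a b c e s hdet h _
            (FH_iter_nz d hd p q hmax hco m Z hZ), ht1]
        have h4 : t m ^ (2 * d - 2) * t m ^ 2 = (t m ^ d) ^ 2 := by
          rw [← pow_add, ← pow_mul]
          congr 1
          omega
        linear_combination (s ^ 2 * WH d p q ((FH d p q)^[m] Z) *
          ∏ j ∈ range m, WH d p q ((FH d p q)^[j] Z)) * h4
    rw [h3, ← h2]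
    ring

lemma norm_iter (d : ℕ) (hd : 1 ≤ d) (hd0 : (d : K) ≠ 0) (u w : K[X])
    (hmax : max u.natDegree w.natDegree = d) (hco : IsCoprime u w) (n : ℕ)
    (h0 : ((FH d u w)^[n] (0, 1)).1 = 0) (hinf : ((FH d u w)^[n] (1, 0)).2 = 0)
    (h1 : ((FH d u w)^[n] (1, 1)).1 = 0) :
    (itP d u w n).1.eval 0 = 0 ∧ (itP d u w n).1.eval 1 = 0 ∧
      (itP d u w n).1.natDegree = d ^ n ∧ (itP d u w n).2.natDegree < d ^ n ∧
      (itP d u w n).2.eval 0 ≠ 0 ∧
      ∀ lam : K, lam * ((FH d u w)^[n] (0, 1)).2 ^ 2 =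
        ∏ j ∈ range n, WH d u w ((FH d u w)^[j] (0, 1)) →
        lam * (itP d u w n).2.eval 0 = (derivative (itP d u w n).1).eval 0 := by
  have hp : u.natDegree ≤ d := hmax ▸ le_max_left _ _
  have hq : w.natDegree ≤ d := hmax ▸ le_max_right _ _
  have e0 := itP_eval d u w n 0
  have e1 := itP_eval d u w n 1
  have e2 := itP_top d u w n
  have hdeg := itP_deg d u w n
  rw [← e0] at h0
  rw [← e1] at h1
  rw [← e2] at hinf
  simp only at h0 h1 hinf
  have hQ0 : (itP d u w n).2.eval 0 ≠ 0 := by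
    intro h
    apply FH_iter_nz d hd u w hmax hco n (0, 1) (fun h => one_ne_zero (congrArg Prod.snd h))
    rw [← e0, h0, h]
    rfl
  have hPd : (itP d u w n).1.coeff (d ^ n) ≠ 0 := by
    intro h
    apply FH_iter_nz d hd u w hmax hco n (1, 0) (fun h => one_ne_zero (congrArg Prod.fst h))
    rw [← e2, hinf, h]
    rfl
  refine ⟨h0, h1, le_antisymm hdeg.1 (le_natDegree_of_ne_zero hPd), ?_, hQ0, ?_⟩
  · refine lt_of_le_of_ne hdeg.2 ?_
    intro h
    have h3 : (itP d u w n).2 ≠ 0 := by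
      intro h4
      rw [h4, eval_zero] at hQ0
      exact hQ0 rfl
    apply leadingCoeff_ne_zero.mpr h3
    rw [leadingCoeff, h]
    exact hinf
  · intro lam hlam
    rw [← itP_wr d hd hd0 u w hp hq n 0, ← e0, wr_eval, h0, zero_mul, sub_zero] at hlam
    simp only at hlam
    apply mul_right_cancel₀ hQ0
    linear_combination hlam

lemma finite_pts (d : ℕ) (hd : 2 ≤ d) (p q : K[X])
    (hmax : max p.natDegree q.natDegree = d) (hco : IsCoprime p q) (n₁ n₂ : ℕ) (hn : n₂ < n₁) :
    {z : Option K | wd ((FH d p q)^[n₁] (vec z)) ((FH d p q)^[n₂] (vec z)) = 0}.Finite := by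
  classical
  set P₁ := (itP d p q n₁).1
  set Q₁ := (itP d p q n₁).2
  set P₂ := (itP d p q n₂).1
  set Q₂ := (itP d p q n₂).2
  have hco1 : IsCoprime P₁ Q₁ := itP_coprime d (by omega) p q hmax hco n₁
  have hco2 : IsCoprime P₂ Q₂ := itP_coprime d (by omega) p q hmax hco n₂
  have hne : P₁ * Q₂ - Q₁ * P₂ ≠ 0 := by
    intro h
    have h' : P₁ * Q₂ = Q₁ * P₂ := sub_eq_zero.mp h
    have d1 : P₁ ∣ P₂ := hco1.dvd_of_dvd_mul_left ⟨Q₂, h'.symm⟩
    have d2 : Q₁ ∣ Q₂ := hco1.symm.dvd_of_dvd_mul_left ⟨P₂, h'⟩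
    have hdeg2 : P₂.natDegree ≤ d ^ n₂ ∧ Q₂.natDegree ≤ d ^ n₂ := itP_deg d p q n₂
    have hlt : d ^ n₂ < d ^ n₁ := Nat.pow_lt_pow_right (by omega) hn
    -- the top coefficient
    have htop := itP_top d p q n₁
    have hnz := FH_iter_nz d (by omega) p q hmax hco n₁ (1, 0)
      (fun h => one_ne_zero (congrArg Prod.fst h))
    rw [← htop] at hnz
    have hP : P₂ = 0 ∨ P₁.natDegree ≤ P₂.natDegree := by
      by_cases h2 : P₂ = 0
      · exact Or.inl h2
      · exact Or.inr (natDegree_le_of_dvd d1 h2)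
    have hQ : Q₂ = 0 ∨ Q₁.natDegree ≤ Q₂.natDegree := by
      by_cases h2 : Q₂ = 0
      · exact Or.inl h2
      · exact Or.inr (natDegree_le_of_dvd d2 h2)
    have hP1 : P₁.coeff (d ^ n₁) = 0 := by
      rcases hP with h2 | h2
      · rw [h2, mul_zero] at h'
        have h3 : Q₂ ≠ 0 := by
          intro h3
          rw [h2, h3] at hco2
          exact not_isCoprime_zero_zero hco2
        rw [(mul_eq_zero.mp h').resolve_right h3, coeff_zero]
      · exact coeff_eq_zero_of_natDegree_lt (by omega)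
    have hQ1 : Q₁.coeff (d ^ n₁) = 0 := by
      rcases hQ with h2 | h2
      · rw [h2, mul_zero] at h'
        have h3 : P₂ ≠ 0 := by
          intro h3
          rw [h2, h3] at hco2
          exact not_isCoprime_zero_zero hco2
        rw [(mul_eq_zero.mp h'.symm).resolve_right h3, coeff_zero]
      · exact coeff_eq_zero_of_natDegree_lt (by omega)
    exact hnz (Prod.ext hP1 hQ1)
  refine Set.Finite.subset (((P₁ * Q₂ - Q₁ * P₂).roots.toFinset.finite_toSet.image some).union
    (Set.finite_singleton none)) ?_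
  intro z hz
  cases z with
  | none => exact Or.inr rfl
  | some x =>
    left
    refine ⟨x, ?_, rfl⟩
    rw [Finset.mem_coe, Multiset.mem_toFinset, mem_roots hne]
    have h1 := itP_eval d p q n₁ x
    have h2 := itP_eval d p q n₂ x
    have hz' : wd ((FH d p q)^[n₁] (x, 1)) ((FH d p q)^[n₂] (x, 1)) = 0 := hz
    rw [← h1, ← h2] at hz'
    rw [IsRoot, eval_sub, eval_mul, eval_mul]
    exact hz'

lemma IsMulAt_conj [Infinite K] (d : ℕ) (hd : 1 ≤ d) (hd0 : (d : K) ≠ 0) (p q u w : K[X]) (hp : p.natDegree ≤ d)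
    (hq : q.natDegree ≤ d) (hu : u.natDegree ≤ d) (hw : w.natDegree ≤ d)
    (hmax : max p.natDegree q.natDegree = d) (hco : IsCoprime p q) (a b c e s : K)
    (hdet : a * e - b * c ≠ 0) (hs : s ≠ 0)
    (h : ∀ Z, FH d u w (Ph a b c e Z) = s • Ph a b c e (FH d p q Z)) (n : ℕ) (lam : K)
    (Z : K × K) (hZ : Z ≠ 0)
    (hl : IsMulAt d p q n lam Z) : IsMulAt d u w n lam (Ph a b c e Z) := by
  obtain ⟨t, ht0, ht1, ht2, ht3⟩ := FH_conj_iter d p q u w a b c e s hs h
  obtain ⟨μ, hμ, h1, h2⟩ := hl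
  refine ⟨t n * μ, mul_ne_zero (ht2 n) hμ, ?_, ?_⟩
  · rw [ht3, h1, Ph_smul, smul_smul]
  · have h3 : ∀ m, ∏ j ∈ range m, WH d u w ((FH d u w)^[j] (Ph a b c e Z)) =
        t m ^ 2 * ∏ j ∈ range m, WH d p q ((FH d p q)^[j] Z) := by
      intro m
      induction m with
      | zero => simp [ht0]
      | succ m ih =>
        rw [Finset.prod_range_succ, Finset.prod_range_succ, ih, ht3, WH_smul,
          WH_conj d hd hd0 p q u w hp hq hu hw a b c e s hdet h _
            (FH_iter_nz d hd p q hmax hco m Z hZ), ht1]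
        have h4 : t m ^ (2 * d - 2) * t m ^ 2 = (t m ^ d) ^ 2 := by
          rw [← pow_add, ← pow_mul]
          congr 1
          omega
        linear_combination (s ^ 2 * WH d p q ((FH d p q)^[m] Z) *
          ∏ j ∈ range m, WH d p q ((FH d p q)^[j] Z)) * h4
    rw [h3, ← h2]
    ring

lemma mul_at_zero (d : ℕ) (hd : 1 ≤ d) (hd0 : (d : K) ≠ 0) (u w : K[X])
    (hmax : max u.natDegree w.natDegree = d) (hco : IsCoprime u w) (n : ℕ) (lam : K)
    (h : IsMulAt d u w n lam (0, 1)) :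
    (itP d u w n).1.eval 0 = 0 ∧ (itP d u w n).2.eval 0 ≠ 0 ∧
      lam * (itP d u w n).2.eval 0 = (derivative (itP d u w n).1).eval 0 := by
  have hp : u.natDegree ≤ d := hmax ▸ le_max_left _ _
  have hq : w.natDegree ≤ d := hmax ▸ le_max_right _ _
  obtain ⟨μ, hμ, h1, h2⟩ := h
  have e0 := itP_eval d u w n 0
  rw [h1] at e0
  have e1 := congrArg Prod.fst e0
  have e2 := congrArg Prod.snd e0
  simp only [Prod.smul_fst, Prod.smul_snd, smul_eq_mul, mul_zero, mul_one] at e1 e2
  refine ⟨e1, by rw [e2]; exact hμ, ?_⟩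
  have h3 := itP_wr d hd hd0 u w hp hq n 0
  rw [← h2, wr_eval, e1, e2, zero_mul, sub_zero] at h3
  rw [e2]
  apply mul_right_cancel₀ hμ
  linear_combination -h3

lemma pts_zero [IsAlgClosed K] (d : ℕ) (hd : 2 ≤ d) (hd0 : (d : K) ≠ 0) (u w : K[X])
    (hmax : max u.natDegree w.natDegree = d) (hco : IsCoprime u w) (n : ℕ) (hn : 1 ≤ n) (lam : K)
    (h : IsMulAt d u w n lam (0, 1)) (h0 : lam ≠ 0) (h1 : lam ≠ 1) :
    (∃ be : K × K, wd be (0, 1) ≠ 0 ∧ wd ((FH d u w)^[n] be) be = 0) ∧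
      ∃ ga : K × K, wd ga (0, 1) ≠ 0 ∧ wd ((FH d u w)^[n] ga) (0, 1) = 0 := by
  obtain ⟨g1, g2, g3⟩ := mul_at_zero d (by omega) hd0 u w hmax hco n lam h
  have hdeg := itP_deg d u w n
  have htop := itP_top d u w n
  have hev := itP_eval d u w n
  set P := (itP d u w n).1 with hP
  set R := (itP d u w n).2 with hR
  have hD : 2 ≤ d ^ n := le_trans hd (Nat.le_self_pow (by omega) d)
  obtain ⟨P₁, hP₁⟩ : X ∣ P := by
    rw [X_dvd_iff, coeff_zero_eq_eval_zero]
    exact g1
  have hP₁0 : P₁.eval 0 = lam * R.eval 0 := by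
    rw [g3, hP₁]
    simp
  have hwd : ∀ x : K, wd ((x, 1) : K × K) (0, 1) = x := by
    intro x
    unfold wd
    simp
  constructor
  · by_cases hc : R.coeff (d ^ n) = 0
    · refine ⟨(1, 0), by unfold wd; simp, ?_⟩
      rw [← htop, hc]
      unfold wd
      simp
    · set G := P₁ - R with hG
      have h2 : P₁.coeff (d ^ n) = 0 := by
        have h3 : P.coeff (d ^ n + 1) = 0 := coeff_eq_zero_of_natDegree_lt (by omega)
        rw [hP₁, coeff_X_mul] at h3
        exact h3
      have h4 : G.coeff (d ^ n) ≠ 0 := by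
        rw [hG, coeff_sub, h2, zero_sub]
        exact neg_ne_zero.mpr hc
      have h5 : d ^ n ≤ G.natDegree := le_natDegree_of_ne_zero h4
      obtain ⟨x, hx⟩ := IsAlgClosed.exists_root G (by
        intro h6
        have h7 : _ = 0 := natDegree_eq_of_degree_eq_some (n := 0) h6
        omega)
      rw [IsRoot, hG, eval_sub] at hx
      have hx0 : x ≠ 0 := by
        rintro rfl
        rw [hP₁0] at hx
        have : (lam - 1) * R.eval 0 = 0 := by linear_combination hx
        rcases mul_eq_zero.mp this with h6 | h6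
        · exact h1 (sub_eq_zero.mp h6)
        · exact g2 h6
      refine ⟨(x, 1), by rw [hwd]; exact hx0, ?_⟩
      rw [← hev, hP₁]
      unfold wd
      simp only [eval_mul, eval_X, mul_one]
      linear_combination x * hx
  · by_cases hc : P.coeff (d ^ n) = 0
    · refine ⟨(1, 0), by unfold wd; simp, ?_⟩
      rw [← htop, hc]
      unfold wd
      simp
    · have h2 : P₁.coeff (d ^ n - 1) ≠ 0 := by
        have h3 : P.coeff (d ^ n - 1 + 1) = P₁.coeff (d ^ n - 1) := by rw [hP₁, coeff_X_mul]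
        rw [← h3, Nat.sub_add_cancel (by omega)]
        exact hc
      have h5 : d ^ n - 1 ≤ P₁.natDegree := le_natDegree_of_ne_zero h2
      obtain ⟨x, hx⟩ := IsAlgClosed.exists_root P₁ (by
        intro h6
        have h7 : _ = 0 := natDegree_eq_of_degree_eq_some (n := 0) h6
        omega)
      rw [IsRoot] at hx
      have hx0 : x ≠ 0 := by
        rintro rfl
        rw [hP₁0] at hx
        exact (mul_ne_zero h0 g2) hx
      refine ⟨(x, 1), by rw [hwd]; exact hx0, ?_⟩
      rw [← hev, hP₁]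
      unfold wd
      simp [hx]

lemma pts [IsAlgClosed K] (d : ℕ) (hd : 2 ≤ d) (hd0 : (d : K) ≠ 0) (p q : K[X])
    (hmax : max p.natDegree q.natDegree = d) (hco : IsCoprime p q) (n : ℕ) (hn : 1 ≤ n) (lam : K)
    (al : K × K) (hal : al ≠ 0) (h : IsMulAt d p q n lam al) (h0 : lam ≠ 0) (h1 : lam ≠ 1) :
    (∃ be : K × K, wd be al ≠ 0 ∧ wd ((FH d p q)^[n] be) be = 0) ∧
      ∃ ga : K × K, wd ga al ≠ 0 ∧ wd ((FH d p q)^[n] ga) al = 0 := by
  have hinf : Infinite K := IsAlgClosed.instInfinite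
  have hp : p.natDegree ≤ d := hmax ▸ le_max_left _ _
  have hq : q.natDegree ≤ d := hmax ▸ le_max_right _ _
  obtain ⟨V, hV⟩ : ∃ V : K × K, wd al V ≠ 0 := by
    by_cases h2 : al.2 = 0
    · have h1 : al.1 ≠ 0 := fun h1 => hal (Prod.ext h1 h2)
      exact ⟨(0, 1), by unfold wd; simpa [h2] using h1⟩
    · exact ⟨(1, 0), by unfold wd; simpa using h2⟩
  have hV2 : wd (al + V) al ≠ 0 := by
    have : wd (al + V) al = -wd al V := by
      unfold wd
      simp only [Prod.fst_add, Prod.snd_add]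
      ring
    rw [this]
    exact neg_ne_zero.mpr hV
  have hV3 : wd (al + V) V ≠ 0 := by
    have : wd (al + V) V = wd al V := by
      unfold wd
      simp only [Prod.fst_add, Prod.snd_add]
      ring
    rw [this]
    exact hV
  obtain ⟨u, w, a, b, c, e, s, hdet, hs, hconj, huw, humax, -, ⟨t, ht, hPal⟩, -, -⟩ :=
    exists_norm d (by omega) p q hmax hco al V (al + V) hV hV2 hV3
  have hu : u.natDegree ≤ d := humax ▸ le_max_left _ _
  have hw : w.natDegree ≤ d := humax ▸ le_max_right _ _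
  have hm := IsMulAt_conj d (by omega) hd0 p q u w hp hq hu hw hmax hco a b c e s hdet hs hconj n lam
    al hal h
  rw [hPal] at hm
  have hm' := IsMulAt_smul d (by omega) u w n lam _ t⁻¹ (inv_ne_zero ht) hm
  rw [smul_smul, inv_mul_cancel₀ ht, one_smul] at hm'
  obtain ⟨⟨be, hb1, hb2⟩, ⟨ga, hg1, hg2⟩⟩ := pts_zero d hd hd0 u w humax huw n hn lam hm' h0 h1
  have hadj : ∀ Y, Ph a b c e (Ph e (-b) (-c) a Y) = (a * e - b * c) • Y := fun Y => Ph_adj a b c e Y
  have hwdal : ∀ Y : K × K, wd Y (0, 1) ≠ 0 → wd (Ph e (-b) (-c) a Y) al ≠ 0 := by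
    intro Y hY h2
    have h3 := wd_Ph a b c e (Ph e (-b) (-c) a Y) al
    rw [h2, mul_zero, hadj, hPal, wd_smul_left', wd_smul_right'] at h3
    exact (mul_ne_zero hdet (mul_ne_zero ht hY)) h3
  refine ⟨⟨Ph e (-b) (-c) a be, hwdal be hb1, ?_⟩, ⟨Ph e (-b) (-c) a ga, hwdal ga hg1, ?_⟩⟩
  · have := (wd_conj d p q u w a b c e s hdet hs hconj n 0 (Ph e (-b) (-c) a be)
      (Ph e (-b) (-c) a be) be be _ _ hdet hdet (hadj be) (hadj be)).mp (by simpa using hb2)
    simpa using this
  · have := (wd_conj d p q u w a b c e s hdet hs hconj n 0 (Ph e (-b) (-c) a ga)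
      al ga (0, 1) _ t hdet ht (hadj ga) hPal).mp (by simpa using hg2)
    simpa using this

lemma prod_conj [Infinite K] (d : ℕ) (hd : 1 ≤ d) (hd0 : (d : K) ≠ 0) (p q u w : K[X]) (hp : p.natDegree ≤ d)
    (hq : q.natDegree ≤ d) (hu : u.natDegree ≤ d) (hw : w.natDegree ≤ d)
    (hmax : max p.natDegree q.natDegree = d) (hco : IsCoprime p q) (a b c e s : K)
    (hdet : a * e - b * c ≠ 0) (hs : s ≠ 0)
    (h : ∀ Z, FH d u w (Ph a b c e Z) = s • Ph a b c e (FH d p q Z)) (n : ℕ)
    (Z : K × K) (hZ : Z ≠ 0) : ∃ t : K, t ≠ 0 ∧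
    ∏ j ∈ range n, WH d u w ((FH d u w)^[j] (Ph a b c e Z)) =
        t * ∏ j ∈ range n, WH d p q ((FH d p q)^[j] Z) := by
  obtain ⟨t, ht0, ht1, ht2, ht3⟩ := FH_conj_iter d p q u w a b c e s hs h
  refine ⟨t n ^ 2, pow_ne_zero _ (ht2 n), ?_⟩
  induction n with
  | zero => simp [ht0]
  | succ m ih =>
    rw [Finset.prod_range_succ, Finset.prod_range_succ, ih, ht3, WH_smul,
      WH_conj d hd hd0 p q u w hp hq hu hw a b c e s hdet h _
        (FH_iter_nz d hd p q hmax hco m Z hZ), ht1]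
    have h4 : t m ^ (2 * d - 2) * t m ^ 2 = (t m ^ d) ^ 2 := by
      rw [← pow_add, ← pow_mul]
      congr 1
      omega
    linear_combination (s ^ 2 * WH d p q ((FH d p q)^[m] Z) *
      ∏ j ∈ range m, WH d p q ((FH d p q)^[j] Z)) * h4

end

section
variable {M : Type u} [Field M] {Om : Type v} [Field Om] [Algebra M Om]

lemma triple [IsAlgClosed Om] (d m : ℕ) (hd : 2 ≤ d) (hd0 : (d : Om) ≠ 0) (p q : M[X])
    (hmax : max p.natDegree q.natDegree = d) (hco : IsCoprime p q)
    (hrat : RatPts Om d m p q) (n : ℕ) (hn : 1 ≤ n) (hnm : n ≤ m) (lam : M)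
    (hl : IsMul d p q n lam) (h0 : lam ≠ 0) (h1 : lam ≠ 1) :
    ∃ al be ga : M × M, al ≠ 0 ∧ IsMulAt d p q n lam al ∧ wd al be ≠ 0 ∧ wd ga al ≠ 0 ∧
      wd ga be ≠ 0 ∧ wd ((FH d p q)^[n] be) be = 0 ∧ wd ((FH d p q)^[n] ga) al = 0 := by
  set φ := algebraMap M Om with hφ
  have hinj : Function.Injective φ := φ.injective
  obtain ⟨al, hal, hm⟩ := hl
  have hpo : max (p.map φ).natDegree (q.map φ).natDegree = d := max_map φ p q d hmax
  have hcoo : IsCoprime (p.map φ) (q.map φ) := (Polynomial.isCoprime_map φ).mpr hco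
  have halo : vh φ al ≠ 0 := by
    intro h
    apply hal
    have g1 : φ al.1 = 0 := congrArg Prod.fst h
    have g2 : φ al.2 = 0 := congrArg Prod.snd h
    exact Prod.ext (hinj (g1.trans (map_zero φ).symm)) (hinj (g2.trans (map_zero φ).symm))
  have hmo : IsMulAt d (p.map φ) (q.map φ) n (φ lam) (vh φ al) := by
    obtain ⟨μ, hμ, g1, g2⟩ := hm
    refine ⟨φ μ, (map_ne_zero φ).mpr hμ, ?_, ?_⟩
    · rw [FH_iter_hom, g1]
      unfold vh
      simp only [Prod.smul_fst, Prod.smul_snd, smul_eq_mul, map_mul]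
      rfl
    · rw [← map_pow, ← map_mul, g2, map_prod]
      apply Finset.prod_congr rfl
      intro j _
      rw [FH_iter_hom, WH_hom]
  obtain ⟨⟨be, hb1, hb2⟩, ⟨ga, hg1, hg2⟩⟩ := pts d hd hd0 _ _ hpo hcoo n hn (φ lam) (vh φ al) halo hmo
    ((map_ne_zero φ).mpr h0) (fun h => h1 (hinj (by rw [h, map_one])))
  have hbe0 : be ≠ 0 := by
    rintro rfl
    apply hb1
    unfold wd
    simp
  have hga0 : ga ≠ 0 := by
    rintro rfl
    apply hg1
    unfold wd
    simp
  have halfix : wd ((FH d (p.map φ) (q.map φ))^[n] (vh φ al)) (vh φ al) = 0 := by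
    obtain ⟨μ, -, g1, -⟩ := hmo
    rw [g1, wd_smul_left', wd_self', mul_zero]
  obtain ⟨t, ht, Y, hY⟩ := hrat n hn hnm be hbe0 (Or.inl (fix_two d _ _ n be be hbe0 hb2 hb2))
  obtain ⟨t', ht', Y', hY'⟩ := hrat n hn hnm ga hga0 (Or.inl (fix_two d _ _ n ga _ halo hg2 halfix))
  have hz : ∀ {x : M}, φ x = 0 → x = 0 := fun {x} h => (map_eq_zero φ).mp h
  refine ⟨al, Y, Y', hal, hm, ?_, ?_, ?_, ?_, ?_⟩
  · intro h
    apply hb1
    have h' : wd Y al = 0 := by
      have : wd Y al = -wd al Y := by unfold wd; ring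
      rw [this, h, neg_zero]
    rw [hY, wd_smul_left', wd_hom, h', map_zero, mul_zero]
  · intro h
    apply hg1
    rw [hY', wd_smul_left', wd_hom, h, map_zero, mul_zero]
  · intro h
    -- ga and be are proportional
    have h3 : wd ga be = 0 := by
      rw [hY', hY, wd_smul_left', wd_smul_right', wd_hom, h, map_zero, mul_zero, mul_zero]
    obtain ⟨x, hx⟩ := exists_smul_of_wd _ _ hbe0 h3
    have hx0 : x ≠ 0 := by
      rintro rfl
      apply hga0
      rw [hx, zero_smul]
    rw [hx, FH_iter_smul, wd_smul_left'] at hg2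
    have h4 := (mul_eq_zero.mp hg2).resolve_left (pow_ne_zero _ hx0)
    obtain ⟨y, hy⟩ := exists_smul_of_wd _ _ hbe0 hb2
    have hy0 : y ≠ 0 := by
      rintro rfl
      rw [zero_smul] at hy
      exact FH_iter_nz d (by omega) _ _ hpo hcoo n be hbe0 hy
    rw [hy, wd_smul_left'] at h4
    exact hb1 ((mul_eq_zero.mp h4).resolve_left hy0)
  · rw [hY, FH_iter_smul, FH_iter_map, wd_smul_left', wd_smul_right', wd_hom] at hb2
    exact hz ((mul_eq_zero.mp ((mul_eq_zero.mp hb2).resolve_left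
      (pow_ne_zero _ ht))).resolve_left ht)
  · rw [hY', FH_iter_smul, FH_iter_map, wd_smul_left', wd_hom] at hg2
    exact hz ((mul_eq_zero.mp hg2).resolve_left (pow_ne_zero _ ht'))

lemma wr_splits [IsAlgClosed Om] [Infinite M] (d m : ℕ) (hd : 1 ≤ d) (hd0 : (d : Om) ≠ 0)
    (p q u w : M[X]) (hmax : max p.natDegree q.natDegree = d) (hco : IsCoprime p q)
    (humax : max u.natDegree w.natDegree = d) (hrat : RatPts Om d m p q) (a b c e s : M)
    (hdet : a * e - b * c ≠ 0) (hs : s ≠ 0)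
    (h : ∀ Z, FH d u w (Ph a b c e Z) = s • Ph a b c e (FH d p q Z)) (n : ℕ) (hn : 1 ≤ n)
    (hnm : n ≤ m) : (wr (itP d u w n).1 (itP d u w n).2).Splits := by
  have hinfO : Infinite Om := IsAlgClosed.instInfinite
  set φ := algebraMap M Om with hφ
  have hinj : Function.Injective φ := φ.injective
  have hp : p.natDegree ≤ d := hmax ▸ le_max_left _ _
  have hq : q.natDegree ≤ d := hmax ▸ le_max_right _ _
  have hu : u.natDegree ≤ d := humax ▸ le_max_left _ _
  have hw : w.natDegree ≤ d := humax ▸ le_max_right _ _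
  have hpo : max (p.map φ).natDegree (q.map φ).natDegree = d := max_map φ p q d hmax
  have hcoo : IsCoprime (p.map φ) (q.map φ) := (Polynomial.isCoprime_map φ).mpr hco
  have hconj := fun Z => CjF_hom φ d p q u w hp hq hu hw a b c e s h Z
  apply Splits.of_splits_map_of_injective hinj (IsAlgClosed.splits _)
  intro x hx
  have hx' := isRoot_of_mem_roots hx
  rw [← wr_map, IsRoot] at hx'
  have e1 := itP_map φ d u w n
  have e2 : ((itP d u w n).1.map φ) = (itP d (u.map φ) (w.map φ) n).1 := by rw [e1]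
  have e3 : ((itP d u w n).2.map φ) = (itP d (u.map φ) (w.map φ) n).2 := by rw [e1]
  rw [e2, e3, itP_wr d hd hd0 _ _ (natDegree_map_le.trans hu) (natDegree_map_le.trans hw)] at hx'
  have hdetφ : φ a * φ e - φ b * φ c ≠ 0 := by
    rw [← map_mul, ← map_mul, ← map_sub]
    exact (map_ne_zero φ).mpr hdet
  have hdetφ' : φ e * φ a - (-φ b) * (-φ c) ≠ 0 := by
    intro h
    apply hdetφ
    linear_combination h
  set Z := Ph (φ e) (-φ b) (-φ c) (φ a) ((x, 1) : Om × Om) with hZ
  have hx10 : ((x, 1) : Om × Om) ≠ 0 := fun h => one_ne_zero (congrArg Prod.snd h)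
  have hZ0 : Z ≠ 0 := Ph_ne _ _ _ _ hdetφ' _ hx10
  obtain ⟨t, ht, htt⟩ := prod_conj d hd hd0 _ _ _ _ (natDegree_map_le.trans hp)
    (natDegree_map_le.trans hq) (natDegree_map_le.trans hu) (natDegree_map_le.trans hw) hpo hcoo
    _ _ _ _ _ hdetφ ((map_ne_zero φ).mpr hs) hconj n Z hZ0
  have hadj : Ph (φ a) (φ b) (φ c) (φ e) Z = (φ a * φ e - φ b * φ c) • ((x, 1) : Om × Om) :=
    Ph_adj _ _ _ _ _
  have h5 := prod_smul d hd (u.map φ) (w.map φ) n (φ a * φ e - φ b * φ c) ((x, 1) : Om × Om)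
  rw [← hadj, hx', mul_zero] at h5
  have h6 := (mul_eq_zero.mp h5).resolve_left (pow_ne_zero 2 hdetφ)
  rw [h6] at htt
  have h7 := (mul_eq_zero.mp htt.symm).resolve_left ht
  obtain ⟨t', ht', Y, hY⟩ := hrat n hn hnm Z hZ0 (Or.inr h7)
  have h8 : (φ a * φ e - φ b * φ c) • ((x, 1) : Om × Om) = t' • vh φ (Ph a b c e Y) := by
    rw [← hadj, hY, Ph_smul, Ph_hom]
  have h9 := congrArg Prod.fst h8
  have h10 := congrArg Prod.snd h8
  simp only [vh, Prod.smul_fst, Prod.smul_snd, smul_eq_mul, mul_one] at h9 h10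
  have h11 : φ (Ph a b c e Y).2 ≠ 0 := by
    intro h
    rw [h, mul_zero] at h10
    exact hdetφ h10
  refine ⟨(Ph a b c e Y).1 / (Ph a b c e Y).2, ?_⟩
  rw [map_div₀, div_eq_iff h11]
  apply mul_left_cancel₀ ht'
  rw [← h9, h10]
  ring

end

section
variable {K : Type u} [Field K]

lemma finite_mul (d : ℕ) (hd : 2 ≤ d) (p q : K[X])
    (hmax : max p.natDegree q.natDegree = d) (hco : IsCoprime p q) (n : ℕ) (hn : 1 ≤ n) :
    {l : K | IsMul d p q n l}.Finite := by
  have hT := finite_pts d hd p q hmax hco n 0 (by omega)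
  refine Set.Finite.subset (hT.biUnion (t := fun z => {l : K | IsMulAt d p q n l (vec z)})
    fun z _ => ?_) ?_
  · apply Set.Subsingleton.finite
    intro l hl l' hl'
    exact IsMulAt_unique d p q n l l' (vec z) (vec_ne z) hl hl'
  · rintro l ⟨Z, hZ, hm⟩
    obtain ⟨t, ht, hZt⟩ := exists_smul Z hZ
    have h1 : IsMulAt d p q n l (vec (pt Z)) := by
      have h2 := IsMulAt_smul d (by omega) p q n l Z t⁻¹ (inv_ne_zero ht) hm
      rw [hZt, smul_smul, inv_mul_cancel₀ ht, one_smul] at h2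
      exact h2
    rw [Set.mem_iUnion₂]
    refine ⟨pt Z, ?_, h1⟩
    obtain ⟨μ, -, h3, -⟩ := h1
    show wd ((FH d p q)^[n] (vec (pt Z))) ((FH d p q)^[0] (vec (pt Z))) = 0
    rw [h3, Function.iterate_zero_apply, wd_smul_left', wd_self', mul_zero]

end

section
variable {M : Type u} [Field M] {Om : Type u} [Field Om] [Algebra M Om]

lemma mul_rat [IsAlgClosed Om] (d m : ℕ) (hd : 2 ≤ d) (p q : M[X])
    (hmax : max p.natDegree q.natDegree = d) (hco : IsCoprime p q)
    (hrat : RatPts Om d m p q) (n : ℕ) (hn : 1 ≤ n) (hnm : n ≤ m) (lam : Om)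
    (hl : IsMul d (p.map (algebraMap M Om)) (q.map (algebraMap M Om)) n lam) :
    ∃ l : M, algebraMap M Om l = lam ∧ IsMul d p q n l := by
  set φ := algebraMap M Om with hφ
  have hinj : Function.Injective φ := φ.injective
  obtain ⟨Z, hZ, hm⟩ := hl
  have hfix : wd ((FH d (p.map φ) (q.map φ))^[n] Z) Z = 0 := by
    obtain ⟨μ, -, g1, -⟩ := hm
    rw [g1, wd_smul_left', wd_self', mul_zero]
  obtain ⟨t, ht, Y, hY⟩ := hrat n hn hnm Z hZ (Or.inl (fix_two d _ _ n Z Z hZ hfix hfix))
  have hY0 : Y ≠ 0 := vh_ne hZ hY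
  have hm' := IsMulAt_smul d (by omega) _ _ n lam Z t⁻¹ (inv_ne_zero ht) hm
  rw [hY, smul_smul, inv_mul_cancel₀ ht, one_smul] at hm'
  obtain ⟨μ, hμ, h1, h2⟩ := hm'
  rw [← hφ, FH_iter_hom] at h1
  have h3 : wd ((FH d p q)^[n] Y) Y = 0 := by
    apply hinj
    rw [← wd_hom, h1, wd_smul_left', wd_self', mul_zero, map_zero]
  obtain ⟨ν, hν⟩ := exists_smul_of_wd _ _ hY0 h3
  have hν0 : ν ≠ 0 := by
    rintro rfl
    rw [zero_smul] at hν
    exact FH_iter_nz d (by omega) p q hmax hco n Y hY0 hν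
  have hvh0 : vh φ Y ≠ 0 := by
    intro h
    apply hY0
    have g1 : φ Y.1 = 0 := congrArg Prod.fst h
    have g2 : φ Y.2 = 0 := congrArg Prod.snd h
    exact Prod.ext (hinj (g1.trans (map_zero φ).symm)) (hinj (g2.trans (map_zero φ).symm))
  have hμν : μ = φ ν := by
    have h4 : vh φ (ν • Y) = φ ν • vh φ Y := by
      unfold vh
      simp
    rw [hν, h4] at h1
    by_contra hne
    apply hvh0
    have h6 : (φ ν - μ) • vh φ Y = 0 := by rw [sub_smul, h1, sub_self]
    exact (smul_eq_zero.mp h6).resolve_left (sub_ne_zero.mpr (Ne.symm hne))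
  have h5 : ∏ j ∈ range n, WH d (p.map φ) (q.map φ) ((FH d (p.map φ) (q.map φ))^[j] (vh φ Y)) =
      φ (∏ j ∈ range n, WH d p q ((FH d p q)^[j] Y)) := by
    rw [map_prod]
    apply Finset.prod_congr rfl
    intro j _
    rw [FH_iter_hom, WH_hom]
  rw [← hφ, h5, hμν, ← map_pow] at h2
  refine ⟨(∏ j ∈ range n, WH d p q ((FH d p q)^[j] Y)) / ν ^ 2, ?_, Y, hY0, ν, hν0, hν, ?_⟩
  · rw [map_div₀, ← h2, mul_div_assoc, div_self ((map_ne_zero φ).mpr (pow_ne_zero 2 hν0)), mul_one]
  · rw [div_mul_cancel₀ _ (pow_ne_zero 2 hν0)]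

end

section
variable {K : Type u} [Field K]

lemma marked3_aux [IsAlgClosed K] (d : ℕ) (hd : 2 ≤ d) (u w : K[X])
    (hmax : max u.natDegree w.natDegree = d) (hco : IsCoprime u w)
    (hfix : wd (FH d u w (1, 0)) (1, 0) = 0)
    (hB : ∀ al ga : K × K, al ≠ 0 → wd (FH d u w al) al = 0 → wd (FH d u w ga) al = 0 →
      wd ga al = 0) :
    ∃ x y : K, x ≠ y ∧ wd (FH d u w (x, 1)) (x, 1) = 0 ∧ wd (FH d u w (y, 1)) (y, 1) = 0 := by
  have hu : u.natDegree ≤ d := hmax ▸ le_max_left _ _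
  have hw : w.natDegree ≤ d := hmax ▸ le_max_right _ _
  have hF : ∀ x : K, FH d u w (x, 1) = (u.eval x, w.eval x) := by
    intro x
    unfold FH
    rw [hev_one d u hu, hev_one d w hw]
  have hw0 : w.natDegree = 0 := by
    by_contra hne
    obtain ⟨x, hx⟩ := IsAlgClosed.exists_root w (by
      intro h6
      have h7 : _ = 0 := natDegree_eq_of_degree_eq_some (n := 0) h6
      omega)
    rw [IsRoot] at hx
    have h1 := hB (1, 0) (x, 1) (fun h => one_ne_zero (congrArg Prod.fst h)) hfix (by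
      rw [hF, hx]
      unfold wd
      simp)
    unfold wd at h1
    simp at h1
  obtain ⟨c, rfl⟩ := natDegree_eq_zero.mp hw0
  have hud : u.natDegree = d := by
    rw [hw0] at hmax
    simpa using hmax
  have hc0 : c ≠ 0 := by
    rintro rfl
    rw [C_0, isCoprime_zero_right] at hco
    have := natDegree_eq_zero_of_isUnit hco
    omega
  have hF' : ∀ x : K, FH d u (C c) (x, 1) = (u.eval x, c) := by
    intro x
    rw [hF, eval_C]
  set G : K[X] := u - C c * X with hG
  have hGd : G.natDegree = d := by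
    rw [hG, natDegree_sub_eq_left_of_natDegree_lt, hud]
    rw [hud]
    have h1 : (C c * X : K[X]).natDegree ≤ 1 := (natDegree_C_mul_le _ _).trans natDegree_X_le
    exact lt_of_le_of_lt h1 (by omega)
  obtain ⟨x, hx⟩ := IsAlgClosed.exists_root G (by
    intro h6
    have h7 : _ = 0 := natDegree_eq_of_degree_eq_some (n := 0) h6
    omega)
  rw [IsRoot] at hx
  obtain ⟨y, hy, hyx⟩ := quot_root d hd G hGd x hx
  have hfixpt : ∀ z : K, G.eval z = 0 → wd (FH d u (C c) (z, 1)) (z, 1) = 0 := by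
    intro z hz
    rw [hF']
    unfold wd
    simp only
    rw [hG, eval_sub, eval_mul, eval_C, eval_X] at hz
    linear_combination hz
  by_cases hne : y = x
  · exfalso
    have h1 := hyx hne
    rw [hG, derivative_sub, derivative_C_mul, derivative_X, mul_one, eval_sub, eval_C] at h1
    rw [hG, eval_sub, eval_mul, eval_C, eval_X] at hx
    set H : K[X] := u - C (c * x) with hH
    have hHd : H.natDegree = d := by rw [hH, natDegree_sub_C, hud]
    obtain ⟨z, hz, hzx⟩ := quot_root d hd H hHd x (by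
      rw [hH, eval_sub, eval_C]
      exact hx)
    have hz' : u.eval z = c * x := by
      rw [hH, eval_sub, eval_C] at hz
      exact sub_eq_zero.mp hz
    have h2 := hB (x, 1) (z, 1) (fun h => one_ne_zero (congrArg Prod.snd h))
      (hfixpt x (by rw [hG, eval_sub, eval_mul, eval_C, eval_X]; exact hx)) (by
        rw [hF', hz']
        unfold wd
        simp only
        ring)
    have h3 : z = x := by
      unfold wd at h2
      simp only [mul_one, one_mul] at h2
      exact sub_eq_zero.mp h2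
    have h4 := hzx h3
    rw [hH, derivative_sub, derivative_C, sub_zero] at h4
    rw [h4, zero_sub, neg_eq_zero] at h1
    exact hc0 h1
  · exact ⟨x, y, fun h => hne h.symm, hfixpt x hx, hfixpt y hy⟩

theorem marked3 [IsAlgClosed K] (d : ℕ) (hd : 2 ≤ d) (p q : K[X])
    (hmax : max p.natDegree q.natDegree = d) (hco : IsCoprime p q) :
    ∃ al be ga : K × K, wd al be ≠ 0 ∧ wd ga al ≠ 0 ∧ wd ga be ≠ 0 ∧
      wd ((FH d p q)^[3] al) ((FH d p q)^[2] al) = 0 ∧
      wd ((FH d p q)^[3] be) ((FH d p q)^[2] be) = 0 ∧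
      wd ((FH d p q)^[3] ga) ((FH d p q)^[2] ga) = 0 := by
  have hinf : Infinite K := IsAlgClosed.instInfinite
  have hp : p.natDegree ≤ d := hmax ▸ le_max_left _ _
  have hq : q.natDegree ≤ d := hmax ▸ le_max_right _ _
  have hnz : ∀ Z : K × K, Z ≠ 0 → FH d p q Z ≠ 0 := FH_nz d (by omega) p q hmax hco
  have h32 : ∀ Z : K × K, (FH d p q)^[3] Z = FH d p q (FH d p q (FH d p q Z)) := fun Z => rfl
  have h22 : ∀ Z : K × K, (FH d p q)^[2] Z = FH d p q (FH d p q Z) := fun Z => rfl
  by_cases hA : ∃ al ga : K × K, al ≠ 0 ∧ wd (FH d p q al) al = 0 ∧ wd ga al ≠ 0 ∧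
      wd (FH d p q ga) al = 0
  · obtain ⟨al, ga, hal, h1, h2, h3⟩ := hA
    have hga : ga ≠ 0 := (ne_of_wd h2).1
    obtain ⟨de, hde, h4⟩ := surj d (by omega) p q hp hq ga
    refine ⟨al, de, ga, ?_, h2, ?_, ?_, ?_, ?_⟩
    · intro h5
      -- al ~ de
      apply h2
      have h6 := wd_F (d := d) (p := p) (q := q) hde h5
      exact wd_trans' (hnz _ hde) (wd_symm' h4) (wd_trans' (hnz _ hal) (wd_symm' h6) h1)
    · intro h5
      apply h2
      have h6 := wd_F (d := d) (p := p) (q := q) hde h5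
      -- F ga ~ F de ~ ga, F ga ~ al
      exact wd_trans' (hnz _ hga) (wd_symm' (wd_trans' (hnz _ hde) h6 h4)) h3
    · rw [h32, h22]
      exact wd_F (hnz _ hal) (wd_F hal h1)
    · rw [h32, h22]
      -- F F F de ~ F F ga ~ F al ~ al ; F F de ~ F ga ~ al
      have e1 : wd (FH d p q (FH d p q de)) (FH d p q ga) = 0 := wd_F hga h4
      have e2 : wd (FH d p q (FH d p q de)) al = 0 := wd_trans' (hnz _ hga) e1 h3
      have e3 : wd (FH d p q (FH d p q (FH d p q de))) (FH d p q al) = 0 := wd_F hal e2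
      exact wd_trans' (hnz _ hal) e3 (wd_trans' hal h1 (wd_symm' e2))
    · rw [h32, h22]
      have e1 : wd (FH d p q (FH d p q ga)) (FH d p q al) = 0 := wd_F hal h3
      have e2 : wd (FH d p q (FH d p q ga)) al = 0 := wd_trans' (hnz _ hal) e1 h1
      have e3 : wd (FH d p q (FH d p q (FH d p q ga))) (FH d p q al) = 0 := wd_F hal e2
      exact wd_trans' (hnz _ hal) e3 (wd_trans' hal h1 (wd_symm' e2))
  · push Not at hA
    obtain ⟨al, hal, hfix⟩ := fixed_pt d p q hp hq
    obtain ⟨V, hV⟩ : ∃ V : K × K, wd V al ≠ 0 := by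
      by_cases h2 : al.2 = 0
      · have h1 : al.1 ≠ 0 := fun h1 => hal (Prod.ext h1 h2)
        exact ⟨(0, 1), by unfold wd; simpa [h2] using h1⟩
      · exact ⟨(1, 0), by unfold wd; simpa using h2⟩
    have hV2 : wd (al + V) V ≠ 0 := by
      have : wd (al + V) V = -wd V al := by
        unfold wd
        simp only [Prod.fst_add, Prod.snd_add]
        ring
      rw [this]
      exact neg_ne_zero.mpr hV
    have hV3 : wd (al + V) al ≠ 0 := by
      have : wd (al + V) al = wd V al := by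
        unfold wd
        simp only [Prod.fst_add, Prod.snd_add]
        ring
      rw [this]
      exact hV
    obtain ⟨u, w, a, b, c, e, s, hdet, hs, hconj, huw, humax, -, -, ⟨t, ht, hPal⟩, -⟩ :=
      exists_norm d (by omega) p q hmax hco V al (al + V) hV hV2 hV3
    have hadj : ∀ Y, Ph a b c e (Ph e (-b) (-c) a Y) = (a * e - b * c) • Y :=
      fun Y => Ph_adj a b c e Y
    have hdet' : e * a - (-b) * (-c) ≠ 0 := by
      intro h
      apply hdet
      linear_combination h
    have hfix' : wd (FH d u w (1, 0)) (1, 0) = 0 :=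
      (wd_conj d p q u w a b c e s hdet hs hconj 1 0 al al _ _ t t ht ht hPal hPal).mpr hfix
    have hB : ∀ al ga : K × K, al ≠ 0 → wd (FH d u w al) al = 0 → wd (FH d u w ga) al = 0 →
        wd ga al = 0 := by
      intro al' ga' h1 h2 h3
      have g1 := (wd_conj d p q u w a b c e s hdet hs hconj 1 0 _ _ al' al' _ _ hdet hdet
        (hadj al') (hadj al')).mp h2
      have g2 := (wd_conj d p q u w a b c e s hdet hs hconj 1 0 _ _ ga' al' _ _ hdet hdet
        (hadj ga') (hadj al')).mp h3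
      have g3 : wd (Ph e (-b) (-c) a ga') (Ph e (-b) (-c) a al') = 0 := by
        by_contra hne
        exact hA _ _ (Ph_ne _ _ _ _ hdet' _ h1) g1 hne g2
      exact (wd_conj d p q u w a b c e s hdet hs hconj 0 0 _ _ ga' al' _ _ hdet hdet
        (hadj ga') (hadj al')).mpr g3
    obtain ⟨x, y, hxy, hx, hy⟩ := marked3_aux d hd u w humax huw hfix' hB
    have hnz' : ∀ Z : K × K, Z ≠ 0 → FH d u w Z ≠ 0 := FH_nz d (by omega) u w humax huw
    have key : ∀ Z : K × K, Z ≠ 0 → wd (FH d u w Z) Z = 0 →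
        wd ((FH d p q)^[3] (Ph e (-b) (-c) a Z)) ((FH d p q)^[2] (Ph e (-b) (-c) a Z)) = 0 := by
      intro Z hZ h
      refine (wd_conj d p q u w a b c e s hdet hs hconj 3 2 _ _ Z Z _ _ hdet hdet
        (hadj Z) (hadj Z)).mp ?_
      show wd (FH d u w (FH d u w (FH d u w Z))) (FH d u w (FH d u w Z)) = 0
      exact wd_F (hnz' _ hZ) (wd_F hZ h)
    have key2 : ∀ Z V : K × K, wd Z V ≠ 0 →
        wd (Ph e (-b) (-c) a Z) (Ph e (-b) (-c) a V) ≠ 0 := by
      intro Z V h h0
      exact h ((wd_conj d p q u w a b c e s hdet hs hconj 0 0 _ _ Z V _ _ hdet hdet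
        (hadj Z) (hadj V)).mpr h0)
    refine ⟨Ph e (-b) (-c) a (1, 0), Ph e (-b) (-c) a (x, 1), Ph e (-b) (-c) a (y, 1),
      key2 _ _ ?_, key2 _ _ ?_, key2 _ _ ?_, key _ ?_ hfix', key _ ?_ hx, key _ ?_ hy⟩
    · unfold wd
      simp
    · unfold wd
      simp
    · unfold wd
      simp only [mul_one, one_mul]
      exact sub_ne_zero.mpr (Ne.symm hxy)
    · exact fun h => one_ne_zero (congrArg Prod.fst h)
    · exact fun h => one_ne_zero (congrArg Prod.snd h)
    · exact fun h => one_ne_zero (congrArg Prod.snd h)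

lemma wr_zero (p q : K[X]) (hP : ∀ j : ℕ, 1 ≤ j → j ≤ max p.natDegree q.natDegree → (j : K) ≠ 0)
    (hco : IsCoprime p q) (h : wr p q = 0) :
    p.natDegree = 0 ∧ q.natDegree = 0 := by
  unfold wr at h
  have h1 : derivative p * q = p * derivative q := sub_eq_zero.mp h
  have aux : ∀ p q : K[X], (∀ j : ℕ, 1 ≤ j → j ≤ p.natDegree → (j : K) ≠ 0) → IsCoprime p q →
      p ∣ derivative p * q → p.natDegree = 0 := by
    intro p q hP hco hd
    have h2 : p ∣ derivative p := hco.dvd_of_dvd_mul_right hd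
    by_contra hne
    have h3 : derivative p ≠ 0 := by
      intro h3
      have h6 := congrArg (fun f : K[X] => f.coeff (p.natDegree - 1)) h3
      simp only [coeff_derivative, coeff_zero] at h6
      have h7 : p.natDegree - 1 + 1 = p.natDegree := by omega
      have h8 : ((p.natDegree - 1 : ℕ) : K) + 1 = (p.natDegree : K) := by
        rw [← Nat.cast_succ, Nat.succ_eq_add_one, h7]
      rw [h7, h8] at h6
      rcases mul_eq_zero.mp h6 with h9 | h9
      · have h10 : p = 0 := leadingCoeff_eq_zero.mp h9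
        rw [h10, natDegree_zero] at hne
        exact hne rfl
      · exact hP _ (by omega) le_rfl h9
    have h4 := natDegree_le_of_dvd h2 h3
    have h5 := natDegree_derivative_lt hne
    omega
  refine ⟨aux p q (fun j h1 h2 => hP j h1 (h2.trans (le_max_left _ _))) hco ⟨derivative q, h1⟩,
    aux q p (fun j h1 h2 => hP j h1 (h2.trans (le_max_right _ _))) hco.symm ⟨derivative p, ?_⟩⟩
  rw [mul_comm, ← h1, mul_comm]

lemma WP_ne [Infinite K] (d : ℕ) (hd : 2 ≤ d) (m : ℕ)
    (hP : ∀ j : ℕ, 1 ≤ j → j ≤ d ^ m → (j : K) ≠ 0) (p q : K[X])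
    (hmax : max p.natDegree q.natDegree = d) (hco : IsCoprime p q) : WP d m p q ≠ 0 := by
  unfold WP
  rw [Finset.prod_ne_zero_iff]
  intro n hn
  rw [Finset.mem_Icc] at hn
  apply mul_ne_zero
  · intro h0
    have hfin := finite_pts d hd p q hmax hco (2 * n) n (by omega)
    have hsub : Set.range (some : K → Option K) ⊆
        {z | wd ((FH d p q)^[2 * n] (vec z)) ((FH d p q)^[n] (vec z)) = 0} := by
      rintro _ ⟨x, rfl⟩
      show wd ((FH d p q)^[2 * n] (x, 1)) ((FH d p q)^[n] (x, 1)) = 0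
      rw [← itP_eval, ← itP_eval]
      unfold wd
      simp only
      rw [← eval_mul, ← eval_mul, ← eval_sub, h0, eval_zero]
    exact (Set.infinite_range_of_injective (Option.some_injective K)) (hfin.subset hsub)
  · intro h0
    obtain ⟨h1, h2⟩ := wr_zero _ _ (fun j g1 g2 => hP j g1 (g2.trans
      ((itP_max d (by omega) p q hmax hco n).le.trans
        (Nat.pow_le_pow_right (by omega) hn.2)))) (itP_coprime d (by omega) p q hmax hco n) h0
    have h3 := itP_max d (by omega) p q hmax hco n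
    rw [h1, h2] at h3
    have h4 : 0 < d ^ n := pow_pos (by omega) n
    simp at h3
    omega

lemma WQ_ne [Infinite K] (d : ℕ) (hd : 2 ≤ d) (p q : K[X])
    (hmax : max p.natDegree q.natDegree = d) (hco : IsCoprime p q) : WQ d p q ≠ 0 := by
  intro h0
  have hfin := finite_pts d hd p q hmax hco 3 2 (by omega)
  have hsub : Set.range (some : K → Option K) ⊆
      {z | wd ((FH d p q)^[3] (vec z)) ((FH d p q)^[2] (vec z)) = 0} := by
    rintro _ ⟨x, rfl⟩
    show wd ((FH d p q)^[3] (x, 1)) ((FH d p q)^[2] (x, 1)) = 0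
    rw [← itP_eval, ← itP_eval]
    unfold wd
    simp only
    rw [← eval_mul, ← eval_mul, ← eval_sub]
    have h1 : (itP d p q 3).1 * (itP d p q 2).2 - (itP d p q 3).2 * (itP d p q 2).1 = 0 := h0
    rw [h1, eval_zero]
  exact (Set.infinite_range_of_injective (Option.some_injective K)) (hfin.subset hsub)

end

/-- **The field of the marked points.** -/
theorem exists_M2 (d m : ℕ) (hd : 2 ≤ d) (hm : 1 ≤ m) (L : Type u) [Field L] [Infinite L]
    (hP : ∀ j : ℕ, 1 ≤ j → j ≤ d ^ m → (j : L) ≠ 0) (Om : Type v)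
    [Field Om] [Algebra L Om] (p q : L[X])
    (hmax : max p.natDegree q.natDegree = d) (hco : IsCoprime p q) :
    ∃ M : IntermediateField L Om, FiniteDimensional L M ∧
      Module.finrank L M ≤ (wpd2 d m + 1) ^ wpd2 d m ∧
      RatPts Om d m (p.map (algebraMap L M)) (q.map (algebraMap L M)) ∧
      Rat32 Om d (p.map (algebraMap L M)) (q.map (algebraMap L M)) := by
  set W := WP d m p q * WQ d p q with hW
  have hW0 : W ≠ 0 := mul_ne_zero (WP_ne d hd m hP p q hmax hco) (WQ_ne d hd p q hmax hco)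
  have hWd : W.natDegree ≤ wpd2 d m :=
    natDegree_mul_le.trans (add_le_add (WP_deg d m p q) (WQ_deg d p q))
  obtain ⟨hfd, hfr⟩ := Pool.Agent.Y555.CH.t_DEG L Om W (wpd2 d m) hW0 hWd
  refine ⟨IntermediateField.adjoin L (W.rootSet Om), hfd, hfr, ?_, ?_⟩
  · set M := IntermediateField.adjoin L (W.rootSet Om) with hM
    have hd0 : (d : Om) ≠ 0 := by
      have h1 := hP d (by omega) (Nat.le_self_pow (by omega) d)
      intro h2
      apply h1
      apply (algebraMap L Om).injective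
      rw [map_natCast, h2, map_zero]
    intro n hn hnm Z hZ hprop
    have emap : ∀ f : L[X], (f.map (algebraMap L M)).map (algebraMap M Om) =
        f.map (algebraMap L Om) := by
      intro f
      rw [Polynomial.map_map, ← IsScalarTower.algebraMap_eq]
    rw [emap, emap] at hprop
    apply rat_of_root M Z hZ
    intro x t ht hZt'
    have hroot : aeval x W = 0 := by
      rw [hW, map_mul]
      apply mul_eq_zero_of_left
      unfold WP
      rw [map_prod]
      apply Finset.prod_eq_zero (Finset.mem_Icc.mpr ⟨hn, hnm⟩)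
      rw [map_mul, mul_eq_zero]
      have e1 := itP_map (algebraMap L Om) d p q n
      have e2 := itP_map (algebraMap L Om) d p q (2 * n)
      rcases hprop with h | h
      · left
        rw [hZt', FH_iter_smul, FH_iter_smul, wd_smul_left', wd_smul_right'] at h
        have h2 := (mul_eq_zero.mp ((mul_eq_zero.mp h).resolve_left
          (pow_ne_zero _ ht))).resolve_left (pow_ne_zero _ ht)
        rw [← itP_eval, ← itP_eval, e1, e2] at h2
        unfold wd at h2
        simp only at h2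
        rw [map_sub, map_mul, map_mul]
        simp only [← eval_map_algebraMap]
        exact h2
      · right
        have h1 := prod_smul d (by omega) (p.map (algebraMap L Om)) (q.map (algebraMap L Om)) n t
          ((x, 1) : Om × Om)
        rw [← hZt', h, mul_zero] at h1
        have h2 := (mul_eq_zero.mp h1.symm).resolve_left (pow_ne_zero _ ht)
        have hp : (p.map (algebraMap L Om)).natDegree ≤ d :=
          natDegree_map_le.trans (hmax ▸ le_max_left _ _)
        have hq : (q.map (algebraMap L Om)).natDegree ≤ d :=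
          natDegree_map_le.trans (hmax ▸ le_max_right _ _)
        rw [← itP_wr d (by omega) hd0 _ _ hp hq, e1, wr_map] at h2
        rw [← eval_map_algebraMap]
        exact h2
    apply IntermediateField.subset_adjoin
    rw [mem_rootSet]
    exact ⟨hW0, hroot⟩
  · set M := IntermediateField.adjoin L (W.rootSet Om) with hM
    intro Z hZ h
    have emap : ∀ f : L[X], (f.map (algebraMap L M)).map (algebraMap M Om) =
        f.map (algebraMap L Om) := by
      intro f
      rw [Polynomial.map_map, ← IsScalarTower.algebraMap_eq]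
    rw [emap, emap] at h
    apply rat_of_root M Z hZ
    intro x t ht hZt'
    have hroot : aeval x W = 0 := by
      rw [hW, map_mul]
      apply mul_eq_zero_of_right
      have e1 := itP_map (algebraMap L Om) d p q 3
      have e2 := itP_map (algebraMap L Om) d p q 2
      rw [hZt', FH_iter_smul, FH_iter_smul, wd_smul_left', wd_smul_right'] at h
      have h2 := (mul_eq_zero.mp ((mul_eq_zero.mp h).resolve_left
        (pow_ne_zero _ ht))).resolve_left (pow_ne_zero _ ht)
      rw [← itP_eval, ← itP_eval, e1, e2] at h2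
      unfold wd at h2
      simp only at h2
      unfold WQ
      rw [map_sub, map_mul, map_mul]
      simp only [← eval_map_algebraMap]
      exact h2
    apply IntermediateField.subset_adjoin
    rw [mem_rootSet]
    exact ⟨hW0, hroot⟩

/-- the normalised conjugate over the field of the marked points -/
lemma norm32 {M : Type u} [Field M] [Infinite M] {Om : Type u} [Field Om] [Algebra M Om]
    [IsAlgClosed Om] (d : ℕ) (hd : 2 ≤ d) (p q : M[X])
    (hmax : max p.natDegree q.natDegree = d) (hco : IsCoprime p q) (hrat : Rat32 Om d p q) :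
    ∃ u w : M[X], IsCoprime u w ∧ max u.natDegree w.natDegree = d ∧ CjF d p q u w ∧
      Nrm d 3 2 u w := by
  set φ := algebraMap M Om with hφ
  have hpo : max (p.map φ).natDegree (q.map φ).natDegree = d := max_map φ p q d hmax
  have hcoo : IsCoprime (p.map φ) (q.map φ) := (Polynomial.isCoprime_map φ).mpr hco
  obtain ⟨al, be, ga, g1, g2, g3, g4, g5, g6⟩ := marked3 d hd _ _ hpo hcoo
  obtain ⟨t1, ht1, Y1, hY1⟩ := hrat al (ne_of_wd g1).1 g4
  obtain ⟨t2, ht2, Y2, hY2⟩ := hrat be (ne_of_wd g1).2 g5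
  obtain ⟨t3, ht3, Y3, hY3⟩ := hrat ga (ne_of_wd g2).1 g6
  have hz : ∀ {x : M}, φ x = 0 → x = 0 := fun {x} h => (map_eq_zero φ).mp h
  have key : ∀ (Z : Om × Om) (t : Om) (Y : M × M), t ≠ 0 → Z = t • vh φ Y →
      wd ((FH d (p.map φ) (q.map φ))^[3] Z) ((FH d (p.map φ) (q.map φ))^[2] Z) = 0 →
      wd ((FH d p q)^[3] Y) ((FH d p q)^[2] Y) = 0 := by
    intro Z t Y ht hZ h
    rw [hZ, FH_iter_smul, FH_iter_smul, FH_iter_hom, FH_iter_hom, wd_smul_left', wd_smul_right',
      wd_hom] at h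
    exact hz ((mul_eq_zero.mp ((mul_eq_zero.mp h).resolve_left
      (pow_ne_zero _ ht))).resolve_left (pow_ne_zero _ ht))
  have k1 : wd Y1 Y2 ≠ 0 := by
    intro h
    apply g1
    rw [hY1, hY2, wd_smul_left', wd_smul_right', wd_hom, h, map_zero, mul_zero, mul_zero]
  have k2 : wd Y3 Y1 ≠ 0 := by
    intro h
    apply g2
    rw [hY3, hY1, wd_smul_left', wd_smul_right', wd_hom, h, map_zero, mul_zero, mul_zero]
  have k3 : wd Y3 Y2 ≠ 0 := by
    intro h
    apply g3
    rw [hY3, hY2, wd_smul_left', wd_smul_right', wd_hom, h, map_zero, mul_zero, mul_zero]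
  obtain ⟨u, w, a, b, c, e, s, hdet, hs, hconj, huw, humax, hone, ⟨s1, hs1, hP1⟩,
    ⟨s2, hs2, hP2⟩, ⟨s3, hs3, hP3⟩⟩ := exists_norm d (by omega) p q hmax hco Y1 Y2 Y3 k1 k2 k3
  refine ⟨u, w, huw, humax, ⟨a, b, c, e, s, hdet, hs, hconj⟩, hone, ?_, ?_, ?_⟩
  · exact (wd_conj d p q u w a b c e s hdet hs hconj 3 2 _ _ _ _ s1 s1 hs1 hs1 hP1 hP1).mpr
      (key al t1 Y1 ht1 hY1 g4)
  · exact (wd_conj d p q u w a b c e s hdet hs hconj 3 2 _ _ _ _ s2 s2 hs2 hs2 hP2 hP2).mpr
      (key be t2 Y2 ht2 hY2 g5)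
  · exact (wd_conj d p q u w a b c e s hdet hs hconj 3 2 _ _ _ _ s3 s3 hs3 hs3 hP3 hP3).mpr
      (key ga t3 Y3 ht3 hY3 g6)

section
variable {K : Type u} [Field K]

lemma latF_conj [Infinite K] (d : ℕ) (hd : 2 ≤ d) (hd0 : (d : K) ≠ 0) (p q u w : K[X])
    (hmax : max p.natDegree q.natDegree = d) (humax : max u.natDegree w.natDegree = d)
    (h : CjF d p q u w) (hl : LatF d u w) : LatF d p q := by
  have hp : p.natDegree ≤ d := hmax ▸ le_max_left _ _
  have hq : q.natDegree ≤ d := hmax ▸ le_max_right _ _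
  have hu : u.natDegree ≤ d := humax ▸ le_max_left _ _
  have hw : w.natDegree ≤ d := humax ▸ le_max_right _ _
  obtain ⟨a', A, B, hA, hB, hAd, hBd, hl⟩ := hl
  obtain ⟨a, b, c, e, s, hdet, hs, hconj⟩ := h
  have hne : ∀ (N : ℕ) (f : K[X]), f ≠ 0 → f.natDegree ≤ N →
      hc N f (C a * X + C b) (C c * X + C e) ≠ 0 := by
    intro N f hf hfN h0
    apply hf
    apply Polynomial.funext
    intro x
    rw [eval_zero]
    have h1 := hev_lin N f a b c e (Ph e (-b) (-c) a (x, 1))
    rw [h0, Ph_adj, hev_smul, hev_one N f hfN] at h1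
    have h2 : hev N (0 : K[X]) (Ph e (-b) (-c) a (x, 1)) = 0 := by
      unfold hev
      simp
    rw [h2] at h1
    exact (mul_eq_zero.mp h1.symm).resolve_left (pow_ne_zero _ hdet)
  have hdeg : ∀ (N : ℕ) (f : K[X]), (hc N f (C a * X + C b) (C c * X + C e)).natDegree ≤ N := by
    intro N f
    have := hc_degree N 1 f (C a * X + C b) (C c * X + C e) natDegree_linear_le
      natDegree_linear_le
    rwa [mul_one] at this
  refine ⟨a', hc a' A (C a * X + C b) (C c * X + C e),
    hc (a' + 4) B (C a * X + C b) (C c * X + C e), hne _ _ hA hAd, hne _ _ hB hBd, hdeg _ _,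
    hdeg _ _, ?_⟩
  intro Z
  rw [hev_lin, hev_lin, hev_lin, hev_lin]
  by_cases hZ : Z = 0
  · subst hZ
    have h0 : FH d p q (0 : K × K) = 0 := by
      have h1 := FH_smul d p q (0 : K) (0 : K × K)
      rw [zero_smul, zero_pow (by omega), zero_smul] at h1
      exact h1
    have h2 : Ph a b c e (0 : K × K) = 0 := by
      unfold Ph
      simp
    have h3 : hev (a' + 4) B (0 : K × K) = 0 := by
      have h4 := hev_smul (a' + 4) B (0 : K) (0 : K × K)
      rw [zero_smul, zero_pow (by omega), zero_mul] at h4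
      exact h4
    rw [h0, h2, h3, mul_zero, mul_zero]
  · have h1 := hl (Ph a b c e Z)
    rw [hconj, WH_conj d (by omega) hd0 p q u w hp hq hu hw a b c e s hdet hconj Z hZ, hev_smul,
      hev_smul] at h1
    apply mul_left_cancel₀ (pow_ne_zero (a' + 4) hs)
    have h2 : s ^ (a' + 4) = s ^ a' * (s ^ 2) ^ 2 := by ring
    calc s ^ (a' + 4) * (hev a' A (Ph a b c e (FH d p q Z)) * WH d p q Z ^ 2 *
          hev (a' + 4) B (Ph a b c e Z)) =
        s ^ a' * hev a' A (Ph a b c e (FH d p q Z)) * (s ^ 2 * WH d p q Z) ^ 2 *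
          hev (a' + 4) B (Ph a b c e Z) := by rw [h2]; ring
      _ = _ := h1
      _ = _ := by ring

end

end Pool.Agent.E8helper65.CM
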