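import Pool.Agent.E8helper65.CM.Glob1

/-!
# Multipliers and critical heights in large characteristic: the core theorem from the rigidity theorem
-/

set_option linter.unusedSectionVars false
set_option linter.unusedVariables false

namespace Pool.Agent.E8helper65.CM

open Polynomial Finset
open Pool.Agent.TH951.W.UB Pool.Agent.TH951.W.UG
open Pool.Agent.TH951.W.UB.PlaceData
open Pool.Agent.W277.UH Pool.Agent.Y706.CH Pool.Agent.Y195.CH Pool.Agent.Y676.CH
open Pool.Agent.E8helper88.Mul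

universe u v w

lemma nz_map {R S : Type*} [Field R] [Field S] (φ : R →+* S) {j : ℕ} (h : (j : R) ≠ 0) :
    (j : S) ≠ 0 := by
  rw [← map_natCast φ]
  exact (_root_.map_ne_zero _).mpr h

/-- The core theorem, with the bound of the coefficients as a hypothesis. -/
theorem coreG (d m B : ℕ) (hd : 2 ≤ d) (hB : 1 ≤ B) (k : Type v) (M Om : Type u) [Field k]
    [Infinite k] (hP0 : ∀ j : ℕ, 1 ≤ j → j ≤ 2 * d ^ m → (j : k) ≠ 0) [Field M] [Algebra k M]
    [Field Om] [IsAlgClosed Om] [Algebra M Om] (Q : PlaceData.{w} k M) (p q : M[X])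
    (hco : IsCoprime p q) (hmax : max p.natDegree q.natDegree = d) (hrat : RatPts Om d m p q)
    (n : ℕ) (hn : 1 ≤ n) (hnm : n ≤ m) (l : M) (hl : IsMul d p q n l) (A : ℤ) (hA : A = ht Q l)
    (hApos : 0 < A)
    (hbd : ∀ u w : M[X], IsCoprime u w → max u.natDegree w.natDegree = d →
      CjF d (p.map (algebraMap M Om)) (q.map (algebraMap M Om)) (u.map (algebraMap M Om))
        (w.map (algebraMap M Om)) → Nrm d (2 * n) n u w →
      ∀ i, ht Q (u.coeff i) ≤ B * A ∧ ht Q (w.coeff i) ≤ B * A) :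
    ∃ (u w : M[X]) (a b c e s : M), a * e - b * c ≠ 0 ∧ s ≠ 0 ∧
      (∀ Z, FH d u w (Ph a b c e Z) = s • Ph a b c e (FH d p q Z)) ∧
      IsCoprime u w ∧ max u.natDegree w.natDegree = d ∧ (wr u w).Splits ∧
      ∃ A : ℤ, 0 < A ∧ (∀ i, ht Q (u.coeff i) ≤ B * A ∧ ht Q (w.coeff i) ≤ B * A) ∧
      (∃ i, ht Q (u.coeff i) ≠ 0 ∨ ht Q (w.coeff i) ≠ 0) ∧
      ∃ n, 1 ≤ n ∧ n ≤ m ∧ ∃ x : ℕ → M, (wr (itP d u w n).1 (itP d u w n).2).eval (x 0) = 0 ∧
        (∀ j, (itP d u w n).2.eval (x j) ≠ 0 ∧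
          x (j + 1) * (itP d u w n).2.eval (x j) = (itP d u w n).1.eval (x j)) ∧
        ∀ j : ℕ, (j + 1) * A ≤ (2 * d ^ n : ℕ) * ht Q (x (j + 1)) := by
  classical
  have hinf : Infinite M := Infinite.of_injective _ (algebraMap k M).injective
  have hinfO : Infinite Om := IsAlgClosed.instInfinite
  have hdk : (d : k) ≠ 0 := by
    refine hP0 d (by omega) ?_
    have := Nat.le_self_pow (show m ≠ 0 by omega) d
    omega
  have hdM : (d : M) ≠ 0 := nz_map (algebraMap k M) hdk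
  have hdO : (d : Om) ≠ 0 := nz_map (algebraMap M Om) hdM
  have hl0 : l ≠ 0 := by
    rintro rfl
    rw [hA, ht_zero] at hApos
    exact lt_irrefl _ hApos
  have hl1 : l ≠ 1 := by
    rintro rfl
    rw [hA, ht_one] at hApos
    exact lt_irrefl _ hApos
  obtain ⟨al, be, ga, hal, hmul, g1, g2, g3, g4, g5⟩ :=
    triple d m hd hdO p q hmax hco hrat n hn hnm l hl hl0 hl1
  obtain ⟨u, w, a, b, c, e, s, hdet, hs, hconj, huw, humax, hone, ⟨t1, ht1, hP1⟩, ⟨t2, ht2, hP2⟩,
    ⟨t3, ht3, hP3⟩⟩ := exists_norm d (by omega) p q hmax hco al be ga g1 g2 g3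
  have hp : p.natDegree ≤ d := hmax ▸ le_max_left _ _
  have hq : q.natDegree ≤ d := hmax ▸ le_max_right _ _
  have hu : u.natDegree ≤ d := humax ▸ le_max_left _ _
  have hw : w.natDegree ≤ d := humax ▸ le_max_right _ _
  have hbe : be ≠ 0 := by
    rintro rfl
    apply g1
    unfold wd
    simp
  have halfix : wd ((FH d p q)^[n] al) al = 0 := by
    obtain ⟨μ, -, g1, -⟩ := hmul
    rw [g1, wd_smul_left', wd_self', mul_zero]
  -- relations for the normalised map
  have r1 : wd ((FH d u w)^[2 * n] (0, 1)) ((FH d u w)^[n] (0, 1)) = 0 :=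
    (wd_conj d p q u w a b c e s hdet hs hconj (2 * n) n al al _ _ t1 t1 ht1 ht1 hP1 hP1).mpr
      (fix_two d p q n al al hal halfix halfix)
  have r2 : wd ((FH d u w)^[2 * n] (1, 0)) ((FH d u w)^[n] (1, 0)) = 0 :=
    (wd_conj d p q u w a b c e s hdet hs hconj (2 * n) n be be _ _ t2 t2 ht2 ht2 hP2 hP2).mpr
      (fix_two d p q n be be hbe g4 g4)
  have r3 : wd ((FH d u w)^[2 * n] (1, 1)) ((FH d u w)^[n] (1, 1)) = 0 :=
    (wd_conj d p q u w a b c e s hdet hs hconj (2 * n) n ga ga _ _ t3 t3 ht3 ht3 hP3 hP3).mpr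
      (fix_two d p q n ga al hal g5 halfix)
  have r4 : wd ((FH d u w)^[n] (0, 1)) (0, 1) = 0 := by
    have := (wd_conj d p q u w a b c e s hdet hs hconj n 0 al al _ _ t1 t1 ht1 ht1 hP1 hP1).mpr
      (by simpa using halfix)
    simpa using this
  have r5 : wd ((FH d u w)^[n] (1, 0)) (1, 0) = 0 := by
    have := (wd_conj d p q u w a b c e s hdet hs hconj n 0 be be _ _ t2 t2 ht2 ht2 hP2 hP2).mpr
      (by simpa using g4)
    simpa using this
  have r6 : wd ((FH d u w)^[n] (1, 1)) (0, 1) = 0 := by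
    have := (wd_conj d p q u w a b c e s hdet hs hconj n 0 ga al _ _ t3 t1 ht3 ht1 hP3 hP1).mpr
      (by simpa using g5)
    simpa using this
  have r4' : ((FH d u w)^[n] (0, 1)).1 = 0 := by
    unfold wd at r4
    simpa using r4
  have r5' : ((FH d u w)^[n] (1, 0)).2 = 0 := by
    unfold wd at r5
    simpa using r5
  have r6' : ((FH d u w)^[n] (1, 1)).1 = 0 := by
    unfold wd at r6
    simpa using r6
  have hmulat : IsMulAt d u w n l (0, 1) := by
    have h1 := IsMulAt_conj d (by omega) hdM p q u w hp hq hu hw hmax hco a b c e s hdet hs hconj n l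
      al hal hmul
    rw [hP1] at h1
    have h2 := IsMulAt_smul d (by omega) u w n l _ t1⁻¹ (inv_ne_zero ht1) h1
    rwa [smul_smul, inv_mul_cancel₀ ht1, one_smul] at h2
  obtain ⟨m1, m2, m3⟩ := mul_at_zero d (by omega) hdM u w humax huw n l hmulat
  obtain ⟨-, k2, k3, k4, -, -⟩ := norm_iter d (by omega) hdM u w humax huw n r4' r5' r6'
  -- the bound of the coefficients
  set φ := algebraMap M Om with hφ
  have hpo : max (p.map φ).natDegree (q.map φ).natDegree = d := max_map φ p q d hmax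
  have hcoo : IsCoprime (p.map φ) (q.map φ) := (Polynomial.isCoprime_map φ).mpr hco
  have huo : max (u.map φ).natDegree (w.map φ).natDegree = d := max_map φ u w d humax
  have huwo : IsCoprime (u.map φ) (w.map φ) := (Polynomial.isCoprime_map φ).mpr huw
  have hdetφ : φ a * φ e - φ b * φ c ≠ 0 := by
    rw [← map_mul, ← map_mul, ← map_sub]
    exact (map_ne_zero φ).mpr hdet
  have hCj : CjF d (p.map φ) (q.map φ) (u.map φ) (w.map φ) :=
    ⟨φ a, φ b, φ c, φ e, φ s, hdetφ, (map_ne_zero φ).mpr hs,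
      fun Z => CjF_hom φ d p q u w hp hq hu hw a b c e s hconj Z⟩
  obtain ⟨n', rfl⟩ : ∃ n', n = n' + 1 := ⟨n - 1, by omega⟩
  have hN : Nrm d (2 * (n' + 1)) (n' + 1) u w := ⟨hone, r1, r2, r3⟩
  have hcoef := hbd u w huw humax hCj hN
  -- the critical point
  have hsp : (derivative (itP d u w (n' + 1)).1 * (itP d u w (n' + 1)).2 -
      (itP d u w (n' + 1)).1 * derivative (itP d u w (n' + 1)).2).Splits :=
    wr_splits (Om := Om) d m (by omega) hdO p q u w hmax hco humax hrat a b c e s hdet hs hconj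
      (n' + 1) hn hnm
  have hsp1 : (wr u w).Splits := by
    have := wr_splits (Om := Om) d m (by omega) hdO p q u w hmax hco humax hrat a b c e s hdet hs
      hconj 1 le_rfl (hn.trans hnm)
    rwa [itP_one d u w hu hw] at this
  have hcoit := itP_coprime d (by omega) u w humax huw (n' + 1)
  obtain ⟨cr, hcr, x, hx0, hx, hxx⟩ := global_crit (Q := Q) (itP d u w (n' + 1)).1
    (itP d u w (n' + 1)).2 (by
      intro j h1 h2
      refine hP0 j h1 (h2.trans ?_)
      rw [k3]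
      exact Nat.mul_le_mul_left 2 (Nat.pow_le_pow_right (by omega) hnm)) hcoit (by rw [k3]; exact k4) m1 k2 l m3 (by rw [← hA]; exact hApos) hsp
  refine ⟨u, w, a, b, c, e, s, hdet, hs, hconj, huw, humax, hsp1, A, hApos, hcoef, ?_,
    n' + 1, hn, hnm, x, by rw [hx0]; exact hcr, hx, ?_⟩
  · -- some coefficient is not constant
    by_contra hcon
    push Not at hcon
    -- the subfield of elements of height zero
    let F : Subfield M :=
      { carrier := {x | ht Q x = 0}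
        mul_mem' := by
          intro x y hx hy
          simp only [Set.mem_ofPred_eq] at hx hy ⊢
          have := ht_mul (Q := Q) x y
          have h0 := ht_nonneg (Q := Q) (x * y)
          omega
        one_mem' := ht_one
        add_mem' := by
          intro x y hx hy
          simp only [Set.mem_ofPred_eq] at hx hy ⊢
          have := ht_add (Q := Q) x y
          have h0 := ht_nonneg (Q := Q) (x + y)
          omega
        zero_mem' := ht_zero
        neg_mem' := by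
          intro x hx
          simp only [Set.mem_ofPred_eq] at hx ⊢
          have h1 := (isHt (Q := Q)).neg x
          have h2 : ht Q (-x) ≤ ht Q x := by exact_mod_cast h1
          have h0 := ht_nonneg (Q := Q) (-x)
          omega
        inv_mem' := by
          intro x hx
          simp only [Set.mem_ofPred_eq] at hx ⊢
          rw [ht_inv]
          exact hx }
    have hFmem : ∀ y, y ∈ F ↔ ht Q y = 0 := fun y => Iff.rfl
    have hlift : ∀ f : M[X], (∀ i, ht Q (f.coeff i) = 0) → ∃ f' : F[X], f'.map F.subtype = f := by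
      intro f hf
      have h1 : f ∈ Polynomial.lifts F.subtype := by
        rw [Polynomial.lifts_iff_coeff_lifts]
        intro i
        exact ⟨⟨f.coeff i, (hFmem _).mpr (hf i)⟩, rfl⟩
      obtain ⟨f', hf'⟩ := h1
      exact ⟨f', hf'⟩
    obtain ⟨u', hu'⟩ := hlift u fun i => (hcon i).1
    obtain ⟨w', hw'⟩ := hlift w fun i => (hcon i).2
    have hmapit := itP_map F.subtype d u' w' (n' + 1)
    rw [hu', hw'] at hmapit
    have e0 : (0 : M) = F.subtype 0 := (map_zero _).symm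
    have hev : ∀ f : F[X], (f.map F.subtype).eval 0 = F.subtype (f.eval 0) := by
      intro f
      rw [e0, eval_map, eval₂_at_apply]
    rw [hmapit] at m2 m3
    simp only [derivative_map, hev] at m2 m3
    have h5 : l = F.subtype ((derivative (itP d u' w' (n' + 1)).1).eval 0 /
        (itP d u' w' (n' + 1)).2.eval 0) := by
      rw [map_div₀, eq_div_iff m2]
      exact m3
    have h6 : ht Q l = 0 := by
      rw [← hFmem, h5]
      exact ((derivative (itP d u' w' (n' + 1)).1).eval 0 /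
        (itP d u' w' (n' + 1)).2.eval 0 : F).2
    omega
  · intro j
    have h1 := (hxx j).2
    rw [k3, ← hA] at h1
    push_cast at h1 ⊢
    exact h1

/-- **The core theorem from the rigidity theorem, in large characteristic.** -/
theorem coreP (hM : S_MCM.{u}) (d : ℕ) (hd : 2 ≤ d) : ∃ m B P0 : ℕ, 1 ≤ m ∧ 1 ≤ B ∧
    ∀ (k : Type v) (M Om : Type u) [Field k] [Infinite k] [Field M] [Algebra k M] [Field Om]
    [IsAlgClosed Om] [Algebra M Om] (hP0 : ∀ j : ℕ, 1 ≤ j → j ≤ P0 → (j : k) ≠ 0) (Q : PlaceData.{w} k M) (p q : M[X]),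
    IsCoprime p q → max p.natDegree q.natDegree = d →
    ¬ LatF d (p.map (algebraMap M Om)) (q.map (algebraMap M Om)) →
    RatPts Om d m p q → Rat32 Om d p q →
    (∀ u w : M[X], IsCoprime u w → max u.natDegree w.natDegree = d → CjF d p q u w →
      ∃ i, ht Q (u.coeff i) ≠ 0 ∨ ht Q (w.coeff i) ≠ 0) →
    ∃ (u w : M[X]) (a b c e s : M), a * e - b * c ≠ 0 ∧ s ≠ 0 ∧
      (∀ Z, FH d u w (Ph a b c e Z) = s • Ph a b c e (FH d p q Z)) ∧
      IsCoprime u w ∧ max u.natDegree w.natDegree = d ∧ (wr u w).Splits ∧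
      ∃ A : ℤ, 0 < A ∧ (∀ i, ht Q (u.coeff i) ≤ B * A ∧ ht Q (w.coeff i) ≤ B * A) ∧
      (∃ i, ht Q (u.coeff i) ≠ 0 ∨ ht Q (w.coeff i) ≠ 0) ∧
      ∃ n, 1 ≤ n ∧ n ≤ m ∧ ∃ x : ℕ → M, (wr (itP d u w n).1 (itP d u w n).2).eval (x 0) = 0 ∧
        (∀ j, (itP d u w n).2.eval (x j) ≠ 0 ∧
          x (j + 1) * (itP d u w n).2.eval (x j) = (itP d u w n).1.eval (x j)) ∧
        ∀ j : ℕ, (j + 1) * A ≤ (2 * d ^ n : ℕ) * ht Q (x (j + 1)) := by
  classical
  obtain ⟨B₀, hB₀⟩ := ultraM.{u} hM d hd 3 2 (by omega)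
  choose Bf hBf using fun n : ℕ => (ultraC.{u} d hd (2 * (n + 1)) (n + 1) (by omega))
  set m := B₀ + 1 with hm
  set B := (∑ n ∈ range (m + 1), Bf n) * B₀ + 1 with hB
  refine ⟨m, B, 2 * d ^ m + B₀ + ∑ n ∈ range (m + 1), Bf n, by omega, by omega, ?_⟩
  intro k M Om _ _ _ _ _ _ _ hP0 Q p q hco hmax hlat hrat hrat32 hiso
  have hinf : Infinite M := Infinite.of_injective _ (algebraMap k M).injective
  have hinfO : Infinite Om := IsAlgClosed.instInfinite
  have hzO : ∀ j : ℕ, 1 ≤ j → j ≤ 2 * d ^ m + B₀ + ∑ n ∈ range (m + 1), Bf n → (j : Om) ≠ 0 :=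
    fun j h1 h2 => nz_map (algebraMap M Om) (nz_map (algebraMap k M) (hP0 j h1 h2))
  have hdO : (d : Om) ≠ 0 := by
    refine hzO d (by omega) ?_
    have := Nat.le_self_pow (show m ≠ 0 by omega) d
    omega
  set φ := algebraMap M Om with hφ
  have hpo : max (p.map φ).natDegree (q.map φ).natDegree = d := max_map φ p q d hmax
  have hcoo : IsCoprime (p.map φ) (q.map φ) := (Polynomial.isCoprime_map φ).mpr hco
  obtain ⟨u₀, w₀, huw₀, humax₀, hcj₀, hN₀⟩ := norm32 (Om := Om) d hd p q hmax hco hrat32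
  have huo₀ : max (u₀.map φ).natDegree (w₀.map φ).natDegree = d := max_map φ u₀ w₀ d humax₀
  have huwo₀ : IsCoprime (u₀.map φ) (w₀.map φ) := (Polynomial.isCoprime_map φ).mpr huw₀
  have hcjo₀ := CjF_map φ d p q u₀ w₀ hmax humax₀ hcj₀
  have hlat₀ : ¬ LatF d (u₀.map φ) (w₀.map φ) := fun h =>
    hlat (latF_conj d hd hdO _ _ _ _ hpo huo₀ hcjo₀ h)
  have hdeg : ∀ {P Q : Om[X]}, max P.natDegree Q.natDegree = d →
      P.natDegree ≤ d ∧ Q.natDegree ≤ d := fun {P Q} h => ⟨h ▸ le_max_left _ _, h ▸ le_max_right _ _⟩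
  -- multipliers
  have hmulgen : ∀ (A : ℝ), (∀ n, 1 ≤ n → n ≤ m → ∀ l : M, IsMul d p q n l → (ht Q l : ℝ) ≤ A) →
      ∀ n, 1 ≤ n → n ≤ B₀ → ∀ lam : Om, IsMul d (u₀.map φ) (w₀.map φ) n lam →
      ∃ l : M, φ l = lam ∧ (ht Q l : ℝ) ≤ A := by
    intro A hA n h1 h2 lam hlam
    have h3 := IsMul_conj d (by omega) hdO _ _ _ _ (hdeg huo₀).1 (hdeg huo₀).2 (hdeg hpo).1
      (hdeg hpo).2 huo₀ huwo₀ (CjF_symm _ _ _ _ _ hcjo₀) n lam hlam
    obtain ⟨l', hl', hl''⟩ := mul_rat d m hd p q hmax hco hrat n h1 (by omega) lam h3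
    exact ⟨l', hl', hA n h1 (by omega) l' hl''⟩
  have hnc : ∃ n, 1 ≤ n ∧ n ≤ m ∧ ∃ l : M, IsMul d p q n l ∧ 0 < ht Q l := by
    by_contra hcon
    push Not at hcon
    have h1 := hB₀ M Om (fun n h1 h2 => hzO n h1 (by omega)) (fun x => (ht Q x : ℝ)) isHt u₀ w₀ huw₀ humax₀ (Nrm_hom φ d 3 2 _ _ hN₀)
      hlat₀ 0 le_rfl (hmulgen 0 fun n h1 h2 l hl => by exact_mod_cast hcon n h1 h2 l hl)
    obtain ⟨i, hi⟩ := hiso u₀ w₀ huw₀ humax₀ hcj₀
    have h2 := h1 i
    simp only [mul_zero] at h2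
    have h3 : ht Q (u₀.coeff i) ≤ 0 := by exact_mod_cast h2.1
    have h4 : ht Q (w₀.coeff i) ≤ 0 := by exact_mod_cast h2.2
    have h5 := ht_nonneg (Q := Q) (u₀.coeff i)
    have h6 := ht_nonneg (Q := Q) (w₀.coeff i)
    rcases hi with hi | hi
    · omega
    · omega
  -- the multiplier of largest height
  set S : Set (ℕ × M) := ⋃ n ∈ (Finset.Icc 1 m : Set ℕ), (fun l => (n, l)) '' {l | IsMul d p q n l}
    with hS
  have hSfin : S.Finite := by
    apply Set.Finite.biUnion (Finset.finite_toSet _)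
    intro n hn
    rw [Finset.coe_Icc, Set.mem_Icc] at hn
    exact (finite_mul d hd p q hmax hco n hn.1).image _
  have hSmem : ∀ n l, (n, l) ∈ S ↔ (1 ≤ n ∧ n ≤ m) ∧ IsMul d p q n l := by
    intro n l
    rw [hS, Set.mem_iUnion₂]
    constructor
    · rintro ⟨n', hn', l', hl', h⟩
      rw [Finset.coe_Icc, Set.mem_Icc] at hn'
      have e1 : n' = n := congrArg Prod.fst h
      have e2 : l' = l := congrArg Prod.snd h
      subst e1 e2
      exact ⟨hn', hl'⟩
    · rintro ⟨hn, hl⟩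
      exact ⟨n, by rw [Finset.coe_Icc, Set.mem_Icc]; exact hn, l, hl, rfl⟩
  obtain ⟨n₁, hn₁, hn₁m, l₁, hl₁, hpos₁⟩ := hnc
  obtain ⟨⟨n, l⟩, hnl, hmaxl⟩ := Set.exists_max_image S (fun x => ht Q x.2) hSfin
    ⟨(n₁, l₁), (hSmem _ _).mpr ⟨⟨hn₁, hn₁m⟩, hl₁⟩⟩
  obtain ⟨⟨hn, hnm⟩, hl⟩ := (hSmem _ _).mp hnl
  simp only at hmaxl
  set A := ht Q l with hA
  have hApos : 0 < A := lt_of_lt_of_le hpos₁ (hmaxl _ ((hSmem _ _).mpr ⟨⟨hn₁, hn₁m⟩, hl₁⟩))
  have hb₀ := hB₀ M Om (fun n h1 h2 => hzO n h1 (by omega)) (fun x => (ht Q x : ℝ)) isHt u₀ w₀ huw₀ humax₀ (Nrm_hom φ d 3 2 _ _ hN₀)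
    hlat₀ (A : ℝ) (by exact_mod_cast hApos.le) (hmulgen A fun n' h1 h2 l' hl' => by
      exact_mod_cast hmaxl (n', l') ((hSmem _ _).mpr ⟨⟨h1, h2⟩, hl'⟩))
  refine coreG d m B hd (by omega) k M Om (fun j h1 h2 => hP0 j h1 (by omega)) Q p q hco hmax hrat n hn hnm l hl A hA hApos ?_
  intro u w huw humax hcj hN i
  obtain ⟨n', rfl⟩ : ∃ n', n = n' + 1 := ⟨n - 1, by omega⟩
  have hBA : (0 : ℝ) ≤ B₀ * (A : ℝ) := mul_nonneg (Nat.cast_nonneg _) (by exact_mod_cast hApos.le)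
  have hBle : Bf n' ≤ ∑ n ∈ range (m + 1), Bf n :=
    Finset.single_le_sum (f := fun n => Bf n) (fun _ _ => Nat.zero_le _)
      (Finset.mem_range.mpr (by omega))
  have h1 := hBf n' M Om (fun n h1 h2 => hzO n h1 (by omega)) (fun x => (ht Q x : ℝ)) isHt u₀ w₀ u w huw₀ humax₀ huw humax
    (Nrm_hom φ d _ _ u w hN) (CjF_trans _ _ _ _ _ _ _ (CjF_symm _ _ _ _ _ hcjo₀) hcj)
    (B₀ * A) hBA (fun i => hb₀ i) i
  have hle : Bf n' * B₀ ≤ B := (Nat.mul_le_mul_right _ hBle).trans (Nat.le_succ _)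
  have h2 : ht Q (u.coeff i) ≤ Bf n' * (B₀ * A) := by exact_mod_cast h1.1
  have h3 : ht Q (w.coeff i) ≤ Bf n' * (B₀ * A) := by exact_mod_cast h1.2
  have h4 : (Bf n' : ℤ) * (B₀ * A) ≤ B * A := by
    rw [← mul_assoc]
    exact mul_le_mul_of_nonneg_right (by exact_mod_cast hle) hApos.le
  exact ⟨h2.trans h4, h3.trans h4⟩

end Pool.Agent.E8helper65.CM
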