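import Pool.Agent.E8helper65.CM.Mobh
import Pool.Agent.Y706.CH.FinM

/-!
# Multipliers and critical heights in large characteristic: the heights of the marked points
-/

set_option linter.unusedSectionVars false
set_option linter.unusedVariables false

namespace Pool.Agent.E8helper65.CM

open Polynomial Finset
open Pool.Agent.TH951.W.UB
open Pool.Agent.TH951.W.UB.PlaceData
open Pool.Agent.W277.UH Pool.Agent.Y706.CH Pool.Agent.Y195.CH Pool.Agent.Y676.CH
open Pool.Agent.E8helper88.Mul

universe u v w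

/-- eventually periodic orbits are finite -/
lemma orbit_fin {A : Type*} (g : A → A) (z : A) (n₁ n₂ : ℕ) (hn : n₂ < n₁)
    (h : g^[n₁] z = g^[n₂] z) : (Set.range fun m : ℕ => g^[m] z).Finite := by
  have key : ∀ m : ℕ, ∃ m' < n₁, g^[m] z = g^[m'] z := by
    intro m
    induction m using Nat.strong_induction_on with
    | _ m ih =>
      by_cases hm : m < n₁
      · exact ⟨m, hm, rfl⟩
      · obtain ⟨l, rfl⟩ : ∃ l, m = l + n₁ := ⟨m - n₁, by omega⟩
        have e1 : g^[l + n₁] z = g^[l + n₂] z := by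
          rw [Function.iterate_add_apply, h, ← Function.iterate_add_apply]
        obtain ⟨m', hm', e2⟩ := ih (l + n₂) (by omega)
        exact ⟨m', hm', e1.trans e2⟩
  refine ((Finset.range n₁).finite_toSet.image fun m' => g^[m'] z).subset ?_
  rintro _ ⟨m, rfl⟩
  obtain ⟨m', hm', e⟩ := key m
  exact ⟨m', by simpa using hm', e.symm⟩

theorem crt (K : Type u) [Field K] (d : ℕ) (hd : 2 ≤ d) (p q : K[X])
    (hmax : max p.natDegree q.natDegree = d) (hco : IsCoprime p q)
    (hW0 : derivative p * q - p * derivative q ≠ 0)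
    (hsp : (derivative p * q - p * derivative q).Splits) :
    ∃ Cr : Fin (2 * d - 2) → K × K, Crit d p q Cr ∧
    (∀ r, (derivative p * q - p * derivative q).eval r = 0 → ∃ i, pt (Cr i) = some r) ∧
    ((derivative p * q - p * derivative q).coeff (2 * d - 2) = 0 → ∃ i, pt (Cr i) = none) := by
  have hp : p.natDegree ≤ d := by rw [← hmax]; exact le_max_left _ _
  have hq : q.natDegree ≤ d := by rw [← hmax]; exact le_max_right _ _
  have hWd := Y195.CH.wr_deg d (by omega) p q hp hq
  set W := derivative p * q - p * derivative q with hW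
  set l := W.roots.toList with hl
  have hlen : l.length = W.natDegree := by
    rw [hl, Multiset.length_toList]
    exact hsp.natDegree_eq_card_roots.symm
  set lc := W.leadingCoeff with hlc
  have hlc0 : lc ≠ 0 := leadingCoeff_ne_zero.mpr hW0
  let s : ℕ → K := fun i => if i = 0 then lc else 1
  let Z : ℕ → K × K := fun i => if i < l.length then (l.getD i 0, 1) else (-1, 0)
  have hs : ∀ i, s i ≠ 0 := by
    intro i
    simp only [s]
    split_ifs
    · exact hlc0
    · exact one_ne_zero
  have hZ1 : ∀ i, i < l.length → Z i = (l.getD i 0, 1) := by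
    intro i hi
    simp only [Z]
    rw [if_pos hi]
  have hZ2 : ∀ i, ¬ i < l.length → Z i = (-1, 0) := by
    intro i hi
    simp only [Z]
    rw [if_neg hi]
  have hn : l.length ≤ 2 * d - 2 := by rw [hlen]; exact hWd
  refine ⟨fun i => s i • Z i, ⟨?_, ?_⟩, ?_, ?_⟩
  · intro i hi
    have h1 := (smul_eq_zero.mp hi).resolve_left (hs _)
    by_cases h : (i : ℕ) < l.length
    · rw [hZ1 _ h] at h1
      have := congrArg Prod.snd h1
      simp at this
    · rw [hZ2 _ h] at h1
      have := congrArg Prod.fst h1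
      simp at this
  · intro x
    have e1 : ∏ i : Fin (2 * d - 2), wd ((x, 1) : K × K) (s i • Z i) =
        ∏ i ∈ Finset.range (2 * d - 2), (s i * wd ((x, 1) : K × K) (Z i)) := by
      rw [Finset.prod_range]
      apply Finset.prod_congr rfl
      intro i _
      rw [wd_smul_right]
    rw [e1, Finset.prod_mul_distrib]
    have e2 : ∏ i ∈ Finset.range (2 * d - 2), s i = lc := by
      rw [Finset.prod_eq_single 0]
      · simp [s]
      · intro i _ hi
        simp [s, hi]
      · intro h
        exact absurd (Finset.mem_range.mpr (by omega)) h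
    have e3 : ∏ i ∈ Finset.range (2 * d - 2), wd ((x, 1) : K × K) (Z i) =
        ∏ i ∈ Finset.range l.length, (x - l.getD i 0) := by
      have e31 : ∏ i ∈ Finset.range l.length, wd ((x, 1) : K × K) (Z i) =
          ∏ i ∈ Finset.range (2 * d - 2), wd ((x, 1) : K × K) (Z i) := by
        apply Finset.prod_subset
        · intro i hi
          rw [Finset.mem_range] at hi ⊢
          omega
        · intro i _ hi
          rw [Finset.mem_range] at hi
          rw [hZ2 i hi]
          unfold wd
          simp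
      rw [← e31]
      apply Finset.prod_congr rfl
      intro i hi
      rw [Finset.mem_range] at hi
      rw [hZ1 i hi]
      unfold wd
      simp
    have e4 : ∏ i ∈ Finset.range l.length, (x - l.getD i 0) = (l.map fun a => x - a).prod := by
      rw [← Fin.prod_univ_fun_getElem l (fun a => x - a), Finset.prod_range]
      apply Finset.prod_congr rfl
      intro i _
      rw [List.getD_eq_getElem _ _ i.2]
    rw [e2, e3, e4]
    have e5 := hsp.eq_prod_roots
    rw [← hW]
    have e7 : W.eval x = (C W.leadingCoeff *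
        (Multiset.map (fun x => X - C x) W.roots).prod).eval x := congrArg (eval x) e5
    rw [e7, eval_mul, eval_C, eval_multiset_prod, Multiset.map_map]
    congr 1
    have e6 : W.roots = (l : Multiset K) := by rw [hl, Multiset.coe_toList]
    rw [e6, Multiset.map_coe, Multiset.prod_coe]
    congr 1
    apply List.map_congr_left
    intro a _
    simp
  · intro r hr
    have h1 : r ∈ l := by
      rw [hl, Multiset.mem_toList, mem_roots hW0]
      exact hr
    obtain ⟨n, hn1, hn2⟩ := List.mem_iff_getElem.mp h1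
    refine ⟨⟨n, by omega⟩, ?_⟩
    simp only
    rw [hZ1 n hn1, List.getD_eq_getElem _ _ hn1, hn2]
    rw [pt_some]
    · simp only [Prod.smul_fst, Prod.smul_snd, smul_eq_mul, mul_one]
      rw [mul_div_cancel_left₀ _ (hs n)]
    · simp only [Prod.smul_snd, smul_eq_mul, mul_one]
      exact hs n
  · intro h0
    have h1 : W.natDegree ≠ 2 * d - 2 := by
      intro h2
      rw [← h2] at h0
      exact hlc0 h0
    have h2 : l.length < 2 * d - 2 := by
      rw [hlen]
      omega
    refine ⟨⟨l.length, h2⟩, ?_⟩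
    simp only
    rw [hZ2 _ (lt_irrefl _)]
    apply pt_none
    simp

section
variable {K : Type u} [Field K]

/-- the orbit of a point under an iterate -/
lemma orbit_pt (d : ℕ) (hd : 1 ≤ d) (u w : K[X])
    (hmax : max u.natDegree w.natDegree = d) (hco : IsCoprime u w) (n : ℕ) (x : ℕ → K)
    (hx : ∀ j, (itP d u w n).2.eval (x j) ≠ 0 ∧
      x (j + 1) * (itP d u w n).2.eval (x j) = (itP d u w n).1.eval (x j)) (j : ℕ) :
    (ratP1 u w d)^[n * j] (some (x 0)) = some (x j) := by
  induction j with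
  | zero => rfl
  | succ j ih =>
    rw [Nat.mul_succ, add_comm, Function.iterate_add_apply, ih]
    have h1 := (iter_pt t_PT d hd u w hmax hco (x j, 1)
      (fun h => one_ne_zero (congrArg Prod.snd h)) n).2
    have h2 : pt ((x j, 1) : K × K) = some (x j) := pt_vec (some (x j))
    rw [h2] at h1
    rw [h1]
    have h3 : (bK d u w)^[n] (x j, 1) = (itP d u w n).2.eval (x j) • ((x (j + 1), 1) : K × K) := by
      have h4 := itP_eval d u w n (x j)
      rw [FH_eq] at h4
      rw [← h4]
      refine Prod.ext ?_ ?_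
      · show (itP d u w n).1.eval (x j) = (itP d u w n).2.eval (x j) * x (j + 1)
        rw [← (hx j).2, mul_comm]
      · show (itP d u w n).2.eval (x j) = (itP d u w n).2.eval (x j) * 1
        rw [mul_one]
    rw [h3, pt_smul _ (hx j).1]
    exact pt_vec (some (x (j + 1)))

lemma orbit_fin_vec (d : ℕ) (hd : 1 ≤ d) (p q : K[X]) (hmax : max p.natDegree q.natDegree = d)
    (hco : IsCoprime p q) (Z : K × K) (hZ : Z ≠ 0) (n₁ n₂ : ℕ) (hn : n₂ < n₁)
    (h : wd ((FH d p q)^[n₁] Z) ((FH d p q)^[n₂] Z) = 0) :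
    (Set.range fun m : ℕ => (ratP1 p q d)^[m] (pt Z)).Finite := by
  have hit := fun m => iter_pt t_PT d hd p q hmax hco Z hZ m
  obtain ⟨s, hs⟩ := exists_smul_of_wd _ _ (FH_iter_nz d hd p q hmax hco n₂ Z hZ) h
  have hs0 : s ≠ 0 := by
    rintro rfl
    rw [zero_smul] at hs
    exact FH_iter_nz d hd p q hmax hco n₁ Z hZ hs
  apply orbit_fin _ _ n₁ n₂ hn
  rw [(hit n₁).2, (hit n₂).2]
  have e1 : (bK d p q)^[n₁] Z = s • (bK d p q)^[n₂] Z := hs
  rw [e1, pt_smul s hs0]

lemma crit_vec (d : ℕ) (hd : 1 ≤ d) (hd0 : (d : K) ≠ 0) (u w : K[X])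
    (hu : u.natDegree ≤ d) (hw : w.natDegree ≤ d) (n : ℕ) (x : K)
    (h : (wr (itP d u w n).1 (itP d u w n).2).eval x = 0) :
    ∃ i, i < n ∧ WH d u w ((FH d u w)^[i] (x, 1)) = 0 := by
  rw [itP_wr d hd hd0 u w hu hw, Finset.prod_eq_zero_iff] at h
  obtain ⟨i, hi, h⟩ := h
  exact ⟨i, Finset.mem_range.mp hi, h⟩

/-- critical vectors -/
lemma crit_vec2 (d : ℕ) (hd : 1 ≤ d) (u w : K[X]) (hu : u.natDegree ≤ d) (hw : w.natDegree ≤ d)
    (Z : K × K) (hZ : Z ≠ 0) (h : WH d u w Z = 0) :
    (∃ x, pt Z = some x ∧ (wr u w).eval x = 0) ∨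
      (pt Z = none ∧ (wr u w).coeff (2 * d - 2) = 0) := by
  obtain ⟨t, ht, hZt⟩ := exists_smul Z hZ
  rw [hZt, WH_smul] at h
  have h1 := (mul_eq_zero.mp h).resolve_left (pow_ne_zero _ ht)
  cases hz : pt Z with
  | none =>
    right
    rw [hz] at h1
    have h2 : WH d u w (1, 0) = (wr u w).coeff (2 * d - 2) * 1 ^ (2 * d - 2) := hev_zero _ _ _
    have h3 : WH d u w (1, 0) = 0 := h1
    rw [h2, one_pow, mul_one] at h3
    exact ⟨rfl, h3⟩
  | some x =>
    left
    rw [hz] at h1
    refine ⟨x, rfl, ?_⟩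
    have h2 : WH d u w (x, 1) = (wr u w).eval x :=
      hev_one _ _ (E8helper88.Mul.wr_deg d hd u w hu hw) _
    rw [← h2]
    exact h1

end

section
variable {k : Type v} {K : Type u} [Field k] [Field K] [Algebra k K] {Q : PlaceData.{w} k K}

lemma HB_wr {d : ℕ} {E : ℤ} {p q : K[X]} (hp : HB Q d E p) (hq : HB Q d E q) :
    HB Q (2 * d) (4 * (2 * d + 1) * E) (wr p q) := by
  unfold wr
  refine ((hp.deriv.mul hq).sub (hp.mul hq.deriv)).mono (by simp; omega) (le_of_eq ?_)
  push_cast
  ring

/-- the height of the critical points -/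
lemma ht_crit (d : ℕ) (hd : 1 ≤ d) (hP : ∀ j : ℕ, 1 ≤ j → j ≤ d → (j : K) ≠ 0) (p q : K[X])
    (hmax : max p.natDegree q.natDegree = d) (hco : IsCoprime p q) (E : ℤ)
    (hp : HB Q d E p) (hq : HB Q d E q) (Z : K × K) (hZ : Z ≠ 0) (h : WH d p q Z = 0) :
    hto Q (pt Z) ≤ 16 * d * (2 * d + 1) * E := by
  have hE := hp.nonneg
  rcases crit_vec2 d hd p q hp.1 hq.1 Z hZ h with ⟨x, hx, hx0⟩ | ⟨hx, -⟩
  · rw [hx]
    show ht Q x ≤ _
    have hw := HB_wr hp hq
    have hw0 : wr p q ≠ 0 := by
      intro h0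
      obtain ⟨g1, g2⟩ := wr_zero p q (fun j h1 h2 => hP j h1 (by rw [hmax] at h2; exact h2)) hco h0
      rw [g1, g2] at hmax
      simp at hmax
      omega
    have h1 := ht_of_root (wr p q) hw0 (2 * d) hw.1 _ hw.2 x hx0
    refine h1.trans (le_of_eq ?_)
    push_cast
    ring
  · rw [hx]
    show (0 : ℤ) ≤ _
    positivity

/-- the height of the marked points -/
lemma ht_marked (d m : ℕ) (hd : 2 ≤ d) (hP : ∀ j : ℕ, 1 ≤ j → j ≤ d → (j : K) ≠ 0)
    (p q : K[X]) (hmax : max p.natDegree q.natDegree = d) (hco : IsCoprime p q) (E : ℤ)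
    (hE : 1 ≤ E) (hp : HB Q d E p) (hq : HB Q d E q) (x : K)
    (h : (WP d m p q * WQ d p q).eval x = 0) : ht Q x ≤ 128 * (d + 1) ^ 2 * E := by
  have hd0 : (d : K) ≠ 0 := hP d (by omega) le_rfl
  have hne : ((x, 1) : K × K) ≠ 0 := fun h => one_ne_zero (congrArg Prod.snd h)
  have hpt : pt ((x, 1) : K × K) = some x := pt_vec (some x)
  have hdp : (0 : ℤ) ≤ d := by positivity
  have fin : ∀ n₁ n₂, n₂ < n₁ → wd ((FH d p q)^[n₁] (x, 1)) ((FH d p q)^[n₂] (x, 1)) = 0 →
      ht Q x ≤ 128 * (d + 1) ^ 2 * E := by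
    intro n₁ n₂ hn h0
    have h1 := orbit_fin_vec d (by omega) p q hmax hco (x, 1) hne n₁ n₂ hn h0
    have h2 := ht_prep d hd p q hmax hco E hE hp.2 hq.2 _ h1
    rw [hpt] at h2
    refine h2.trans ?_
    have : (0 : ℤ) ≤ (d + 1) ^ 2 * E := by positivity
    nlinarith
  have crt : ∀ n, (wr (itP d p q n).1 (itP d p q n).2).eval x = 0 →
      ht Q x ≤ 128 * (d + 1) ^ 2 * E := by
    intro n h0
    obtain ⟨i, -, hi⟩ := crit_vec d (by omega) hd0 p q hp.1 hq.1 n x h0
    have h1 := ht_crit d (by omega) hP p q hmax hco E hp hq _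
      (FH_iter_nz d (by omega) p q hmax hco i _ hne) hi
    have h2 := (iter_pt t_PT d (by omega) p q hmax hco (x, 1) hne i).2
    rw [hpt] at h2
    by_contra hcon
    push Not at hcon
    have h3 := growth Q d hd p q hmax hco (8 * E) (fun i => (hp.2 i).trans (by linarith))
      (fun i => (hq.2 i).trans (by linarith)) (8 * (d + 1) ^ 2 * (8 * E)) rfl
      (fun j => (ratP1 p q d)^[j] (some x)) (fun j => Function.iterate_succ_apply' _ _ _) 0 (by
        show _ ≤ ht Q x
        nlinarith) i
    simp only [zero_add] at h3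
    rw [h2] at h3
    have h4 : hto Q (pt ((bK d p q)^[i] (x, 1))) ≤ 16 * d * (2 * d + 1) * E := h1
    have h5 : (0 : ℤ) ≤ (d : ℤ) ^ i * (8 * (d + 1) ^ 2 * (8 * E)) := by positivity
    have h6 : 16 * (d : ℤ) * (2 * d + 1) * E < 8 * (d + 1) ^ 2 * (8 * E) := by
      have h7 : 16 * (d : ℤ) * (2 * d + 1) < 64 * (d + 1) ^ 2 := by nlinarith
      nlinarith
    linarith
  rw [eval_mul, mul_eq_zero] at h
  rcases h with h | h
  · unfold WP at h
    rw [eval_prod, Finset.prod_eq_zero_iff] at h
    obtain ⟨n, hn, h⟩ := h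
    rw [Finset.mem_Icc] at hn
    rw [eval_mul, mul_eq_zero] at h
    rcases h with h | h
    · apply fin (2 * n) n (by omega)
      rw [← itP_eval, ← itP_eval]
      unfold wd
      simp only
      rw [eval_sub, eval_mul, eval_mul] at h
      exact h
    · exact crt n h
  · apply fin 3 2 (by omega)
    rw [← itP_eval, ← itP_eval]
    unfold wd
    simp only
    unfold WQ at h
    rw [eval_sub, eval_mul, eval_mul] at h
    exact h

end

end Pool.Agent.E8helper65.CM
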