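import Pool.Agent.E8helper65.CM.Ult
import Pool.Agent.E8helper65.CM.Loc3
import Pool.Agent.TH951.W.UG.A1

/-!
# Multipliers and critical heights in large characteristic: the height of a place datum, the global inequality
-/

set_option linter.unusedSectionVars false
set_option linter.unusedVariables false

namespace Pool.Agent.E8helper65.CM

open Polynomial Finset
open Pool.Agent.TH951.W.UB Pool.Agent.TH951.W.UG
open Pool.Agent.TH951.W.UB.PlaceData
open Pool.Agent.W277.UH Pool.Agent.Y706.CH Pool.Agent.Y195.CH Pool.Agent.Y676.CH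
open Pool.Agent.E8helper88.Mul

universe u v w

section
variable {k : Type v} {K : Type u} [Field k] [Field K] [Algebra k K] (Q : PlaceData.{w} k K)

/-- the height of an element -/
noncomputable def ht (x : K) : ℤ := ∑ᶠ v, Q.wt v * Q.pole v x

variable {Q}

lemma pole_supp (x : K) : {v | Q.pole v x ≠ 0}.Finite := by
  by_cases hx : x = 0
  · subst hx
    simp [pole_zero]
  · refine (Q.fin x hx).subset ?_
    intro v hv
    simp only [Set.mem_ofPred_eq] at hv ⊢
    intro h
    apply hv
    rw [pole_of_ne hx, h]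
    simp

lemma ht_eq (x : K) (S : Finset Q.Pl) (hS : ∀ v, v ∉ S → Q.pole v x = 0) :
    ht Q x = ∑ v ∈ S, Q.wt v * Q.pole v x := by
  unfold ht
  apply finsum_eq_sum_of_support_subset
  intro v hv
  rw [Function.mem_support] at hv
  by_contra h
  exact hv (by rw [hS v h, mul_zero])

/-- a finite set containing the poles -/
lemma exists_supp (E : Finset K) : ∃ S : Finset Q.Pl, ∀ x ∈ E, (∀ v, v ∉ S → Q.pole v x = 0) ∧
    (x ≠ 0 → ∀ v, v ∉ S → Q.ord v x = 0) := by
  classical
  refine ⟨E.biUnion fun x => if h : x ≠ 0 then (Q.fin x h).toFinset else ∅, ?_⟩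
  intro x hx
  have h1 : x ≠ 0 → ∀ v, v ∉ E.biUnion (fun x => if h : x ≠ 0 then (Q.fin x h).toFinset else ∅) →
      Q.ord v x = 0 := by
    intro h0 v hv
    by_contra h
    apply hv
    rw [Finset.mem_biUnion]
    refine ⟨x, hx, ?_⟩
    rw [dif_pos h0, Set.Finite.mem_toFinset]
    exact h
  refine ⟨?_, h1⟩
  intro v hv
  by_cases h0 : x = 0
  · rw [h0, pole_zero]
  · rw [pole_of_ne h0, h1 h0 v hv]
    simp

lemma ht_nonneg (x : K) : 0 ≤ ht Q x := by
  obtain ⟨S, hS⟩ := exists_supp (Q := Q) {x}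
  rw [ht_eq x S (hS x (Finset.mem_singleton_self x)).1]
  exact Finset.sum_nonneg fun v _ => mul_nonneg (Q.wt_nonneg v) (pole_nonneg v x)

lemma ht_zero : ht Q (0 : K) = 0 := by
  rw [ht_eq 0 ∅ (fun v _ => pole_zero)]
  simp

lemma ht_one : ht Q (1 : K) = 0 := by
  rw [ht_eq 1 ∅ (fun v _ => by rw [pole_of_ne one_ne_zero, ord_one]; simp)]
  simp

lemma ht_mono (x : K) (E : Finset K) (h : ∀ v, Q.pole v x ≤ ∑ y ∈ E, Q.pole v y) :
    ht Q x ≤ ∑ y ∈ E, ht Q y := by
  classical
  obtain ⟨S, hS⟩ := exists_supp (Q := Q) (insert x E)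
  rw [ht_eq x S (hS x (Finset.mem_insert_self x E)).1,
    Finset.sum_congr rfl fun y hy => ht_eq y S (hS y (Finset.mem_insert_of_mem hy)).1,
    Finset.sum_comm]
  apply Finset.sum_le_sum
  intro v _
  rw [← Finset.mul_sum]
  exact mul_le_mul_of_nonneg_left (h v) (Q.wt_nonneg v)

lemma ht_mono' {ι : Type*} (x : K) (E : Finset ι) (y : ι → K)
    (h : ∀ v, Q.pole v x ≤ ∑ i ∈ E, Q.pole v (y i)) : ht Q x ≤ ∑ i ∈ E, ht Q (y i) := by
  classical
  obtain ⟨S, hS⟩ := exists_supp (Q := Q) (insert x (E.image y))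
  rw [ht_eq x S (hS x (Finset.mem_insert_self _ _)).1,
    Finset.sum_congr rfl fun i hi => ht_eq (y i) S (hS (y i) (Finset.mem_insert_of_mem
      (Finset.mem_image_of_mem y hi))).1,
    Finset.sum_comm]
  apply Finset.sum_le_sum
  intro v _
  rw [← Finset.mul_sum]
  exact mul_le_mul_of_nonneg_left (h v) (Q.wt_nonneg v)

lemma ht_add (x y : K) : ht Q (x + y) ≤ ht Q x + ht Q y := by
  have h := ht_mono' (Q := Q) (x + y) Finset.univ ![x, y] (by
    intro v
    rw [Fin.sum_univ_two]
    simp only [Matrix.cons_val_zero, Matrix.cons_val_one]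
    apply pole_le_of_G (add_nonneg (pole_nonneg v x) (pole_nonneg v y))
    apply G_add
    · exact G_mono (G_pole v x) (by linarith [pole_nonneg v y])
    · exact G_mono (G_pole v y) (by linarith [pole_nonneg v x]))
  rw [Fin.sum_univ_two] at h
  exact h

lemma ht_mul (x y : K) : ht Q (x * y) ≤ ht Q x + ht Q y := by
  have h := ht_mono' (Q := Q) (x * y) Finset.univ ![x, y] (by
    intro v
    rw [Fin.sum_univ_two]
    simp only [Matrix.cons_val_zero, Matrix.cons_val_one]
    apply pole_le_of_G (add_nonneg (pole_nonneg v x) (pole_nonneg v y))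
    have := G_mul (G_pole v x) (G_pole v y)
    exact G_mono this (by linarith))
  rw [Fin.sum_univ_two] at h
  exact h

/-- the product formula -/
lemma prod_eq (x : K) (hx : x ≠ 0) (S : Finset Q.Pl) (hS : ∀ v, v ∉ S → Q.ord v x = 0) :
    ∑ v ∈ S, Q.wt v * Q.ord v x = 0 := by
  apply le_antisymm
  · exact Q.prod_formula x hx S fun v hv => (hS v hv).ge
  · have h := Q.prod_formula x⁻¹ (inv_ne_zero hx) S fun v hv => by
      rw [ord_inv hx, hS v hv, neg_zero]
    have h2 : ∑ v ∈ S, Q.wt v * Q.ord v x⁻¹ = -∑ v ∈ S, Q.wt v * Q.ord v x := by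
      rw [← Finset.sum_neg_distrib]
      apply Finset.sum_congr rfl
      intro v _
      rw [ord_inv hx]
      ring
    rw [h2] at h
    linarith

lemma ht_inv (x : K) : ht Q x⁻¹ = ht Q x := by
  classical
  by_cases hx : x = 0
  · rw [hx, inv_zero]
  · obtain ⟨S, hS⟩ := exists_supp (Q := Q) {x, x⁻¹}
    have h1 := hS x (by simp)
    have h2 := hS x⁻¹ (by simp)
    rw [ht_eq x S h1.1, ht_eq x⁻¹ S h2.1]
    have h3 := prod_eq x hx S (h1.2 hx)
    have h4 : ∑ v ∈ S, Q.wt v * Q.pole v x⁻¹ - ∑ v ∈ S, Q.wt v * Q.pole v x =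
        ∑ v ∈ S, Q.wt v * Q.ord v x := by
      rw [← Finset.sum_sub_distrib]
      apply Finset.sum_congr rfl
      intro v _
      rw [pole_of_ne hx, pole_of_ne (inv_ne_zero hx), ord_inv hx, ← mul_sub]
      congr 1
      omega
    linarith

/-- a finite number of zeros -/
lemma ht_zeros (x : K) (hx : x ≠ 0) (V : Finset Q.Pl) :
    ∑ v ∈ V, Q.wt v * Q.ord v x ≤ ht Q x := by
  classical
  obtain ⟨S, hS⟩ := exists_supp (Q := Q) {x, x⁻¹}
  have h2 := hS x⁻¹ (by simp)
  rw [← ht_inv x, ht_eq x⁻¹ (S ∪ V) (fun v hv => h2.1 v fun h => hv (Finset.mem_union_left _ h))]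
  calc ∑ v ∈ V, Q.wt v * Q.ord v x ≤ ∑ v ∈ V, Q.wt v * Q.pole v x⁻¹ := by
        apply Finset.sum_le_sum
        intro v _
        apply mul_le_mul_of_nonneg_left _ (Q.wt_nonneg v)
        rw [pole_of_ne (inv_ne_zero hx), ord_inv hx, neg_neg]
        exact le_max_right _ _
    _ ≤ _ := Finset.sum_le_sum_of_subset_of_nonneg Finset.subset_union_right
        fun v _ _ => mul_nonneg (Q.wt_nonneg v) (pole_nonneg v _)

/-- the height is the number of zeros -/
lemma ht_eq_zeros (x : K) (hx : x ≠ 0) : ∃ V : Finset Q.Pl, (∀ v ∈ V, 0 < Q.ord v x) ∧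
    ht Q x = ∑ v ∈ V, Q.wt v * Q.ord v x := by
  classical
  obtain ⟨S, hS⟩ := exists_supp (Q := Q) {x, x⁻¹}
  have h2 := hS x⁻¹ (by simp)
  refine ⟨S.filter fun v => 0 < Q.ord v x, fun v hv => (Finset.mem_filter.mp hv).2, ?_⟩
  rw [← ht_inv x, ht_eq x⁻¹ S h2.1, Finset.sum_filter]
  apply Finset.sum_congr rfl
  intro v _
  rw [pole_of_ne (inv_ne_zero hx), ord_inv hx, neg_neg]
  split_ifs with h
  · rw [max_eq_right h.le]
  · rw [max_eq_left (not_lt.mp h), mul_zero]

lemma ht_root (e : ℕ) (a : Fin e → K) (x : K) (h : x ^ e = ∑ i, a i * x ^ (i : ℕ)) :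
    ht Q x ≤ ∑ i, ht Q (a i) := by
  classical
  apply ht_mono' x Finset.univ a
  intro v
  set m := ∑ i, Q.pole v (a i) with hm
  have hm0 : 0 ≤ m := Finset.sum_nonneg fun i _ => pole_nonneg v _
  by_contra hcon
  push Not at hcon
  have hx : x ≠ 0 := by
    rintro rfl
    rw [pole_zero] at hcon
    linarith
  have hox : Q.ord v x < -m := by
    rw [pole_of_ne hx] at hcon
    rcases lt_max_iff.mp hcon with h1 | h1 <;> linarith
  have h1 : Q.G v (e * Q.ord v x + 1) (x ^ e) := by
    rw [h]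
    apply G_sum
    intro i _
    have h2 := G_mul (G_pole v (a i)) (G_pow (G_self (Q := Q) (v := v) (x := x)) (i : ℕ))
    refine G_mono h2 ?_
    have h3 : Q.pole v (a i) ≤ m := Finset.single_le_sum (f := fun i => Q.pole v (a i))
      (fun i _ => pole_nonneg v _) (Finset.mem_univ i)
    have h4 : ((i : ℕ) : ℤ) + 1 ≤ (e : ℤ) := by exact_mod_cast i.2
    nlinarith
  have h2 := h1 (pow_ne_zero _ hx)
  rw [ord_pow hx] at h2
  linarith

lemma isHt : IsHt fun x : K => (ht Q x : ℝ) where
  nonneg x := by exact_mod_cast ht_nonneg x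
  zero := by exact_mod_cast ht_zero
  one := by exact_mod_cast ht_one
  add x y := by exact_mod_cast ht_add x y
  mul x y := by exact_mod_cast ht_mul x y
  inv x := by exact_mod_cast ht_inv x
  root e a x h := by exact_mod_cast ht_root e a x h

/-- **The global inequality.** A multiplier of positive height attracts a critical point at many
places. -/
theorem global_crit (P R : K[X]) (hP : ∀ j : ℕ, 1 ≤ j → j ≤ 2 * P.natDegree → (j : k) ≠ 0)
    (hco : IsCoprime P R)
    (hdeg : R.natDegree < P.natDegree) (hP0 : P.eval 0 = 0) (hP1 : P.eval 1 = 0) (lam : K)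
    (hlam : lam * R.eval 0 = (derivative P).eval 0) (hlht : 0 < ht Q lam)
    (hsp : (derivative P * R - P * derivative R).Splits) :
    ∃ c, (derivative P * R - P * derivative R).eval c = 0 ∧ ∃ x : ℕ → K, x 0 = c ∧
      (∀ j, R.eval (x j) ≠ 0 ∧ x (j + 1) * R.eval (x j) = P.eval (x j)) ∧
      ∀ j : ℕ, x (j + 1) ≠ 0 ∧ (j + 1) * ht Q lam ≤ (2 * P.natDegree) * ht Q (x (j + 1)) := by
  classical
  set W := derivative P * R - P * derivative R with hW
  have hlam0 : lam ≠ 0 := by
    rintro rfl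
    rw [ht_zero] at hlht
    exact lt_irrefl _ hlht
  obtain ⟨V, hV, hVs⟩ := ht_eq_zeros (Q := Q) lam hlam0
  have hR0 : R.eval 0 ≠ 0 := by
    intro h
    obtain ⟨a, b, hab⟩ := hco
    have := congrArg (fun f => f.eval 0) hab
    simp [hP0, h] at this
  have hPd : (derivative P).eval 0 ≠ 0 := by
    rw [← hlam]
    exact mul_ne_zero hlam0 hR0
  have hPne : P ≠ 0 := by
    rintro rfl
    simp at hPd
  have hW0 : W ≠ 0 := by
    intro h
    have h1 : wronskian P R = 0 := by
      unfold wronskian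
      linear_combination -h
    obtain ⟨h2, h3⟩ := hco.wronskian_eq_zero_iff.mp h1
    rw [h2, eval_zero] at hPd
    exact hPd rfl
  set y : K → ℕ → K := fun c j => (fun t => P.eval t / R.eval t)^[j] c with hy
  have hysucc : ∀ c j, y c (j + 1) = P.eval (y c j) / R.eval (y c j) := by
    intro c j
    simp only [hy]
    rw [Function.iterate_succ_apply']
  -- the critical point at a place
  have hloc : ∀ v ∈ V, ∃ c, W.eval c = 0 ∧ (∀ j, R.eval (y c j) ≠ 0) ∧
      ∀ j : ℕ, y c (j + 1) ≠ 0 ∧ (j + 1) * Q.ord v lam ≤ Q.ord v (y c (j + 1)) := by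
    intro v hv
    obtain ⟨Ω, i1, i2, i3, ι, hι⟩ := exists_ext Q v lam hlam0 (hV v hv).ne'
    have hnat : ∀ n : ℕ, n ≠ 0 → n ≤ 2 * P.natDegree → ‖(n : Ω)‖ = 1 := by
      intro n hn hnP
      have hnk := hP n (by omega) hnP
      have hnK : (n : K) ≠ 0 := by
        rw [← map_natCast (algebraMap k K)]
        exact (_root_.map_ne_zero _).mpr hnk
      have h1 : ((n : ℕ) : Ω) = ι (algebraMap k K (n : k)) := by simp
      rw [h1, hι _ (by simpa using hnK), Q.ord_alg v _ hnk]
      simp
    have hlamn : ‖ι lam‖ < 1 := by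
      rw [hι lam hlam0, Real.exp_lt_one_iff]
      have : (0 : ℝ) < Q.ord v lam := by exact_mod_cast hV v hv
      linarith
    have hev : ∀ (f : K[X]) (t : K), (f.map ι).eval (ι t) = ι (f.eval t) := fun f t =>
      eval_map_apply _ _
    have hinj : Function.Injective ι := ι.injective
    obtain ⟨c', hc', x, hx0, hx1, hx2⟩ := local_crit hnat
      ⟨ι lam, (map_ne_zero ι).mpr hlam0, hlamn.ne⟩ (P.map ι) (R.map ι)
      (by rw [natDegree_map_eq_of_injective hinj, natDegree_map_eq_of_injective hinj]; omega)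
      ((Polynomial.isCoprime_map ι).mpr hco)
      (by rw [natDegree_map_eq_of_injective hinj, natDegree_map_eq_of_injective hinj]; exact hdeg)
      (by rw [← map_zero ι, hev, hP0])
      (by
        intro h
        rw [← map_zero ι, derivative_map, hev] at h
        exact hPd (hinj h))
      1 one_ne_zero (by rw [← map_one ι, hev, hP1, map_zero]) (by rw [norm_one])
      (ι lam) (by rw [← map_zero ι, derivative_map, hev, hev, ← map_mul, hlam]) hlamn
    have hWm : derivative (P.map ι) * R.map ι - P.map ι * derivative (R.map ι) = W.map ι := by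
      rw [hW, Polynomial.map_sub, Polynomial.map_mul, Polynomial.map_mul, derivative_map,
        derivative_map]
    rw [hWm] at hc'
    obtain ⟨c, hc⟩ : ∃ c, ι c = c' := hsp.mem_range_of_isRoot hW0 hc'
    have hc0 : W.eval c = 0 := by
      apply hinj
      rw [map_zero, ← hev, hc]
      exact hc'
    have horb : ∀ j, ι (y c j) = x j ∧ R.eval (y c j) ≠ 0 := by
      intro j
      have h1 : ∀ j, ι (y c j) = x j → R.eval (y c j) ≠ 0 := by
        intro j hj h
        apply (hx1 j).1
        rw [← hj, hev, h, map_zero]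
      have h2 : ι (y c j) = x j := by
        induction j with
        | zero =>
          rw [hx0]
          exact hc
        | succ j ih =>
          have h3 := (hx1 j).2
          rw [← ih, hev, hev] at h3
          rw [hysucc, map_div₀, ← h3, mul_div_cancel_right₀ _
            ((map_ne_zero ι).mpr (h1 j ih))]
      exact ⟨h2, h1 j h2⟩
    refine ⟨c, hc0, fun j => (horb j).2, ?_⟩
    intro j
    obtain ⟨h1, h2⟩ := hx2 j
    rw [← (horb (j + 1)).1] at h1 h2
    have h3 : y c (j + 1) ≠ 0 := fun h => h1 (by rw [h, map_zero])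
    refine ⟨h3, ?_⟩
    rw [hι _ h3, hι lam hlam0, ← Real.exp_nat_mul, Real.exp_le_exp] at h2
    have h4 : ((j + 1 : ℕ) : ℝ) * (Q.ord v lam : ℝ) ≤ Q.ord v (y c (j + 1)) := by
      push_cast at h2 ⊢
      linarith
    exact_mod_cast h4
  -- the pigeonhole principle
  choose! cv hcv using hloc
  set Rs := W.roots.toFinset with hRs
  have hcvR : ∀ v ∈ V, cv v ∈ Rs := by
    intro v hv
    rw [hRs, Multiset.mem_toFinset, mem_roots hW0]
    exact (hcv v hv).1
  set σ : K → ℤ := fun c => ∑ v ∈ V.filter (fun v => cv v = c), Q.wt v * Q.ord v lam with hσ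
  have hσsum : ∑ c ∈ Rs, σ c = ht Q lam := by
    rw [hVs]
    exact Finset.sum_fiberwise_of_maps_to hcvR _
  have hVne : V.Nonempty := by
    rw [Finset.nonempty_iff_ne_empty]
    intro h
    rw [h, Finset.sum_empty] at hVs
    omega
  obtain ⟨v₀, hv₀⟩ := hVne
  obtain ⟨c, hc, hcσ⟩ := Finset.exists_le_of_sum_le (s := Rs) ⟨cv v₀, hcvR v₀ hv₀⟩
    (f := fun _ => ht Q lam) (g := fun c => (Rs.card : ℤ) * σ c) (by
      rw [Finset.sum_const, ← Finset.mul_sum, hσsum, nsmul_eq_mul])
  have hcard : (Rs.card : ℤ) ≤ 2 * P.natDegree := by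
    have h1 : Rs.card ≤ W.natDegree := (Multiset.toFinset_card_le _).trans (card_roots' W)
    have h2 : W.natDegree ≤ 2 * P.natDegree := by
      refine (natDegree_sub_le _ _).trans (max_le ?_ ?_)
      · refine (natDegree_mul_le).trans ?_
        have := natDegree_derivative_le P
        omega
      · refine (natDegree_mul_le).trans ?_
        have := natDegree_derivative_le R
        omega
    exact_mod_cast h1.trans h2
  obtain ⟨v₁, hv₁⟩ : (V.filter fun v => cv v = c).Nonempty := by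
    rw [Finset.nonempty_iff_ne_empty]
    intro h
    simp only [hσ] at hcσ
    rw [h, Finset.sum_empty, mul_zero] at hcσ
    omega
  rw [Finset.mem_filter] at hv₁
  obtain ⟨hc1, hc2, hc3⟩ := hcv v₁ hv₁.1
  rw [hv₁.2] at hc1 hc2 hc3
  refine ⟨c, hc1, y c, rfl, fun j => ⟨hc2 j, ?_⟩, fun j => ⟨(hc3 j).1, ?_⟩⟩
  · rw [hysucc, div_mul_cancel₀ _ (hc2 j)]
  · have h1 : (j + 1) * σ c ≤ ht Q (y c (j + 1)) := by
      refine le_trans ?_ (ht_zeros (Q := Q) _ (hc3 j).1 (V.filter fun v => cv v = c))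
      simp only [hσ]
      rw [Finset.mul_sum]
      apply Finset.sum_le_sum
      intro v hv
      rw [Finset.mem_filter] at hv
      have h2 := ((hcv v hv.1).2.2 j).2
      rw [hv.2] at h2
      have h3 := mul_le_mul_of_nonneg_left h2 (Q.wt_nonneg v)
      linarith
    have h4 : 0 ≤ ht Q (y c (j + 1)) := ht_nonneg _
    calc ((j : ℤ) + 1) * ht Q lam ≤ ((j : ℤ) + 1) * ((Rs.card : ℤ) * σ c) :=
          mul_le_mul_of_nonneg_left hcσ (by positivity)
      _ = (Rs.card : ℤ) * (((j : ℤ) + 1) * σ c) := by ring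
      _ ≤ (Rs.card : ℤ) * ht Q (y c (j + 1)) :=
          mul_le_mul_of_nonneg_left h1 (by positivity)
      _ ≤ (2 * P.natDegree) * ht Q (y c (j + 1)) :=
          mul_le_mul_of_nonneg_right hcard h4

end

end Pool.Agent.E8helper65.CM
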