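import Pool.Agent.TH951.W.UB.Pl

/-!
# Project CH (HB): Bezout relations and orders of the values of a rational map
-/

namespace Pool.Agent.E8helper65.CM.Low

open Pool.Agent.TH951.W.UB Finset Polynomial

/-- Bezout relations from the adjugate of the Sylvester matrix -/
lemma bez {R : Type*} [CommRing R] (d : ℕ) (f g : R[X]) (hf : f.natDegree ≤ d)
    (hg : g.natDegree ≤ d) (j : ℕ) (hj : j < d + d) :
    ∃ u w : R[X], u.degree < d ∧ w.degree < d ∧
      f * u + g * w = C (resultant f g d d) * X ^ j := by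
  nontriviality R
  let Y := adjSylvester (m := d) (n := d) f g ⟨X ^ j, by
    rw [Polynomial.mem_degreeLT, degree_X_pow]; exact_mod_cast hj⟩
  have : ((sylvesterMap f g hf hg Y)).1 = _ :=
    congr(($(sylveserMap_comp_adjSylvester f g hf hg) _).1)
  exact ⟨Y.2, Y.1, Polynomial.mem_degreeLT.mp Y.2.2, Polynomial.mem_degreeLT.mp Y.1.2,
    by simpa [Algebra.smul_def] using this⟩

variable {k K : Type*} [Field k] [Field K] [Algebra k K] (Q : PlaceData k K)

/-- the valuation ring of a place -/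
def Ov (v : Q.Pl) : Subring K where
  carrier := {x | Q.G v 0 x}
  mul_mem' := fun hx hy => by simpa using PlaceData.G_mul hx hy
  one_mem' := PlaceData.G_one
  add_mem' := fun hx hy => PlaceData.G_add hx hy
  zero_mem' := PlaceData.G_zero
  neg_mem' := fun hx => PlaceData.G_neg hx

lemma mem_Ov (v : Q.Pl) (x : K) : x ∈ Ov Q v ↔ Q.G v 0 x := Iff.rfl

variable {Q}

/-- the order of a value of a polynomial with integral coefficients -/
lemma G_eval {v : Q.Pl} (d : ℕ) (hd : 1 ≤ d) (m : ℤ) (u : K[X]) (hu : u.degree < d)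
    (hc : ∀ i, Q.G v m (u.coeff i)) (z : K) :
    Q.G v (m - ((d : ℤ) - 1) * Q.pole v z) (u.eval z) := by
  have hn : u.natDegree < d := by
    by_cases h0 : u = 0
    · rw [h0, natDegree_zero]; omega
    · exact (natDegree_lt_iff_degree_lt h0).mpr hu
  rw [eval_eq_sum_range' hn]
  apply PlaceData.G_sum
  intro i hi
  have h1 := PlaceData.G_mul (hc i) (PlaceData.G_pow (PlaceData.G_pole v z) i)
  refine PlaceData.G_mono h1 ?_
  have h2 : (i : ℤ) + 1 ≤ d := by exact_mod_cast (Finset.mem_range.mp hi)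
  have h3 := PlaceData.pole_nonneg v z
  nlinarith

lemma ord_pow' {v : Q.Pl} {x : K} (hx : x ≠ 0) (n : ℕ) : Q.ord v (x ^ n) = n * Q.ord v x := by
  induction n with
  | zero => simp [PlaceData.ord_one]
  | succ n ih =>
    rw [pow_succ, Q.ord_mul v _ _ (pow_ne_zero _ hx) hx, ih]
    push_cast
    ring

/-- lower bound for the size of a value -/
lemma low {v : Q.Pl} (d : ℕ) (hd : 1 ≤ d) (p q : K[X]) (hp : p.natDegree ≤ d)
    (hq : q.natDegree ≤ d) (c : K) (hc : c ≠ 0) (hpc : ∀ i, Q.G v (Q.ord v c) (p.coeff i))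
    (hqc : ∀ i, Q.G v (Q.ord v c) (q.coeff i)) (hR : resultant q p d d ≠ 0) (z : K) (n : ℤ)
    (h1 : Q.G v n (p.eval z)) (h2 : Q.G v n (q.eval z)) :
    n ≤ Q.ord v (resultant q p d d) - (2 * d - 1) * Q.ord v c - d * Q.pole v z := by
  classical
  have hci : c⁻¹ ≠ 0 := inv_ne_zero hc
  have hoc : Q.ord v c⁻¹ = -Q.ord v c := PlaceData.ord_inv hc
  have key : ∀ f : K[X], (∀ i, Q.G v (Q.ord v c) (f.coeff i)) →
      (↑(C c⁻¹ * f).coeffs : Set K) ⊆ (Ov Q v : Set K) := by
    intro f hf x hx
    have hx' : x ∈ (C c⁻¹ * f).coeffs := hx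
    rw [mem_coeffs_iff] at hx'
    obtain ⟨i, _, hi⟩ := hx'
    rw [coeff_C_mul] at hi
    have h3 : Q.G v (Q.ord v c⁻¹) c⁻¹ := fun _ => le_rfl
    have h4 := PlaceData.G_mul h3 (hf i)
    rw [hoc, ← hi] at h4
    rw [SetLike.mem_coe, mem_Ov, hi]
    rw [← hi]
    simpa using h4
  set F : (Ov Q v)[X] := (C c⁻¹ * q).toSubring (Ov Q v) (key q hqc) with hF
  set G' : (Ov Q v)[X] := (C c⁻¹ * p).toSubring (Ov Q v) (key p hpc) with hG
  have hFm : F.map (Ov Q v).subtype = C c⁻¹ * q := map_toSubring _ _ _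
  have hGm : G'.map (Ov Q v).subtype = C c⁻¹ * p := map_toSubring _ _ _
  have hFd : F.natDegree ≤ d := by
    rw [hF, natDegree_toSubring]
    exact (natDegree_C_mul_le _ _).trans hq
  have hGd : G'.natDegree ≤ d := by
    rw [hG, natDegree_toSubring]
    exact (natDegree_C_mul_le _ _).trans hp
  have hres : ((resultant F G' d d : Ov Q v) : K) = c⁻¹ ^ (2 * d) * resultant q p d d := by
    have e1 := resultant_map_map F G' d d (Ov Q v).subtype
    rw [hFm, hGm, resultant_C_mul_left, resultant_C_mul_right] at e1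
    rw [Subring.subtype_apply] at e1
    rw [← e1]
    ring
  have hresord : Q.ord v (c⁻¹ ^ (2 * d) * resultant q p d d) =
      Q.ord v (resultant q p d d) - 2 * d * Q.ord v c := by
    rw [Q.ord_mul v _ _ (pow_ne_zero _ hci) hR, ord_pow' hci, hoc]
    push_cast
    ring
  -- the relation
  have rel : ∀ j : ℕ, j < d + d →
      Q.G v (n - Q.ord v c - ((d : ℤ) - 1) * Q.pole v z)
        (c⁻¹ ^ (2 * d) * resultant q p d d * z ^ j) := by
    intro j hj
    obtain ⟨u, w, hu, hw, huw⟩ := bez d F G' hFd hGd j hj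
    have e1 := congrArg (fun g : (Ov Q v)[X] => (g.map (Ov Q v).subtype).eval z) huw
    simp only [Polynomial.map_add, Polynomial.map_mul, eval_add, eval_mul, hFm, hGm,
      Polynomial.map_C, eval_C, Polynomial.map_pow, Polynomial.map_X, eval_pow, eval_X,
      Subring.subtype_apply, hres] at e1
    rw [← e1]
    have hcoef : ∀ g : (Ov Q v)[X], g.degree < d → Q.G v (0 - ((d : ℤ) - 1) * Q.pole v z)
        ((g.map (Ov Q v).subtype).eval z) := by
      intro g hg
      apply G_eval d hd
      · exact (degree_map_le).trans_lt hg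
      · intro i
        rw [coeff_map, Subring.subtype_apply, ← mem_Ov]
        exact (g.coeff i).2
    have hval : ∀ f : K[X], Q.G v n (f.eval z) →
        Q.G v (n - Q.ord v c) (c⁻¹ * f.eval z) := by
      intro f hf
      have h3 : Q.G v (Q.ord v c⁻¹) c⁻¹ := fun _ => le_rfl
      have h4 := PlaceData.G_mul h3 hf
      refine PlaceData.G_mono h4 (le_of_eq ?_)
      rw [hoc]
      ring
    apply PlaceData.G_add
    · refine PlaceData.G_mono (PlaceData.G_mul (hval q h2) (hcoef u hu)) (le_of_eq ?_)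
      ring
    · refine PlaceData.G_mono (PlaceData.G_mul (hval p h1) (hcoef w hw)) (le_of_eq ?_)
      ring
  have hne : c⁻¹ ^ (2 * d) * resultant q p d d ≠ 0 := mul_ne_zero (pow_ne_zero _ hci) hR
  by_cases hz : Q.pole v z = 0
  · have h3 := rel 0 (by omega)
    rw [pow_zero, mul_one, hz] at h3
    have h4 := h3 hne
    rw [hresord] at h4
    rw [hz]
    linarith
  · have hz0 : z ≠ 0 := by
      rintro rfl
      exact hz PlaceData.pole_zero
    have hzp : Q.pole v z = -Q.ord v z := by
      rw [PlaceData.pole_of_ne hz0] at hz ⊢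
      omega
    have h3 := rel (2 * d - 1) (by omega)
    have h4 := h3 (mul_ne_zero hne (pow_ne_zero _ hz0))
    rw [Q.ord_mul v _ _ hne (pow_ne_zero _ hz0), ord_pow' hz0, hresord] at h4
    have h5 : ((2 * d - 1 : ℕ) : ℤ) = 2 * d - 1 := by
      push_cast [Nat.cast_sub (by omega : 1 ≤ 2 * d)]
      ring
    rw [h5, show Q.ord v z = -Q.pole v z by rw [hzp]; ring] at h4
    nlinarith

/-- the order of a root of a polynomial with bounded coefficients -/
lemma root_pole {v : Q.Pl} (W : K[X]) (hW : W ≠ 0) (m : ℤ) (hc : ∀ i, Q.G v (-m) (W.coeff i))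
    (x : K) (hx : W.eval x = 0) : Q.pole v x ≤ m + Q.ord v W.leadingCoeff := by
  have hl : W.leadingCoeff ≠ 0 := leadingCoeff_ne_zero.mpr hW
  have h0 : 0 ≤ m + Q.ord v W.leadingCoeff := by
    have := hc W.natDegree hl
    rw [coeff_natDegree] at this
    linarith
  by_cases hx0 : x = 0
  · rw [hx0, PlaceData.pole_zero]
    exact h0
  rw [PlaceData.pole_of_ne hx0]
  apply max_le h0
  by_contra hcon
  push Not at hcon
  have hD : 1 ≤ W.natDegree := by
    by_contra h
    have h1 : W.natDegree = 0 := by omega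
    rw [eq_C_of_natDegree_eq_zero h1, eval_C] at hx
    apply hl
    rw [leadingCoeff, h1, hx]
  have h2 : ∑ i ∈ range W.natDegree, W.coeff i * x ^ i = -(W.leadingCoeff * x ^ W.natDegree) := by
    have := eval_eq_sum_range (p := W) x
    rw [hx, Finset.sum_range_succ, coeff_natDegree] at this
    linear_combination -this
  have h3 : Q.G v (-m + (W.natDegree - 1) * Q.ord v x)
      (∑ i ∈ range W.natDegree, W.coeff i * x ^ i) := by
    apply PlaceData.G_sum
    intro i hi
    have h4 : Q.G v (i * Q.ord v x) (x ^ i) := fun _ => (ord_pow' hx0 i).ge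
    refine PlaceData.G_mono (PlaceData.G_mul (hc i) h4) ?_
    have h5 : (i : ℤ) + 1 ≤ W.natDegree := by exact_mod_cast (Finset.mem_range.mp hi)
    have h6 : Q.ord v x ≤ 0 := by linarith
    nlinarith
  rw [h2] at h3
  have hne : W.leadingCoeff * x ^ W.natDegree ≠ 0 := mul_ne_zero hl (pow_ne_zero _ hx0)
  have h4 := h3 (neg_ne_zero.mpr hne)
  rw [PlaceData.ord_neg hne, Q.ord_mul v _ _ hl (pow_ne_zero _ hx0), ord_pow' hx0] at h4
  linarith

end Pool.Agent.E8helper65.CM.Low
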