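import Pool.Agent.E8helper65.CM.HT

/-!
# Heights of sums, products, roots and coefficients
-/

set_option linter.unusedSectionVars false
set_option linter.unusedVariables false

namespace Pool.Agent.E8helper65.CM

open Polynomial Finset
open Pool.Agent.TH951.W.UB
open Pool.Agent.TH951.W.UB.PlaceData
open Pool.Agent.W277.UH Pool.Agent.Y706.CH Pool.Agent.Y195.CH Pool.Agent.Y676.CH
open Pool.Agent.E8helper88.Mul

universe u v w

section
variable {k : Type v} {K : Type u} [Field k] [Field K] [Algebra k K] {Q : PlaceData.{w} k K}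

lemma ht_neg (x : K) : ht Q (-x) = ht Q x := by
  have key : ∀ y : K, ht Q (-y) ≤ ht Q y := by
    intro y
    have h1 := (isHt (Q := Q)).neg y
    exact_mod_cast h1
  apply le_antisymm (key x)
  have h := key (-x)
  rwa [neg_neg] at h

lemma ht_sub (x y : K) : ht Q (x - y) ≤ ht Q x + ht Q y := by
  rw [sub_eq_add_neg]
  refine (ht_add _ _).trans ?_
  rw [ht_neg]

lemma ht_div (x y : K) : ht Q (x / y) ≤ ht Q x + ht Q y := by
  rw [div_eq_mul_inv]
  refine (ht_mul _ _).trans ?_
  rw [ht_inv]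

lemma ht_alg (c : k) : ht Q (algebraMap k K c) = 0 := by
  by_cases hc : c = 0
  · rw [hc, map_zero, ht_zero]
  · rw [ht_eq (algebraMap k K c) ∅ (fun v _ => by
      rw [pole_of_ne ((map_ne_zero_iff _ (algebraMap k K).injective).mpr hc), Q.ord_alg v c hc]
      simp)]
    simp

lemma ht_nat (n : ℕ) : ht Q (n : K) = 0 := by
  rw [← map_natCast (algebraMap k K)]
  exact ht_alg _

lemma ht_pow (x : K) (n : ℕ) : ht Q (x ^ n) ≤ n * ht Q x := by
  induction n with
  | zero => simp [ht_one]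
  | succ n ih =>
    rw [pow_succ]
    refine (ht_mul _ _).trans ?_
    push_cast
    linarith

lemma ht_sum {ι : Type*} (s : Finset ι) (f : ι → K) : ht Q (∑ i ∈ s, f i) ≤ ∑ i ∈ s, ht Q (f i) := by
  classical
  induction s using Finset.induction_on with
  | empty => simp [ht_zero]
  | insert a s ha ih =>
    rw [Finset.sum_insert ha, Finset.sum_insert ha]
    exact (ht_add _ _).trans (by linarith)

lemma ht_alg_mul (c : k) (x : K) : ht Q (algebraMap k K c * x) ≤ ht Q x := by
  refine (ht_mul _ _).trans ?_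
  rw [ht_alg, zero_add]

/-- the height of a root -/
lemma ht_of_root (W : K[X]) (hW : W ≠ 0) (N : ℕ) (hN : W.natDegree ≤ N) (E : ℤ)
    (hE : ∀ i, ht Q (W.coeff i) ≤ E) (x : K) (hx : W.eval x = 0) : ht Q x ≤ 2 * N * E := by
  have hE0 : 0 ≤ E := (ht_nonneg _).trans (hE 0)
  set e := W.natDegree with he
  have hl : W.coeff e ≠ 0 := leadingCoeff_ne_zero.mpr hW
  have h1 : x ^ e = ∑ i : Fin e, (-(W.coeff i / W.coeff e)) * x ^ (i : ℕ) := by
    rw [Fin.sum_univ_eq_sum_range (fun i => (-(W.coeff i / W.coeff e)) * x ^ i) e]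
    rw [eval_eq_sum_range, Finset.sum_range_succ] at hx
    apply mul_left_cancel₀ hl
    rw [Finset.mul_sum]
    have h2 : ∑ i ∈ range e, W.coeff e * (-(W.coeff i / W.coeff e) * x ^ i) =
        -∑ i ∈ range e, W.coeff i * x ^ i := by
      rw [← Finset.sum_neg_distrib]
      apply Finset.sum_congr rfl
      intro i _
      field_simp
    rw [h2]
    linear_combination hx
  have h2 := ht_root (Q := Q) e _ x h1
  refine h2.trans ?_
  calc ∑ i : Fin e, ht Q (-(W.coeff i / W.coeff e)) ≤ ∑ i : Fin e, (2 * E) := by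
        apply Finset.sum_le_sum
        intro i _
        rw [ht_neg]
        refine (ht_div _ _).trans ?_
        have := hE i
        have := hE e
        linarith
    _ = e * (2 * E) := by rw [Finset.sum_const, Finset.card_univ, Fintype.card_fin, nsmul_eq_mul]
    _ ≤ N * (2 * E) := by
        apply mul_le_mul_of_nonneg_right _ (by linarith)
        exact_mod_cast hN
    _ = 2 * N * E := by ring

variable (Q) in
/-- the degree and the heights of the coefficients are bounded -/
def HB (N : ℕ) (E : ℤ) (f : K[X]) : Prop := f.natDegree ≤ N ∧ ∀ i, ht Q (f.coeff i) ≤ E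

lemma HB.nonneg {N : ℕ} {E : ℤ} {f : K[X]} (h : HB Q N E f) : 0 ≤ E :=
  (ht_nonneg _).trans (h.2 0)

lemma HB.mono {N N' : ℕ} {E E' : ℤ} {f : K[X]} (h : HB Q N E f) (hN : N ≤ N') (hE : E ≤ E') :
    HB Q N' E' f := ⟨h.1.trans hN, fun i => (h.2 i).trans hE⟩

lemma HB.mul {N₁ N₂ : ℕ} {E₁ E₂ : ℤ} {f g : K[X]} (hf : HB Q N₁ E₁ f) (hg : HB Q N₂ E₂ g) :
    HB Q (N₁ + N₂) ((N₁ + N₂ + 1 : ℕ) * (E₁ + E₂)) (f * g) := by
  have h1 := hf.nonneg
  have h2 := hg.nonneg
  have hd : (f * g).natDegree ≤ N₁ + N₂ := natDegree_mul_le.trans (add_le_add hf.1 hg.1)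
  refine ⟨hd, fun i => ?_⟩
  by_cases hi : i ≤ N₁ + N₂
  · rw [coeff_mul]
    refine (ht_sum _ _).trans ?_
    calc ∑ x ∈ antidiagonal i, ht Q (f.coeff x.1 * g.coeff x.2) ≤
          ∑ x ∈ antidiagonal i, (E₁ + E₂) := by
          apply Finset.sum_le_sum
          intro x _
          refine (ht_mul _ _).trans ?_
          have := hf.2 x.1
          have := hg.2 x.2
          linarith
      _ = (i + 1 : ℕ) * (E₁ + E₂) := by
          rw [Finset.sum_const, Finset.Nat.card_antidiagonal, nsmul_eq_mul]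
      _ ≤ _ := by
          apply mul_le_mul_of_nonneg_right _ (by linarith)
          exact_mod_cast Nat.succ_le_succ hi
  · rw [coeff_eq_zero_of_natDegree_lt (by omega), ht_zero]
    positivity

lemma HB.add {N₁ N₂ : ℕ} {E₁ E₂ : ℤ} {f g : K[X]} (hf : HB Q N₁ E₁ f) (hg : HB Q N₂ E₂ g) :
    HB Q (max N₁ N₂) (E₁ + E₂) (f + g) := by
  refine ⟨(natDegree_add_le _ _).trans (max_le_max hf.1 hg.1), fun i => ?_⟩
  rw [coeff_add]
  refine (ht_add _ _).trans ?_
  have := hf.2 i
  have := hg.2 i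
  linarith

lemma HB.sub {N₁ N₂ : ℕ} {E₁ E₂ : ℤ} {f g : K[X]} (hf : HB Q N₁ E₁ f) (hg : HB Q N₂ E₂ g) :
    HB Q (max N₁ N₂) (E₁ + E₂) (f - g) := by
  refine ⟨(natDegree_sub_le _ _).trans (max_le_max hf.1 hg.1), fun i => ?_⟩
  rw [coeff_sub]
  refine (ht_sub _ _).trans ?_
  have := hf.2 i
  have := hg.2 i
  linarith

lemma HB.deriv {N : ℕ} {E : ℤ} {f : K[X]} (hf : HB Q N E f) : HB Q N E (derivative f) := by
  refine ⟨(natDegree_derivative_le f).trans ((Nat.sub_le _ _).trans hf.1), fun i => ?_⟩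
  rw [coeff_derivative]
  refine (ht_mul _ _).trans ?_
  have h1 : ((i : K) + 1) = ((i + 1 : ℕ) : K) := by push_cast; ring
  rw [h1, ht_nat, add_zero]
  exact hf.2 _

lemma HB.C_mul {N : ℕ} {E E' : ℤ} {f : K[X]} {c : K} (hf : HB Q N E f) (hc : ht Q c ≤ E') :
    HB Q N (E' + E) (C c * f) := by
  refine ⟨(natDegree_C_mul_le _ _).trans hf.1, fun i => ?_⟩
  rw [coeff_C_mul]
  refine (ht_mul _ _).trans ?_
  have := hf.2 i
  linarith

lemma HB.one : HB Q 0 0 (1 : K[X]) := by
  refine ⟨by simp, fun i => ?_⟩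
  rw [coeff_one]
  split_ifs
  · rw [ht_one]
  · rw [ht_zero]

lemma HB.lin {E : ℤ} {a b : K} (ha : ht Q a ≤ E) (hb : ht Q b ≤ E) :
    HB Q 1 E (C a * X + C b) := by
  refine ⟨natDegree_linear_le, fun i => ?_⟩
  have hE : 0 ≤ E := (ht_nonneg _).trans ha
  rw [coeff_add, coeff_C_mul, coeff_X, coeff_C]
  by_cases h1 : i = 1
  · subst h1
    simpa using ha
  · by_cases h0 : i = 0
    · subst h0
      simpa using hb
    · rw [if_neg (fun h => h1 h.symm), if_neg h0, mul_zero, add_zero, ht_zero]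
      exact hE

/-- constants for the powers -/
def cpw : ℕ → ℕ
  | 0 => 0
  | i + 1 => (i + 2) * (cpw i + 1)

lemma cpw_mono {i j : ℕ} (h : i ≤ j) : cpw i ≤ cpw j := by
  induction j, h using Nat.le_induction with
  | base => exact le_rfl
  | succ j _ ih =>
    refine ih.trans ?_
    show cpw j ≤ (j + 2) * (cpw j + 1)
    nlinarith

lemma HB.pow {E : ℤ} {f : K[X]} (hf : HB Q 1 E f) (i : ℕ) : HB Q i (cpw i * E) (f ^ i) := by
  induction i with
  | zero =>
    rw [pow_zero]
    have h := HB.one (Q := Q)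
    refine h.mono le_rfl ?_
    simp [cpw]
  | succ i ih =>
    rw [pow_succ]
    refine (ih.mul hf).mono le_rfl (le_of_eq ?_)
    simp only [cpw]
    push_cast
    ring

/-- the constant for a composition with a Moebius map -/
def chc (d : ℕ) : ℕ := (d + 1) * (1 + (d + 1) * (2 * cpw d))

/-- the coefficients of a composition with a Moebius map -/
lemma HB.hc {d : ℕ} {E : ℤ} {u A B : K[X]} (hu : HB Q d E u) (hA : HB Q 1 E A)
    (hB : HB Q 1 E B) : HB Q d (chc d * E) (hc d u A B) := by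
  have hE := hu.nonneg
  have hterm : ∀ i ∈ range (d + 1), HB Q d ((1 + (d + 1) * (2 * cpw d) : ℕ) * E)
      (C (u.coeff i) * A ^ i * B ^ (d - i)) := by
    intro i hi
    rw [Finset.mem_range] at hi
    rw [mul_assoc]
    have h1 := (hA.pow i).mul (hB.pow (d - i))
    have h2 := h1.C_mul (hu.2 i)
    refine h2.mono (by omega) ?_
    have h3 : (cpw i : ℤ) ≤ cpw d := by exact_mod_cast cpw_mono (by omega : i ≤ d)
    have h4 : (cpw (d - i) : ℤ) ≤ cpw d := by exact_mod_cast cpw_mono (by omega : d - i ≤ d)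
    have h5 : i + (d - i) + 1 = d + 1 := by omega
    rw [h5]
    push_cast
    have h6 : (cpw i : ℤ) * E + cpw (d - i) * E ≤ 2 * cpw d * E := by nlinarith
    have h7 : ((d : ℤ) + 1) * (cpw i * E + cpw (d - i) * E) ≤ (d + 1) * (2 * cpw d * E) :=
      mul_le_mul_of_nonneg_left h6 (by positivity)
    nlinarith
  have hsum : ∀ s ⊆ range (d + 1), HB Q d (s.card * ((1 + (d + 1) * (2 * cpw d) : ℕ) * E))
      (∑ i ∈ s, C (u.coeff i) * A ^ i * B ^ (d - i)) := by
    intro s
    induction s using Finset.induction_on with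
    | empty =>
      intro _
      refine ⟨by simp, fun i => ?_⟩
      simp [ht_zero]
    | insert a s ha ih =>
      intro hs
      rw [Finset.sum_insert ha, Finset.card_insert_of_notMem ha]
      have h1 := hterm a (hs (Finset.mem_insert_self a s))
      have h2 := ih (fun x hx => hs (Finset.mem_insert_of_mem hx))
      refine (h1.add h2).mono (by simp) (le_of_eq ?_)
      push_cast
      ring
  have h := hsum (range (d + 1)) subset_rfl
  rw [Finset.card_range] at h
  have e : Pool.Agent.W277.UH.hc d u A B = ∑ i ∈ range (d + 1), C (u.coeff i) * A ^ i * B ^ (d - i) := by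
    unfold Pool.Agent.W277.UH.hc hev
    apply Finset.sum_congr rfl
    intro i _
    rw [coeff_map]
  rw [e]
  refine h.mono le_rfl (le_of_eq ?_)
  unfold chc
  push_cast
  ring

end

end Pool.Agent.E8helper65.CM
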