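import Pool.Agent.E8helper65.CM.Crt
import Pool.Agent.E8helper71.CP.FinQ
import Pool.Agent.TH951.P.Chain

/-!
# The critical height and the orbits after a conjugation
-/

set_option linter.unusedSectionVars false
set_option linter.unusedVariables false

namespace Pool.Agent.E8helper65.CM

open Polynomial Finset
open Pool.Agent.TH951.W.UB
open Pool.Agent.TH951.W.UB.PlaceData
open Pool.Agent.W277.UH Pool.Agent.Y706.CH Pool.Agent.Y195.CH Pool.Agent.Y676.CH
open Pool.Agent.E8helper88.Mul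

universe u v w

section
variable {k : Type v} {K : Type u} [Field k] [Field K] [Algebra k K] {Q : PlaceData.{w} k K}

/-- the orbit of a point of a stable set -/
lemma P_orbit (d : ℕ) (f g : K[X]) (hf : f.natDegree ≤ d) (hg : g.natDegree ≤ d) (P : Finset K)
    (hP : ∀ z ∈ P, g.eval z ≠ 0 ∧ f.eval z / g.eval z ∈ P) (x : K) (hx : x ∈ P) (m : ℕ) :
    ∃ y ∈ P, ∃ τ : K, τ ≠ 0 ∧ (FH d f g)^[m] (x, 1) = τ • ((y, 1) : K × K) := by
  induction m with
  | zero => exact ⟨x, hx, 1, one_ne_zero, by simp⟩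
  | succ m ih =>
    obtain ⟨y, hy, τ, hτ, h⟩ := ih
    obtain ⟨h1, h2⟩ := hP y hy
    refine ⟨_, h2, τ ^ d * g.eval y, mul_ne_zero (pow_ne_zero _ hτ) h1, ?_⟩
    rw [Function.iterate_succ_apply', h, FH_smul]
    have h3 : FH d f g (y, 1) = (f.eval y, g.eval y) := by
      unfold FH
      rw [hev_one d f hf, hev_one d g hg]
    rw [h3]
    refine Prod.ext ?_ ?_
    · show τ ^ d * f.eval y = τ ^ d * g.eval y * (f.eval y / g.eval y)
      field_simp
    · show τ ^ d * g.eval y = τ ^ d * g.eval y * 1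
      ring

lemma P_fin (d : ℕ) (hd : 1 ≤ d) (f g : K[X]) (hmax : max f.natDegree g.natDegree = d)
    (hco : IsCoprime f g) (P : Finset K)
    (hP : ∀ z ∈ P, g.eval z ≠ 0 ∧ f.eval z / g.eval z ∈ P) (x : K) (hx : x ∈ P) :
    (Set.range fun m : ℕ => (ratP1 f g d)^[m] (some x)).Finite := by
  classical
  refine ((P.finite_toSet).image some).subset ?_
  rintro _ ⟨m, rfl⟩
  have hne : ((x, 1) : K × K) ≠ 0 := fun h => one_ne_zero (congrArg Prod.snd h)
  have h1 := (iter_pt t_PT d hd f g hmax hco (x, 1) hne m).2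
  have hpt : pt ((x, 1) : K × K) = some x := pt_vec (some x)
  obtain ⟨y, hy, τ, hτ, h2⟩ := P_orbit d f g (hmax ▸ le_max_left _ _) (hmax ▸ le_max_right _ _) P
    hP x hx m
  have h3 : (bK d f g)^[m] (x, 1) = τ • ((y, 1) : K × K) := h2
  rw [hpt, h3, pt_smul τ hτ] at h1
  refine ⟨y, hy, ?_⟩
  simp only
  rw [h1]
  exact (pt_vec (some y)).symm

/-- the image of a stable set under a conjugation -/
lemma P_fin_conj (d : ℕ) (hd : 1 ≤ d) (f g u w' : K[X]) (hmax : max f.natDegree g.natDegree = d)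
    (hco : IsCoprime f g) (humax : max u.natDegree w'.natDegree = d) (huw : IsCoprime u w')
    (a b c e s : K) (hdet : a * e - b * c ≠ 0) (hs : s ≠ 0)
    (hconj : ∀ Z, FH d u w' (Ph a b c e Z) = s • Ph a b c e (FH d f g Z)) (P : Finset K)
    (hP : ∀ z ∈ P, g.eval z ≠ 0 ∧ f.eval z / g.eval z ∈ P) (x : K) (hx : x ∈ P) :
    (Set.range fun m : ℕ => (ratP1 u w' d)^[m] (pt (Ph a b c e (x, 1)))).Finite := by
  classical
  refine ((P.finite_toSet).image fun y => pt (Ph a b c e (y, 1))).subset ?_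
  rintro _ ⟨m, rfl⟩
  have hne : ((x, 1) : K × K) ≠ 0 := fun h => one_ne_zero (congrArg Prod.snd h)
  obtain ⟨t, -, -, ht, htt⟩ := FH_conj_iter d f g u w' a b c e s hs hconj
  have h1 := (iter_pt t_PT d hd u w' humax huw (Ph a b c e (x, 1))
    (Ph_ne a b c e hdet _ hne) m).2
  have h2 : (bK d u w')^[m] (Ph a b c e (x, 1)) = t m • Ph a b c e ((FH d f g)^[m] (x, 1)) :=
    htt m (x, 1)
  obtain ⟨y, hy, τ, hτ, h3⟩ := P_orbit d f g (hmax ▸ le_max_left _ _) (hmax ▸ le_max_right _ _) P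
    hP x hx m
  rw [h2, h3, Ph_smul, smul_smul, pt_smul _ (mul_ne_zero (ht m) hτ)] at h1
  exact ⟨y, hy, h1.symm⟩

/-- rescaling the conjugation -/
lemma conj_scale (d : ℕ) (f g u w' : K[X]) (a b c e s : K) (hdet : a * e - b * c ≠ 0)
    (hs : s ≠ 0) (hconj : ∀ Z, FH d u w' (Ph a b c e Z) = s • Ph a b c e (FH d f g Z)) (t : K)
    (ht : t ≠ 0) : (t * a) * (t * e) - (t * b) * (t * c) ≠ 0 ∧ ∃ s' : K, s' ≠ 0 ∧
      ∀ Z, FH d u w' (Ph (t * a) (t * b) (t * c) (t * e) Z) =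
        s' • Ph (t * a) (t * b) (t * c) (t * e) (FH d f g Z) := by
  constructor
  · intro h
    apply mul_ne_zero (pow_ne_zero 2 ht) hdet
    linear_combination h
  · refine ⟨t ^ d * s * t⁻¹, mul_ne_zero (mul_ne_zero (pow_ne_zero _ ht) hs) (inv_ne_zero ht), ?_⟩
    intro Z
    have h1 : ∀ Y : K × K, Ph (t * a) (t * b) (t * c) (t * e) Y = t • Ph a b c e Y := by
      intro Y
      unfold Ph
      refine Prod.ext ?_ ?_
      · show t * a * Y.1 + t * b * Y.2 = t * (a * Y.1 + b * Y.2)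
        ring
      · show t * c * Y.1 + t * e * Y.2 = t * (c * Y.1 + e * Y.2)
        ring
    rw [h1, h1, FH_smul, hconj, smul_smul, smul_smul]
    congr 1
    field_simp

/-- the growth of the heights along the orbit of a critical point -/
lemma growth_crit [Infinite K] (d : ℕ) (hd : 2 ≤ d) (hd0 : (d : K) ≠ 0)
    (f g u w' : K[X]) (hmax : max f.natDegree g.natDegree = d)
    (hco : IsCoprime f g) (humax : max u.natDegree w'.natDegree = d) (huw : IsCoprime u w')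
    (a b c e s : K) (hdet : a * e - b * c ≠ 0) (hs : s ≠ 0)
    (hconj : ∀ Z, FH d u w' (Ph a b c e Z) = s • Ph a b c e (FH d f g Z))
    (E₁ E : ℤ) (ha : ht Q a ≤ E₁) (hb : ht Q b ≤ E₁) (hc' : ht Q c ≤ E₁) (he : ht Q e ≤ E₁)
    (hf : HB Q d E f) (hg : HB Q d E g)
    (n : ℕ) (hn : 1 ≤ n) (x : ℕ → K)
    (hx0 : (wr (itP d u w' n).1 (itP d u w' n).2).eval (x 0) = 0)
    (hx : ∀ j, (itP d u w' n).2.eval (x j) ≠ 0 ∧
          x (j + 1) * (itP d u w' n).2.eval (x j) = (itP d u w' n).1.eval (x j))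
    (J : ℕ) (hJ : 16 * (d + 1) ^ 2 * E + 32 * E₁ ≤ ht Q (x (J + 1)))
    (Cr : Fin (2 * d - 2) → K × K) (hCr : Crit d f g Cr)
    (hr1 : ∀ r, (derivative f * g - f * derivative g).eval r = 0 → ∃ i, pt (Cr i) = some r)
    (hr2 : (derivative f * g - f * derivative g).coeff (2 * d - 2) = 0 → ∃ i, pt (Cr i) = none) :
    ∃ i, ∃ j₁, j₁ ≤ n * (J + 1) ∧ ∀ l : ℕ, (d : ℤ) ^ l * (8 * (d + 1) ^ 2 * E) +
      8 * (d + 1) ^ 2 * E ≤ hto Q (pt ((bK d f g)^[j₁ + l] (Cr i))) := by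
  have hfd : f.natDegree ≤ d := hmax ▸ le_max_left _ _
  have hgd : g.natDegree ≤ d := hmax ▸ le_max_right _ _
  have hud : u.natDegree ≤ d := humax ▸ le_max_left _ _
  have hwd : w'.natDegree ≤ d := humax ▸ le_max_right _ _
  obtain ⟨i₀, hi₀, hW⟩ := crit_vec d (by omega) hd0 u w' hud hwd n (x 0) hx0
  have hne : ((x 0, 1) : K × K) ≠ 0 := fun h => one_ne_zero (congrArg Prod.snd h)
  have hdet' : e * a - (-b) * (-c) ≠ 0 := by
    intro h
    apply hdet
    linear_combination h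
  set Z₀ : K × K := Ph e (-b) (-c) a (x 0, 1) with hZ₀
  have hZ₀0 : Z₀ ≠ 0 := Ph_ne _ _ _ _ hdet' _ hne
  have hPZ : Ph a b c e Z₀ = (a * e - b * c) • ((x 0, 1) : K × K) := Ph_adj a b c e _
  obtain ⟨t, -, -, hnt, htt⟩ := FH_conj_iter d f g u w' a b c e s hs hconj
  have hFZ : ∀ j, (FH d f g)^[j] Z₀ ≠ 0 := fun j => FH_iter_nz d (by omega) f g hmax hco j Z₀ hZ₀0
  have hrel : ∀ j, ∃ σ : K, σ ≠ 0 ∧ Ph a b c e ((FH d f g)^[j] Z₀) =
      σ • (FH d u w')^[j] (x 0, 1) := by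
    intro j
    refine ⟨(t j)⁻¹ * (a * e - b * c) ^ (d ^ j), mul_ne_zero (inv_ne_zero (hnt j))
      (pow_ne_zero _ hdet), ?_⟩
    have h1 := htt j Z₀
    rw [hPZ, FH_iter_smul] at h1
    rw [mul_smul, h1, smul_smul, inv_mul_cancel₀ (hnt j), one_smul]
  -- the critical point
  have hWf : WH d f g ((FH d f g)^[i₀] Z₀) = 0 := by
    obtain ⟨σ, hσ, h1⟩ := hrel i₀
    have h2 := WH_conj d (by omega) hd0 f g u w' hfd hgd hud hwd a b c e s hdet hconj _ (hFZ i₀)
    rw [h1, WH_smul, hW, mul_zero] at h2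
    exact (mul_eq_zero.mp h2.symm).resolve_left (pow_ne_zero 2 hs)
  obtain ⟨i, hi⟩ : ∃ i, pt (Cr i) = pt ((FH d f g)^[i₀] Z₀) := by
    rcases crit_vec2 d (by omega) f g hfd hgd _ (hFZ i₀) hWf with ⟨r, h1, h2⟩ | ⟨h1, h2⟩
    · rw [h1]
      exact hr1 r h2
    · rw [h1]
      exact hr2 h2
  set y : ℕ → Option K := fun j => (ratP1 f g d)^[j] (pt Z₀) with hy
  have hyF : ∀ j, y j = pt ((FH d f g)^[j] Z₀) := fun j =>
    (iter_pt t_PT d (by omega) f g hmax hco Z₀ hZ₀0 j).2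
  have hyJ : 2 * (8 * (d + 1) ^ 2 * E) ≤ hto Q (y (n * (J + 1))) := by
    have h1 := ht_mob (Q := Q) e (-b) (-c) a hdet' E₁ he (by rw [ht_neg]; exact hb)
      (by rw [ht_neg]; exact hc') ha (Ph a b c e ((FH d f g)^[n * (J + 1)] Z₀))
      (Ph_ne a b c e hdet _ (hFZ _))
    rw [Ph_adj' a b c e, pt_smul _ hdet] at h1
    obtain ⟨σ, hσ, h2⟩ := hrel (n * (J + 1))
    rw [← hyF, h2, pt_smul _ hσ] at h1
    have h3 := (iter_pt t_PT d (by omega) u w' humax huw (x 0, 1) hne (n * (J + 1))).2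
    have h4 : pt ((x 0, 1) : K × K) = some (x 0) := pt_vec (some (x 0))
    rw [h4, orbit_pt d (by omega) u w' humax huw n x hx (J + 1)] at h3
    have h5 : pt ((FH d u w')^[n * (J + 1)] (x 0, 1)) = some (x (J + 1)) := h3.symm
    rw [h5] at h1
    have h6 : hto Q (some (x (J + 1))) = ht Q (x (J + 1)) := rfl
    rw [h6] at h1
    linarith
  have hgr := growth Q d hd f g hmax hco E hf.2 hg.2 (8 * (d + 1) ^ 2 * E) rfl y
    (fun j => Function.iterate_succ_apply' _ _ _) (n * (J + 1)) hyJ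
  have hi0 : i₀ ≤ n * (J + 1) := by
    have : n * 1 ≤ n * (J + 1) := Nat.mul_le_mul_left n (by omega)
    omega
  refine ⟨i, n * (J + 1) - i₀, Nat.sub_le _ _, fun l => ?_⟩
  have h1 := (iter_pt t_PT d (by omega) f g hmax hco (Cr i) (hCr.1 i)
    (n * (J + 1) - i₀ + l)).2
  rw [← h1, hi]
  have h2 : (ratP1 f g d)^[n * (J + 1) - i₀ + l] (pt ((FH d f g)^[i₀] Z₀)) =
      y (n * (J + 1) + l) := by
    rw [← hyF i₀]
    simp only [hy]
    rw [← Function.iterate_add_apply]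
    congr 1
    omega
  rw [h2]
  exact hgr l

end

end Pool.Agent.E8helper65.CM
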