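import Pool.Agent.E8helper65.CM.KL1
import Pool.Agent.Y706.CH.FinD
import Pool.Agent.Y706.SB.Stm
import Pool.Agent.Y93.SB.Lb
import Pool.Agent.Y93.SB.Den
import Pool.Agent.Y811.SB.CH
import Pool.Agent.Y614.SB.EF
import Pool.Agent.Y179.BI.Gen
import Pool.Agent.W277.UD.Prim

/-!
# The main inequality over a field generated by points and marked points
-/

set_option linter.unusedSectionVars false
set_option linter.unusedVariables false

namespace Pool.Agent.E8helper65.CM

open Polynomial Finset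
open Pool.Agent.TH951.W.UB
open Pool.Agent.TH951.W.UB.PlaceData
open Pool.Agent.W277.UH Pool.Agent.Y706.CH Pool.Agent.Y195.CH Pool.Agent.Y676.CH
open Pool.Agent.E8helper88.Mul

universe u v w

section
variable {k : Type v} {K : Type u} [Field k] [Field K] [Algebra k K] {Q : PlaceData.{w} k K}

lemma ht_span (T : Finset K) (x : K) (hx : x ∈ Submodule.span k (T : Set K)) :
    ht Q x ≤ ∑ t ∈ T, ht Q t := by
  classical
  rw [Submodule.mem_span_finset] at hx
  obtain ⟨f, -, rfl⟩ := hx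
  refine (ht_sum _ _).trans (Finset.sum_le_sum fun t _ => ?_)
  rw [Algebra.smul_def]
  exact ht_alg_mul _ _

/-- elements of height zero are constants -/
lemma const_of_ht (x : K) (hx : ht Q x = 0) : ∃ c : k, algebraMap k K c = x := by
  classical
  by_cases hl0 : x = 0
  · exact ⟨0, by rw [hl0, map_zero]⟩
  · apply Q.const x hl0
    intro v
    by_contra hv
    push Not at hv
    have h2 : 1 ≤ Q.pole v x := by
      rw [pole_of_ne hl0]
      apply le_max_of_le_right
      omega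
    obtain ⟨S, hS⟩ := exists_supp (Q := Q) {x}
    have h3 := ht_eq x (insert v S) (fun v' hv' => (hS x (Finset.mem_singleton_self _)).1 v'
      (fun h => hv' (Finset.mem_insert_of_mem h)))
    have h4 : Q.wt v * Q.pole v x ≤ ∑ v ∈ insert v S, Q.wt v * Q.pole v x :=
      Finset.single_le_sum (f := fun v => Q.wt v * Q.pole v x)
        (fun v _ => mul_nonneg (Q.wt_nonneg v) (pole_nonneg v x)) (Finset.mem_insert_self v S)
    have h5 : 1 ≤ Q.wt v * Q.pole v x := by nlinarith [Q.wt_one v]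
    omega

/-- the height of a vector from its orders -/
lemma ht_vo [DecidableEq K] (X : K × K) (h : X.2 ≠ 0) (S : Finset Q.Pl)
    (hS : ∀ v, v ∉ S → vo (Q.ord v) X = 0) :
    ∑ v ∈ S, Q.wt v * (-(vo (Q.ord v) X)) = ht Q (X.1 / X.2) := by
  classical
  obtain ⟨S', hS'⟩ := exists_supp (Q := Q) {X.2, X.1 / X.2}
  have h1 := hS' X.2 (by simp)
  have h2 := hS' (X.1 / X.2) (by simp)
  have e1 : ∑ v ∈ S, Q.wt v * (-(vo (Q.ord v) X)) =
      ∑ v ∈ S ∪ S', Q.wt v * (-(vo (Q.ord v) X)) := by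
    apply Finset.sum_subset Finset.subset_union_left
    intro v _ hv
    rw [hS v hv]
    simp
  have hpole : ∀ v, -(vo (Q.ord v) X) = Q.pole v (X.1 / X.2) - Q.ord v X.2 := by
    intro v
    unfold vo
    by_cases h1 : X.1 = 0
    · rw [if_pos h1, h1, zero_div, pole_zero]
      ring
    · rw [if_neg h1, if_neg h, pole_of_ne (div_ne_zero h1 h), PlaceData.ord_div h1 h]
      omega
  have e2 := prod_eq X.2 h (S ∪ S') (fun v hv => h1.2 h v fun h' => hv
    (Finset.mem_union_right _ h'))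
  rw [e1, ht_eq (X.1 / X.2) (S ∪ S') (fun v hv => h2.1 v fun h' => hv
    (Finset.mem_union_right _ h'))]
  calc ∑ v ∈ S ∪ S', Q.wt v * (-(vo (Q.ord v) X)) =
        ∑ v ∈ S ∪ S', (Q.wt v * Q.pole v (X.1 / X.2) - Q.wt v * Q.ord v X.2) := by
        apply Finset.sum_congr rfl
        intro v _
        rw [hpole]
        ring
    _ = _ := by rw [Finset.sum_sub_distrib, e2, sub_zero]

/-- the cross ratios of solutions of a Riccati equation are constant -/
lemma cr_riccati (D : Derivation k K K) (α β γ x₀ x₁ x₂ x : K) (h01 : x₀ ≠ x₁) (h02 : x₀ ≠ x₂)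
    (h12 : x₁ ≠ x₂) (e₀ : D x₀ = α * x₀ ^ 2 + β * x₀ + γ) (e₁ : D x₁ = α * x₁ ^ 2 + β * x₁ + γ)
    (e₂ : D x₂ = α * x₂ ^ 2 + β * x₂ + γ) (e : D x = α * x ^ 2 + β * x + γ) :
    D (Pool.Agent.TH951.P.cr x₀ x₁ x₂ x) = 0 := by
  unfold Pool.Agent.TH951.P.cr
  by_cases hx : x = x₂
  · rw [hx, sub_self, zero_mul, div_zero, map_zero]
  · have g1 : x - x₂ ≠ 0 := sub_ne_zero.mpr hx
    have g2 : x₁ - x₀ ≠ 0 := sub_ne_zero.mpr (Ne.symm h01)
    set c := ((x - x₀) * (x₁ - x₂)) / ((x - x₂) * (x₁ - x₀)) with hc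
    have hcm : c * ((x - x₂) * (x₁ - x₀)) = (x - x₀) * (x₁ - x₂) :=
      div_mul_cancel₀ _ (mul_ne_zero g1 g2)
    have hD := congrArg D hcm
    simp only [Derivation.leibniz, smul_eq_mul, map_sub, e₀, e₁, e₂, e] at hD
    apply mul_left_cancel₀ (mul_ne_zero g1 g2)
    rw [mul_zero]
    linear_combination hD - (α * (x + x₀ + x₁ + x₂) + 2 * β) * hcm

/-- constants for the application -/
lemma isConst_of (d : ℕ) (hd : 1 ≤ d) (f g : K[X]) (hf : f.natDegree ≤ d)
    (hg : g.natDegree = d) (hiso : ¬ ConjConst k f g d) :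
    ∃ a₀ : K, (∀ c : k, a₀ ≠ algebraMap k K c) ∧ ((∃ i, a₀ = f.coeff i) ∨ ∃ i, a₀ = g.coeff i) := by
  by_contra hcon
  push Not at hcon
  apply hiso
  have hg0 : g ≠ 0 := by
    rintro rfl
    simp at hg
    omega
  have key : ∀ a₀ : K, ((∃ i, a₀ = f.coeff i) ∨ ∃ i, a₀ = g.coeff i) →
      ∃ c : k, algebraMap k K c = a₀ := by
    intro a₀ h
    by_contra h2
    push Not at h2
    have h3 := hcon a₀ (fun c h4 => h2 c h4.symm)
    rcases h with ⟨i, h⟩ | ⟨i, h⟩
    · exact h3.1 i h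
    · exact h3.2 i h
  exact conjConst_map k K d f g hf hg.le (Or.inr hg0) (fun i => key _ (Or.inl ⟨i, rfl⟩))
    (fun i => key _ (Or.inr ⟨i, rfl⟩))

/-- a conjugate with constant coefficients -/
lemma conjConst_of_cj [Infinite K] (d : ℕ) (f g u w' : K[X])
    (hf : f.natDegree ≤ d) (hg : g.natDegree ≤ d) (humax : max u.natDegree w'.natDegree = d)
    (huw : IsCoprime u w') (h : CjF d f g u w')
    (hu : ∀ i, ∃ c : k, algebraMap k K c = u.coeff i)
    (hw : ∀ i, ∃ c : k, algebraMap k K c = w'.coeff i) : ConjConst k f g d := by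
  obtain ⟨a, b, c, e, s, hdet, hs, hconj⟩ := h
  have hinj := (algebraMap k K).injective
  obtain ⟨u₀, hu₀⟩ : u ∈ lifts (algebraMap k K) := (lifts_iff_coeff_lifts u).mpr hu
  obtain ⟨w₀, hw₀⟩ : w' ∈ lifts (algebraMap k K) := (lifts_iff_coeff_lifts w').mpr hw
  have hu' : u₀.map (algebraMap k K) = u := hu₀
  have hw' : w₀.map (algebraMap k K) = w' := hw₀
  obtain ⟨h1, h2⟩ := conj_poly d f g u w' hf hg a b c e s hconj
  rw [← hc_eq] at h1 h2
  refine ⟨a, b, c, e, hdet, u₀, w₀, ?_, ?_, ?_, ?_⟩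
  · by_contra hcon
    push Not at hcon
    rw [hcon.1, Polynomial.map_zero] at hu'
    rw [hcon.2, Polynomial.map_zero] at hw'
    rw [← hu', ← hw'] at huw
    exact not_isCoprime_zero_zero huw
  · rw [← natDegree_map_eq_of_injective hinj, hu']
    exact humax ▸ le_max_left _ _
  · rw [← natDegree_map_eq_of_injective hinj, hw']
    exact humax ▸ le_max_right _ _
  · rw [hu', hw', h1, h2]
    ring

end

lemma hLB : Pool.Agent.Y706.SB.S_LB.{u, u} := Pool.Agent.Y93.SB.t_LB Pool.Agent.Y93.SB.t_DEN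
    Pool.Agent.Y811.SB.t_CH Pool.Agent.Y614.SB.EF.t_EF

end Pool.Agent.E8helper65.CM
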