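import Pool.Agent.E8helper88.Mul.Loc3

/-!
# Multipliers and critical heights in large characteristic: counting zeros of logarithmic
derivatives in discs (port of `E8helper88.Mul.Loc1`)
-/

set_option linter.unusedSectionVars false
set_option linter.unusedVariables false

namespace Pool.Agent.E8helper65.CM

open Polynomial Finset
open Pool.Agent.E8helper88.Mul

section
variable {Ω : Type*} [NormedField Ω] [IsUltrametricDist Ω]

lemma norm_int_one {P : ℕ} (hnat : ∀ n : ℕ, n ≠ 0 → n ≤ P → ‖(n : Ω)‖ = 1) {z : ℤ} (hz : z ≠ 0)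
    (hzP : z.natAbs ≤ P) : ‖(z : Ω)‖ = 1 := by
  have h0 := hnat z.natAbs (Int.natAbs_ne_zero.mpr hz) hzP
  rcases Int.natAbs_eq z with h | h
  · rw [h, Int.cast_natCast]
    exact h0
  · rw [h, Int.cast_neg, norm_neg, Int.cast_natCast]
    exact h0

lemma norm_int_le (z : ℤ) : ‖(z : Ω)‖ ≤ 1 := IsUltrametricDist.norm_intCast_le_one Ω z

end

section num
variable {K : Type*} [Field K] [DecidableEq K]

lemma Num_natDegree (S : Finset K) (n : K → ℤ) (hS : ∑ s ∈ S, n s ≠ 0)
    (hS' : ((∑ s ∈ S, n s : ℤ) : K) ≠ 0) : (Num S n).natDegree = S.card - 1 := by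
  have hne : S.Nonempty := by
    rw [Finset.nonempty_iff_ne_empty]
    rintro rfl
    simp at hS
  apply le_antisymm (Num_natDegree_le S n)
  apply le_natDegree_of_ne_zero
  rw [Num_coeff S n hne]
  exact hS'

end num

section count
variable {Ω : Type*} [NormedField Ω] [IsUltrametricDist Ω] [IsAlgClosed Ω] [DecidableEq Ω]

/-- (F): in an open disc in which the sum of the weights is not zero the logarithmic derivative
has one zero less than poles. -/
theorem count_disc {P : ℕ} (hnat : ∀ n : ℕ, n ≠ 0 → n ≤ P → ‖(n : Ω)‖ = 1) (hnt : ∃ π : Ω, π ≠ 0 ∧ ‖π‖ ≠ 1)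
    (S : Finset Ω) (n : Ω → ℤ)
    (hSP : ∑ s ∈ S, (n s).natAbs ≤ P) (hS : ∑ s ∈ S, n s ≠ 0) (a : Ω) (ρ : ℝ) (hρ : 0 < ρ)
    (hB : ∑ s ∈ S.filter (fun s => ‖s - a‖ < ρ), n s ≠ 0) :
    ((Num S n).roots.filter fun c => ‖c - a‖ < ρ).card + 1 =
      (S.filter fun s => ‖s - a‖ < ρ).card := by
  classical
  have hsub : ∀ B ⊆ S, (∑ s ∈ B, n s).natAbs ≤ P := fun B hB =>
    (Int.natAbs_sum_le _ _).trans ((Finset.sum_le_sum_of_subset hB).trans hSP)
  have hS' : ((∑ s ∈ S, n s : ℤ) : Ω) ≠ 0 := by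
    intro h
    have := norm_int_one hnat hS (hsub S subset_rfl)
    rw [h, norm_zero] at this
    exact zero_ne_one this
  set N := Num S n with hN
  have hlc : N.leadingCoeff = ((∑ s ∈ S, n s : ℤ) : Ω) := by
    rw [leadingCoeff, Num_natDegree S n hS hS', Num_coeff S n]
    rw [Finset.nonempty_iff_ne_empty]
    rintro rfl
    simp at hS
  have hlc1 : ‖N.leadingCoeff‖ = 1 := by
    rw [hlc]
    exact norm_int_one hnat hS (hsub S subset_rfl)
  have hN0 : N ≠ 0 := by
    intro h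
    rw [h, leadingCoeff_zero, norm_zero] at hlc1
    exact zero_ne_one hlc1
  -- the inner radius
  set E : Finset Ω := (S ∪ N.roots.toFinset).filter fun c => ‖c - a‖ < ρ with hE
  obtain ⟨r₀, hr₀, hr₀ρ, hr₀E⟩ : ∃ r₀ : ℝ, 0 < r₀ ∧ r₀ < ρ ∧ ∀ c ∈ E, ‖c - a‖ ≤ r₀ := by
    rcases E.eq_empty_or_nonempty with h | h
    · exact ⟨ρ / 2, by linarith, by linarith, by rw [h]; simp⟩
    · obtain ⟨c, hc, hmax⟩ := E.exists_max_image (fun c => ‖c - a‖) h
      rw [hE, Finset.mem_filter] at hc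
      refine ⟨max ‖c - a‖ (ρ / 2), lt_max_of_lt_right (by linarith),
        max_lt hc.2 (by linarith), fun c' hc' => (hmax c' hc').trans (le_max_left _ _)⟩
  have key : ∀ x : Ω, r₀ < ‖x - a‖ → ‖x - a‖ < ρ →
      ‖x - a‖ ^ (N.roots.filter fun c => ‖c - a‖ < ρ).card *
        ((N.roots.filter fun c => ¬ ‖c - a‖ < ρ).map fun c => ‖c - a‖).prod =
      (‖x - a‖ ^ (S.filter fun c => ‖c - a‖ < ρ).card *
        ((S.val.filter fun c => ¬ ‖c - a‖ < ρ).map fun c => ‖c - a‖).prod) * (‖x - a‖)⁻¹ := by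
    intro x hx1 hx2
    have hxpos : 0 < ‖x - a‖ := hr₀.trans hx1
    have hxS : x ∉ S := by
      intro h
      have : x ∈ E := by
        rw [hE, Finset.mem_filter, Finset.mem_union]
        exact ⟨Or.inl h, hx2⟩
      linarith [hr₀E x this]
    have h1 := prod_norm_gen N.roots a x ‖x - a‖ ρ rfl hx2 (by
      intro c hc hcρ
      have : c ∈ E := by
        rw [hE, Finset.mem_filter, Finset.mem_union, Multiset.mem_toFinset]
        exact ⟨Or.inr hc, hcρ⟩
      linarith [hr₀E c this])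
    have h2 := prod_norm_gen S.val a x ‖x - a‖ ρ rfl hx2 (by
      intro c hc hcρ
      have : c ∈ E := by
        rw [hE, Finset.mem_filter, Finset.mem_union]
        exact ⟨Or.inl hc, hcρ⟩
      linarith [hr₀E c this])
    -- the value of the numerator
    have h3 : ‖N.eval x‖ = (N.roots.map fun c => ‖x - c‖).prod := by
      have h4 := IsAlgClosed.splits N
      rw [h4.eval_eq_prod_roots, norm_mul, hlc1, one_mul, norm_prod_map]
    have h5 : ‖N.eval x‖ = (S.val.map fun c => ‖x - c‖).prod * (‖x - a‖)⁻¹ := by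
      rw [hN, Num_eval S n x hxS, norm_mul, norm_prod]
      congr 1
      have hxa : x - a ≠ 0 := norm_pos_iff.mp hxpos
      set B := S.filter fun s => ‖s - a‖ < ρ with hBdef
      have hsplit : ∑ s ∈ S, (n s : Ω) / (x - s) =
          ((∑ s ∈ B, n s : ℤ) : Ω) / (x - a) +
          (∑ s ∈ B, (n s : Ω) * ((s - a) / ((x - s) * (x - a))) +
            ∑ s ∈ S.filter (fun s => ¬ ‖s - a‖ < ρ), (n s : Ω) / (x - s)) := by
        rw [← Finset.sum_filter_add_sum_filter_not S (fun s => ‖s - a‖ < ρ), ← add_assoc]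
        congr 1
        rw [Int.cast_sum, Finset.sum_div, ← Finset.sum_add_distrib]
        apply Finset.sum_congr rfl
        intro s hs
        rw [Finset.mem_filter] at hs
        have hxs : x - s ≠ 0 := sub_ne_zero.mpr fun h => hxS (h ▸ hs.1)
        field_simp
        ring
      have hpos : 0 < (‖x - a‖)⁻¹ := inv_pos.mpr hxpos
      have hmain : ‖((∑ s ∈ B, n s : ℤ) : Ω) / (x - a)‖ = (‖x - a‖)⁻¹ := by
        rw [norm_div, norm_int_one hnat hB (hsub B (Finset.filter_subset _ _)), one_div]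
      rw [hsplit, norm_add_eq_left, hmain]
      rw [hmain]
      refine (IsUltrametricDist.norm_add_le_max _ _).trans_lt (max_lt ?_ ?_)
      · apply norm_sum_lt_ult _ _ hpos
        intro s hs
        rw [hBdef, Finset.mem_filter] at hs
        have hsE : s ∈ E := by
          rw [hE, Finset.mem_filter, Finset.mem_union]
          exact ⟨Or.inl hs.1, hs.2⟩
        have h6 := hr₀E s hsE
        have h7 : ‖x - s‖ = ‖x - a‖ := by
          have h8 : x - s = (x - a) - (s - a) := by ring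
          rw [h8, norm_sub_eq_left (by linarith)]
        rw [norm_mul, norm_div, norm_mul, h7]
        calc ‖(n s : Ω)‖ * (‖s - a‖ / (‖x - a‖ * ‖x - a‖))
            ≤ 1 * (‖s - a‖ / (‖x - a‖ * ‖x - a‖)) := by
              apply mul_le_mul_of_nonneg_right (norm_int_le _) (by positivity)
          _ = (‖s - a‖ / ‖x - a‖) * (‖x - a‖)⁻¹ := by
              field_simp
          _ < 1 * (‖x - a‖)⁻¹ := by
              apply mul_lt_mul_of_pos_right _ hpos
              rw [div_lt_one hxpos]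
              linarith
          _ = _ := one_mul _
      · apply norm_sum_lt_ult _ _ hpos
        intro s hs
        rw [Finset.mem_filter, not_lt] at hs
        have h7 : ‖x - s‖ = ‖s - a‖ := by
          have h8 : x - s = (x - a) - (s - a) := by ring
          rw [h8, norm_sub_eq_right (by linarith)]
        rw [norm_div, h7]
        calc ‖(n s : Ω)‖ / ‖s - a‖ ≤ 1 / ‖s - a‖ := by
              apply div_le_div_of_nonneg_right (norm_int_le _) (norm_nonneg _)
          _ ≤ 1 / ρ := by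
              apply one_div_le_one_div_of_le hρ hs.2
          _ < 1 / ‖x - a‖ := one_div_lt_one_div_of_lt hxpos hx2
          _ = _ := one_div _
    rw [← h1, ← h3, h5, h2]
    rfl
  -- two values of the radius
  obtain ⟨x₁, hx₁, hx₁'⟩ := exists_between_norm (Ω := Ω) hnt hr₀ hr₀ρ
  obtain ⟨x₂, hx₂, hx₂'⟩ := exists_between_norm (Ω := Ω) hnt (hr₀.trans hx₁) hx₁'
  have k1 := key (x₁ + a) (by simpa using hx₁) (by simpa using hx₁')
  have k2 := key (x₂ + a) (by simpa using hx₁.trans hx₂) (by simpa using hx₂')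
  rw [add_sub_cancel_right] at k1 k2
  set A := (N.roots.filter fun c => ‖c - a‖ < ρ).card with hA
  set B := (S.filter fun c => ‖c - a‖ < ρ).card with hBd
  have hK1 : 0 < ((N.roots.filter fun c => ¬ ‖c - a‖ < ρ).map fun c => ‖c - a‖).prod := by
    apply Multiset.prod_induction (fun z : ℝ => 0 < z) _ (fun a b ha hb => mul_pos ha hb)
      zero_lt_one
    intro z hz
    rw [Multiset.mem_map] at hz
    obtain ⟨c, hc, rfl⟩ := hz
    rw [Multiset.mem_filter, not_lt] at hc
    linarith [hc.2]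
  have hK2 : 0 < ((S.val.filter fun c => ¬ ‖c - a‖ < ρ).map fun c => ‖c - a‖).prod := by
    apply Multiset.prod_induction (fun z : ℝ => 0 < z) _ (fun a b ha hb => mul_pos ha hb)
      zero_lt_one
    intro z hz
    rw [Multiset.mem_map] at hz
    obtain ⟨c, hc, rfl⟩ := hz
    rw [Multiset.mem_filter, not_lt] at hc
    linarith [hc.2]
  set K1 := ((N.roots.filter fun c => ¬ ‖c - a‖ < ρ).map fun c => ‖c - a‖).prod
  set K2 := ((S.val.filter fun c => ¬ ‖c - a‖ < ρ).map fun c => ‖c - a‖).prod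
  have hp1 : 0 < ‖x₁‖ := hr₀.trans hx₁
  have hp2 : 0 < ‖x₂‖ := hp1.trans hx₂
  have e1 : ‖x₁‖ ^ (A + 1) * K1 = ‖x₁‖ ^ B * K2 := by
    rw [pow_succ]
    field_simp at k1 ⊢
    linarith
  have e2 : ‖x₂‖ ^ (A + 1) * K1 = ‖x₂‖ ^ B * K2 := by
    rw [pow_succ]
    field_simp at k2 ⊢
    linarith
  have e3 : (‖x₂‖ / ‖x₁‖) ^ (A + 1) = (‖x₂‖ / ‖x₁‖) ^ B := by
    rw [div_pow, div_pow, div_eq_div_iff (by positivity) (by positivity)]
    have : (‖x₂‖ ^ (A + 1) * ‖x₁‖ ^ B) * (K1 * K2) = (‖x₂‖ ^ B * ‖x₁‖ ^ (A + 1)) * (K1 * K2) := by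
      calc (‖x₂‖ ^ (A + 1) * ‖x₁‖ ^ B) * (K1 * K2)
          = (‖x₂‖ ^ (A + 1) * K1) * (‖x₁‖ ^ B * K2) := by ring
        _ = (‖x₂‖ ^ B * K2) * (‖x₁‖ ^ (A + 1) * K1) := by rw [e1, e2]
        _ = _ := by ring
    exact mul_right_cancel₀ (mul_pos hK1 hK2).ne' this
  have h21 : 1 < ‖x₂‖ / ‖x₁‖ := (one_lt_div hp1).mpr hx₂
  exact (pow_right_injective₀ (by linarith) h21.ne') e3

end count

end Pool.Agent.E8helper65.CM
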