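import Pool.Agent.E8helper65.CM.Loc1

/-!
# Multipliers and critical heights in large characteristic: a critical point at the right distance
(port of `E8helper88.Mul.Loc2`)
-/

set_option linter.unusedSectionVars false
set_option linter.unusedVariables false

namespace Pool.Agent.E8helper65.CM

open Polynomial Finset
open Pool.Agent.E8helper88.Mul

section
variable {Ω : Type*} [NormedField Ω] [IsUltrametricDist Ω] [IsAlgClosed Ω] [DecidableEq Ω]

/-- The main counting argument. -/
theorem exists_free_zero {P : ℕ} (hnat : ∀ n : ℕ, n ≠ 0 → n ≤ P → ‖(n : Ω)‖ = 1)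
    (hnt : ∃ π : Ω, π ≠ 0 ∧ ‖π‖ ≠ 1) (S : Finset Ω) (n : Ω → ℤ)
    (hSP : ∑ s ∈ S, (n s).natAbs ≤ P) (hn : ∀ s ∈ S, n s ≠ 0)
    (h0 : (0 : Ω) ∈ S) (hn0 : n 0 = 1) (hS : ∑ s ∈ S, n s ≠ 0) (s₁ : Ω) (hs₁ : s₁ ∈ S)
    (hs₁0 : s₁ ≠ 0) (hmin : ∀ s ∈ S, s ≠ 0 → ‖s₁‖ ≤ ‖s‖) :
    ∃ c, c ∉ S ∧ (Num S n).eval c = 0 ∧
      ∏ s ∈ S, ‖s - c‖ ^ (n s) = ‖s₁‖ * ∏ s ∈ S.erase 0, ‖s‖ ^ (n s) := by
  classical
  have hS' : ((∑ s ∈ S, n s : ℤ) : Ω) ≠ 0 := by
    intro h
    have := norm_int_one hnat hS ((Int.natAbs_sum_le _ _).trans hSP)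
    rw [h, norm_zero] at this
    exact zero_ne_one this
  set N := Num S n with hN
  have hSne : S.Nonempty := ⟨0, h0⟩
  have hdeg : N.natDegree = S.card - 1 := Num_natDegree S n hS hS'
  have hN0 : N ≠ 0 := by
    intro h
    have h1 := Num_coeff S n hSne
    rw [← hN, h, coeff_zero] at h1
    exact hS' h1.symm
  have hs₁pos : 0 < ‖s₁‖ := norm_pos_iff.mpr hs₁0
  -- the closed sums
  set Fc : ℝ → ℤ := fun r => ∑ s ∈ S.filter (fun s => ‖s‖ ≤ r), n s with hFc
  set Rs : Finset Ω := S.filter fun s => ‖s₁‖ ≤ ‖s‖ ∧ Fc ‖s‖ ≠ 0 with hRs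
  have hRsne : Rs.Nonempty := by
    obtain ⟨m, hm, hmax⟩ := S.exists_max_image (fun s => ‖s‖) hSne
    refine ⟨m, ?_⟩
    rw [hRs, Finset.mem_filter]
    refine ⟨hm, hmax s₁ hs₁, ?_⟩
    have : S.filter (fun s => ‖s‖ ≤ ‖m‖) = S := Finset.filter_true_of_mem hmax
    simp only [hFc]
    rw [this]
    exact hS
  obtain ⟨m₁, hm₁, hm₁min⟩ := Rs.exists_min_image (fun s => ‖s‖) hRsne
  rw [hRs, Finset.mem_filter] at hm₁
  set r₁ := ‖m₁‖ with hr₁
  have hr₁pos : 0 < r₁ := hs₁pos.trans_le hm₁.2.1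
  -- the sums around 0
  have hF0 : ∀ ρ, ‖s₁‖ < ρ → ρ ≤ r₁ → FF S n 0 ρ = 0 := by
    intro ρ h1 h2
    set V := S.filter fun s => ‖s‖ < ρ with hV
    have hVs : s₁ ∈ V := Finset.mem_filter.mpr ⟨hs₁, h1⟩
    obtain ⟨m, hm, hmax⟩ := V.exists_max_image (fun s => ‖s‖) ⟨s₁, hVs⟩
    rw [hV, Finset.mem_filter] at hm
    have h3 : FF S n 0 ρ = Fc ‖m‖ := by
      unfold FF
      simp only [hFc, sub_zero]
      apply Finset.sum_congr _ fun _ _ => rfl
      apply Finset.filter_congr
      intro s hs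
      constructor
      · intro h
        exact hmax s (Finset.mem_filter.mpr ⟨hs, h⟩)
      · intro h
        exact h.trans_lt hm.2
    rw [h3]
    by_contra hne
    have h4 := hm₁min m (by
      rw [hRs, Finset.mem_filter]
      exact ⟨hm.1, hmax s₁ hVs, hne⟩)
    linarith [hm.2]
  -- the points in the closed disc
  set T := S.filter fun s => ‖s‖ ≤ r₁ with hT
  have hT0 : (0 : Ω) ∈ T := by
    rw [hT, Finset.mem_filter, norm_zero]
    exact ⟨h0, hr₁pos.le⟩
  have hTs₁ : s₁ ∈ T := by
    rw [hT, Finset.mem_filter]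
    exact ⟨hs₁, hm₁.2.1⟩
  have hcount : (N.roots.filter fun c => ‖c‖ ≤ r₁).card + 1 = T.card := by
    -- a slightly larger open disc
    set U := (S ∪ N.roots.toFinset).filter fun c => r₁ < ‖c‖ with hU
    obtain ⟨ρ, hρ1, hρ2⟩ : ∃ ρ, r₁ < ρ ∧ ∀ c ∈ U, ρ ≤ ‖c‖ := by
      rcases U.eq_empty_or_nonempty with h | h
      · exact ⟨r₁ + 1, by linarith, by rw [h]; simp⟩
      · obtain ⟨m, hm, hmn⟩ := U.exists_min_image (fun c => ‖c‖) h
        rw [hU, Finset.mem_filter] at hm
        exact ⟨‖m‖, hm.2, hmn⟩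
    have e1 : ∀ c, c ∈ S ∨ c ∈ N.roots → (‖c - 0‖ < ρ ↔ ‖c‖ ≤ r₁) := by
      intro c hc
      rw [sub_zero]
      constructor
      · intro h
        by_contra h2
        push Not at h2
        have := hρ2 c (by
          rw [hU, Finset.mem_filter, Finset.mem_union, Multiset.mem_toFinset]
          exact ⟨hc, h2⟩)
        linarith
      · intro h
        linarith
    have e2 : S.filter (fun s => ‖s - 0‖ < ρ) = T :=
      Finset.filter_congr fun s hs => e1 s (Or.inl hs)
    have e3 : (N.roots.filter fun c => ‖c - 0‖ < ρ) = N.roots.filter fun c => ‖c‖ ≤ r₁ :=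
      Multiset.filter_congr fun s hs => e1 s (Or.inr hs)
    have h1 := count_disc hnat hnt S n hSP hS 0 ρ (hr₁pos.trans hρ1) (by
      rw [e2]
      exact hm₁.2.2)
    rw [← hN, e2, e3] at h1
    exact h1
  -- there is a free zero
  obtain ⟨c, hcN, hcr, hfree⟩ : ∃ c ∈ N.roots, ‖c‖ ≤ r₁ ∧ ∀ ρ, 0 < ρ → ρ ≤ r₁ →
      FF S n c ρ = 0 := by
    by_contra hcon
    push Not at hcon
    set U := S ∪ N.roots.toFinset with hU
    -- maximal discs
    have hmaxr : ∀ s : Ω, ∃ ρ, s ∈ T → (0 < ρ ∧ ρ ≤ r₁ ∧ FF S n s ρ ≠ 0 ∧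
        ∀ ρ', 0 < ρ' → ρ' ≤ r₁ → FF S n s ρ' ≠ 0 → ∀ x ∈ U, ‖x - s‖ < ρ' → ‖x - s‖ < ρ) := by
      intro s
      by_cases hsT : s ∈ T
      · obtain ⟨ρ, hρ, hmax⟩ := exists_max_radius U (fun x => ‖x - s‖)
          {ρ | 0 < ρ ∧ ρ ≤ r₁ ∧ FF S n s ρ ≠ 0} (by
            obtain ⟨ρ, h1, h2, h3⟩ := exists_small_disc S s r₁ hr₁pos
            refine ⟨ρ, h1, h2, ?_⟩
            have hsS := (Finset.mem_filter.mp hsT).1
            have : S.filter (fun t => ‖t - s‖ < ρ) = {s} := by
              ext t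
              rw [Finset.mem_filter, Finset.mem_singleton]
              constructor
              · intro h
                exact h3 t h.1 h.2
              · rintro rfl
                exact ⟨hsS, by rw [sub_self, norm_zero]; exact h1⟩
            unfold FF
            rw [this, Finset.sum_singleton]
            exact hn s hsS)
        exact ⟨ρ, fun _ => ⟨hρ.1, hρ.2.1, hρ.2.2, fun ρ' h1 h2 h3 => hmax ρ' ⟨h1, h2, h3⟩⟩⟩
      · exact ⟨0, fun h => absurd h hsT⟩
    choose rad hrad using hmaxr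
    have hTU : ∀ s ∈ T, s ∈ U := fun s hs =>
      Finset.mem_union_left _ (Finset.mem_filter.mp hs).1
    -- discs around points of the same disc
    have hsame : ∀ s ∈ T, ∀ t ∈ T, ‖t - s‖ < rad s → ∀ x ∈ U,
        (‖x - t‖ < rad t ↔ ‖x - s‖ < rad s) := by
      intro s hs t ht hts x hx
      obtain ⟨a1, a2, a3, a4⟩ := hrad s hs
      obtain ⟨b1, b2, b3, b4⟩ := hrad t ht
      have hst : ‖s - t‖ < rad s := by rwa [norm_sub_rev]
      have h1 : FF S n t (rad s) ≠ 0 := by
        rw [FF_eq S n hts]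
        exact a3
      have h2 := b4 (rad s) a1 a2 h1
      have h3 : ‖s - t‖ < rad t := h2 s (hTU s hs) hst
      have h4 : FF S n s (rad t) ≠ 0 := by
        rw [FF_eq S n h3]
        exact b3
      have h5 := a4 (rad t) b1 b2 h4
      constructor
      · intro h
        apply h5 x hx
        have : x - s = (x - t) - (s - t) := by ring
        rw [this]
        exact (norm_sub_ult _ _).trans_lt (max_lt h h3)
      · intro h
        apply h2 x hx
        have : x - t = (x - s) - (t - s) := by ring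
        rw [this]
        exact (norm_sub_ult _ _).trans_lt (max_lt h hts)
    set κ : Ω → Finset Ω := fun s => T.filter fun t => ‖t - s‖ < rad s with hκ
    have hself : ∀ s ∈ T, s ∈ κ s := by
      intro s hs
      rw [hκ]
      simp only [Finset.mem_filter]
      refine ⟨hs, ?_⟩
      rw [sub_self, norm_zero]
      exact (hrad s hs).1
    have hκeq : ∀ s ∈ T, ∀ t ∈ T, t ∈ κ s → κ t = κ s := by
      intro s hs t ht hts
      simp only [hκ, Finset.mem_filter] at hts
      simp only [hκ]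
      apply Finset.filter_congr
      intro x hx
      exact hsame s hs t ht hts.2 x (hTU x hx)
    set 𝓑 := T.image κ with h𝓑
    have hTcard : T.card = ∑ b ∈ 𝓑, b.card := by
      rw [Finset.card_eq_sum_card_image κ T]
      apply Finset.sum_congr rfl
      intro b hb
      rw [Finset.mem_image] at hb
      obtain ⟨s, hs, rfl⟩ := hb
      congr 1
      ext t
      rw [Finset.mem_filter]
      constructor
      · rintro ⟨ht, hts⟩
        rw [← hts]
        exact hself t ht
      · intro ht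
        have htT : t ∈ T := by
          simp only [hκ, Finset.mem_filter] at ht
          exact ht.1
        exact ⟨htT, hκeq s hs t htT ht⟩
    -- zeros in the maximal discs
    have hroots : ∀ s ∈ T, (N.roots.filter fun c => ‖c - s‖ < rad s).card + 1 = (κ s).card := by
      intro s hs
      obtain ⟨a1, a2, a3, -⟩ := hrad s hs
      have h1 := count_disc hnat hnt S n hSP hS s (rad s) a1 a3
      rw [← hN] at h1
      rw [h1]
      congr 1
      simp only [hκ]
      ext t
      rw [Finset.mem_filter, Finset.mem_filter, hT, Finset.mem_filter]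
      constructor
      · rintro ⟨ht, hts⟩
        refine ⟨⟨ht, ?_⟩, hts⟩
        have hsr := (Finset.mem_filter.mp hs).2
        have : t = (t - s) + s := by ring
        rw [this]
        exact (IsUltrametricDist.norm_add_le_max _ _).trans (max_le (hts.le.trans a2) hsr)
      · rintro ⟨⟨ht, -⟩, hts⟩
        exact ⟨ht, hts⟩
    -- every zero in the closed disc lies in a maximal disc
    set M := N.roots.filter fun c => ‖c‖ ≤ r₁ with hM
    have hle := card_le_sum M 𝓑 (fun b c => ∃ s ∈ T, κ s = b ∧ ‖c - s‖ < rad s) (by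
      intro c hc
      rw [hM, Multiset.mem_filter] at hc
      obtain ⟨ρ, h1, h2, h3⟩ := hcon c hc.1 hc.2
      obtain ⟨s, hs⟩ : (S.filter fun s => ‖s - c‖ < ρ).Nonempty := by
        rw [Finset.nonempty_iff_ne_empty]
        intro h
        apply h3
        unfold FF
        rw [h, Finset.sum_empty]
      rw [Finset.mem_filter] at hs
      have hsT : s ∈ T := by
        rw [hT, Finset.mem_filter]
        refine ⟨hs.1, ?_⟩
        have : s = (s - c) + c := by ring
        rw [this]
        exact (IsUltrametricDist.norm_add_le_max _ _).trans (max_le (hs.2.le.trans h2) hc.2)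
      refine ⟨κ s, Finset.mem_image_of_mem κ hsT, s, hsT, rfl, ?_⟩
      apply (hrad s hsT).2.2.2 ρ h1 h2
      · rw [FF_eq S n hs.2]
        exact h3
      · rw [hU, Finset.mem_union, Multiset.mem_toFinset]
        exact Or.inr hc.1
      · rw [norm_sub_rev]
        exact hs.2)
    have hle2 : ∀ b ∈ 𝓑, (M.filter fun c => ∃ s ∈ T, κ s = b ∧ ‖c - s‖ < rad s).card + 1 ≤
        b.card := by
      intro b hb
      rw [h𝓑, Finset.mem_image] at hb
      obtain ⟨s, hs, rfl⟩ := hb
      rw [← hroots s hs]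
      apply Nat.succ_le_succ
      rw [hM, Multiset.filter_filter]
      apply Multiset.card_le_card
      rw [Multiset.le_filter]
      refine ⟨Multiset.filter_le _ _, ?_⟩
      intro c hc
      rw [Multiset.mem_filter] at hc
      obtain ⟨hcN, ⟨t, ht, hts, hct⟩, -⟩ := hc
      have htκ : t ∈ κ s := by
        rw [← hts]
        exact hself t ht
      simp only [hκ, Finset.mem_filter] at htκ
      refine (hsame s hs t ht htκ.2 c ?_).mp hct
      rw [hU, Finset.mem_union, Multiset.mem_toFinset]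
      exact Or.inr hcN
    have hle3 : ∑ b ∈ 𝓑, ((M.filter fun c => ∃ s ∈ T, κ s = b ∧ ‖c - s‖ < rad s).card + 1) ≤
        T.card := by
      rw [hTcard]
      exact Finset.sum_le_sum hle2
    rw [Finset.sum_add_distrib, Finset.sum_const, smul_eq_mul, mul_one] at hle3
    -- two different discs
    have h2 : 1 < 𝓑.card := by
      refine Finset.one_lt_card.mpr ⟨κ 0, Finset.mem_image_of_mem κ hT0, κ s₁,
        Finset.mem_image_of_mem κ hTs₁, ?_⟩
      intro heq
      have h3 : s₁ ∈ κ 0 := by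
        rw [heq]
        exact hself s₁ hTs₁
      simp only [hκ, Finset.mem_filter, sub_zero] at h3
      obtain ⟨-, a2, a3, -⟩ := hrad 0 hT0
      exact a3 (hF0 _ h3.2 a2)
    omega
  -- the value at the free zero
  have hcS : c ∉ S := by
    intro hcS
    obtain ⟨ρ, h1, h2, h3⟩ := exists_small_disc S c r₁ hr₁pos
    have h4 := hfree ρ h1 h2
    have : S.filter (fun t => ‖t - c‖ < ρ) = {c} := by
      ext t
      rw [Finset.mem_filter, Finset.mem_singleton]
      constructor
      · intro h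
        exact h3 t h.1 h.2
      · rintro rfl
        exact ⟨hcS, by rw [sub_self, norm_zero]; exact h1⟩
    unfold FF at h4
    rw [this, Finset.sum_singleton] at h4
    exact hn c hcS h4
  refine ⟨c, hcS, (mem_roots hN0).mp hcN, ?_⟩
  -- the two products
  have hT1 : S.filter (fun s => ‖s - c‖ ≤ r₁) = T := by
    rw [hT]
    apply Finset.filter_congr
    intro s _
    constructor
    · intro h
      have : s = (s - c) + c := by ring
      rw [this]
      exact (IsUltrametricDist.norm_add_le_max _ _).trans (max_le h hcr)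
    · intro h
      exact (norm_sub_ult _ _).trans (max_le h hcr)
  set δ₀ : Ω → ℝ := fun s => max ‖s‖ ‖s₁‖ with hδ₀
  have hT2 : S.filter (fun s => δ₀ s ≤ r₁) = T := by
    rw [hT]
    apply Finset.filter_congr
    intro s _
    simp only [hδ₀]
    rw [max_le_iff]
    exact ⟨fun h => h.1, fun h => ⟨h, hm₁.2.1⟩⟩
  have p1 := shell_prod n (fun s => ‖s - c‖) S r₁ hr₁pos (by
    intro s hs
    exact norm_pos_iff.mpr (sub_ne_zero.mpr fun h => hcS (h ▸ hs))) hfree
  have p2 := shell_prod n δ₀ S r₁ hr₁pos (by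
    intro s hs
    exact lt_max_of_lt_right hs₁pos) (by
    intro ρ h1 h2
    by_cases h3 : ‖s₁‖ < ρ
    · have h4 := hF0 ρ h3 h2
      unfold FF at h4
      rw [← h4]
      apply Finset.sum_congr _ fun _ _ => rfl
      apply Finset.filter_congr
      intro s _
      simp only [hδ₀, sub_zero]
      rw [max_lt_iff]
      exact ⟨fun h => h.1, fun h => ⟨h, h3⟩⟩
    · push Not at h3
      rw [Finset.filter_false_of_mem, Finset.sum_empty]
      intro s _
      simp only [hδ₀]
      rw [max_lt_iff]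
      intro h
      linarith [h.2])
  have hR : ‖s₁‖ * ∏ s ∈ S.erase 0, ‖s‖ ^ (n s) = ∏ s ∈ S, (δ₀ s) ^ (n s) := by
    rw [← Finset.mul_prod_erase S _ h0, hn0, zpow_one]
    congr 1
    · simp only [hδ₀]
      rw [norm_zero, max_eq_right (norm_nonneg _)]
    · apply Finset.prod_congr rfl
      intro s hs
      simp only [hδ₀]
      rw [max_eq_left (hmin s (Finset.mem_of_mem_erase hs) (Finset.ne_of_mem_erase hs))]
  rw [hR, ← Finset.prod_filter_mul_prod_filter_not S (fun s => ‖s - c‖ ≤ r₁),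
    ← Finset.prod_filter_mul_prod_filter_not S (fun s => δ₀ s ≤ r₁)]
  rw [p1, p2, hT1, hT2]
  congr 1
  have hT3 : S.filter (fun s => ¬ ‖s - c‖ ≤ r₁) = S.filter (fun s => ¬ ‖s‖ ≤ r₁) := by
    rw [Finset.filter_not, Finset.filter_not, hT1]
  have hT4 : S.filter (fun s => ¬ δ₀ s ≤ r₁) = S.filter (fun s => ¬ ‖s‖ ≤ r₁) := by
    rw [Finset.filter_not, Finset.filter_not, hT2]
  rw [hT3, hT4]
  apply Finset.prod_congr rfl
  intro s hs
  rw [Finset.mem_filter, not_le] at hs
  simp only [hδ₀]
  rw [norm_sub_eq_left (by linarith [hs.2]), max_eq_left (by linarith [hs.2, hm₁.2.1])]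

end

end Pool.Agent.E8helper65.CM
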