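import Pool.Agent.E8helper65.CM.Hts

/-!
# Heights and Moebius maps
-/

set_option linter.unusedSectionVars false
set_option linter.unusedVariables false

namespace Pool.Agent.E8helper65.CM

open Polynomial Finset
open Pool.Agent.TH951.W.UB
open Pool.Agent.TH951.W.UB.PlaceData
open Pool.Agent.W277.UH Pool.Agent.Y706.CH Pool.Agent.Y195.CH Pool.Agent.Y676.CH
open Pool.Agent.E8helper88.Mul

universe u v w

section
variable {k : Type v} {K : Type u} [Field k] [Field K] [Algebra k K] {Q : PlaceData.{w} k K}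

/-- points with a finite orbit have bounded height -/
lemma ht_prep (d : ℕ) (hd : 2 ≤ d) (p q : K[X]) (hmax : max p.natDegree q.natDegree = d)
    (hco : IsCoprime p q) (H : ℤ) (hH : 1 ≤ H) (hp : ∀ i, ht Q (p.coeff i) ≤ H)
    (hq : ∀ i, ht Q (q.coeff i) ≤ H) (z : Option K)
    (hz : (Set.range fun m : ℕ => (ratP1 p q d)^[m] z).Finite) :
    hto Q z ≤ 16 * (d + 1) ^ 2 * H := by
  by_contra hcon
  push Not at hcon
  set K0 : ℤ := 8 * (d + 1) ^ 2 * H with hK0
  have hK1 : 1 ≤ K0 := by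
    rw [hK0]
    have h1 : (1 : ℤ) ≤ 8 * (d + 1) ^ 2 := by
      have : (0 : ℤ) ≤ d := by positivity
      nlinarith
    nlinarith
  have hg := growth Q d hd p q hmax hco H hp hq K0 hK0 (fun j => (ratP1 p q d)^[j] z)
    (fun j => Function.iterate_succ_apply' _ _ _) 0 (by
      show 2 * K0 ≤ hto Q z
      rw [hK0]
      linarith)
  obtain ⟨B, hB⟩ := (hz.image (hto Q)).bddAbove
  have hBy : ∀ j : ℕ, hto Q ((ratP1 p q d)^[j] z) ≤ B := fun j =>
    hB ⟨_, ⟨j, rfl⟩, rfl⟩
  have h1 := hg (B.toNat)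
  have h2 := hBy (0 + B.toNat)
  have h3 : (B.toNat : ℤ) < (d : ℤ) ^ B.toNat := by
    have h4 : B.toNat < d ^ B.toNat := Nat.lt_pow_self (by omega)
    exact_mod_cast h4
  have h5 : B ≤ B.toNat := Int.self_le_toNat B
  have h6 : (d : ℤ) ^ B.toNat * 1 ≤ (d : ℤ) ^ B.toNat * K0 :=
    mul_le_mul_of_nonneg_left hK1 (by positivity)
  linarith

lemma ht_vec1 (z : Option K) : ht Q (vec z).1 ≤ hto Q z := by
  cases z with
  | none =>
    show ht Q (1 : K) ≤ 0
    rw [ht_one]
  | some x => exact le_rfl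

lemma ht_vec2 (z : Option K) : ht Q (vec z).2 = 0 := by
  cases z with
  | none => exact ht_zero
  | some x => exact ht_one

lemma ht_wd_vec (y z : Option K) : ht Q (wd (vec y) (vec z)) ≤ hto Q y + hto Q z := by
  unfold wd
  refine (ht_sub _ _).trans ?_
  have h1 := ht_mul (Q := Q) (vec y).1 (vec z).2
  have h2 := ht_mul (Q := Q) (vec y).2 (vec z).1
  have h3 := ht_vec1 (Q := Q) y
  have h4 := ht_vec1 (Q := Q) z
  have h5 := ht_vec2 (Q := Q) y
  have h6 := ht_vec2 (Q := Q) z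
  linarith

/-- the entries of a Moebius map which moves three constants to points of bounded height -/
lemma mob_entries (a b c e : K) (hdet : a * e - b * c ≠ 0) (c₀ c₁ c₂ : k) (h01 : c₀ ≠ c₁)
    (h02 : c₀ ≠ c₂) (h12 : c₁ ≠ c₂) (E : ℤ)
    (h0 : hto Q (pt (Ph a b c e (algebraMap k K c₀, 1))) ≤ E)
    (h1 : hto Q (pt (Ph a b c e (algebraMap k K c₁, 1))) ≤ E)
    (h2 : hto Q (pt (Ph a b c e (algebraMap k K c₂, 1))) ≤ E) :
    ∃ t : K, t ≠ 0 ∧ ht Q (t * a) ≤ 7 * E ∧ ht Q (t * b) ≤ 7 * E ∧ ht Q (t * c) ≤ 7 * E ∧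
      ht Q (t * e) ≤ 7 * E := by
  have hne : ∀ x : K, ((x, 1) : K × K) ≠ 0 := fun x h => one_ne_zero (congrArg Prod.snd h)
  have hE : 0 ≤ E := (hto_nn Q _).trans h0
  obtain ⟨t₀, ht₀, e₀⟩ := exists_smul _ (Ph_ne a b c e hdet _ (hne (algebraMap k K c₀)))
  obtain ⟨t₁, ht₁, e₁⟩ := exists_smul _ (Ph_ne a b c e hdet _ (hne (algebraMap k K c₁)))
  obtain ⟨t₂, ht₂, e₂⟩ := exists_smul _ (Ph_ne a b c e hdet _ (hne (algebraMap k K c₂)))
  set z₀ := pt (Ph a b c e (algebraMap k K c₀, 1)) with hz₀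
  set z₁ := pt (Ph a b c e (algebraMap k K c₁, 1)) with hz₁
  set z₂ := pt (Ph a b c e (algebraMap k K c₂, 1)) with hz₂
  have hinj : Function.Injective (algebraMap k K) := (algebraMap k K).injective
  have d01 : algebraMap k K c₀ - algebraMap k K c₁ ≠ 0 := sub_ne_zero.mpr fun h => h01 (hinj h)
  have d02 : algebraMap k K c₀ - algebraMap k K c₂ ≠ 0 := sub_ne_zero.mpr fun h => h02 (hinj h)
  have d12 : algebraMap k K c₁ - algebraMap k K c₂ ≠ 0 := sub_ne_zero.mpr fun h => h12 (hinj h)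
  -- the two determinants
  have w02 : (a * e - b * c) * (algebraMap k K c₀ - algebraMap k K c₂) =
      t₀ * (t₂ * wd (vec z₀) (vec z₂)) := by
    have g := wd_Ph a b c e (algebraMap k K c₀, 1) (algebraMap k K c₂, 1)
    rw [e₀, e₂, wd_smul_left', wd_smul_right'] at g
    rw [g]
    unfold wd
    ring
  have w12 : (a * e - b * c) * (algebraMap k K c₁ - algebraMap k K c₂) =
      t₁ * (t₂ * wd (vec z₁) (vec z₂)) := by
    have g := wd_Ph a b c e (algebraMap k K c₁, 1) (algebraMap k K c₂, 1)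
    rw [e₁, e₂, wd_smul_left', wd_smul_right'] at g
    rw [g]
    unfold wd
    ring
  have hw02 : wd (vec z₀) (vec z₂) ≠ 0 := by
    intro h
    rw [h, mul_zero, mul_zero] at w02
    exact mul_ne_zero hdet d02 w02
  have hw12 : wd (vec z₁) (vec z₂) ≠ 0 := by
    intro h
    rw [h, mul_zero, mul_zero] at w12
    exact mul_ne_zero hdet d12 w12
  have hr : t₁ / t₀ = algebraMap k K ((c₁ - c₂) / (c₀ - c₂)) *
      (wd (vec z₀) (vec z₂) / wd (vec z₁) (vec z₂)) := by
    rw [map_div₀, map_sub, map_sub]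
    field_simp
    have g1 : t₁ * wd (vec z₁) (vec z₂) * (algebraMap k K c₀ - algebraMap k K c₂) * t₂ =
        t₀ * wd (vec z₀) (vec z₂) * (algebraMap k K c₁ - algebraMap k K c₂) * t₂ := by
      linear_combination (algebraMap k K c₁ - algebraMap k K c₂) * w02 -
        (algebraMap k K c₀ - algebraMap k K c₂) * w12
    have g2 := mul_right_cancel₀ ht₂ g1
    linear_combination g2
  have hrh : ht Q (t₁ / t₀) ≤ 4 * E := by
    rw [hr]
    refine (ht_alg_mul _ _).trans ((ht_div _ _).trans ?_)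
    have g1 := ht_wd_vec (Q := Q) z₀ z₂
    have g2 := ht_wd_vec (Q := Q) z₁ z₂
    linarith
  have p0 := congrArg Prod.fst e₀
  have q0 := congrArg Prod.snd e₀
  have p1 := congrArg Prod.fst e₁
  have q1 := congrArg Prod.snd e₁
  simp only [Ph, Prod.smul_fst, Prod.smul_snd, smul_eq_mul, mul_one] at p0 q0 p1 q1
  have ea : t₀⁻¹ * a = algebraMap k K ((c₀ - c₁)⁻¹) * ((vec z₀).1 - t₁ / t₀ * (vec z₁).1) := by
    rw [map_inv₀, map_sub]
    field_simp
    linear_combination p0 - p1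
  have ec : t₀⁻¹ * c = algebraMap k K ((c₀ - c₁)⁻¹) * ((vec z₀).2 - t₁ / t₀ * (vec z₁).2) := by
    rw [map_inv₀, map_sub]
    field_simp
    linear_combination q0 - q1
  have eb : t₀⁻¹ * b = (vec z₀).1 - algebraMap k K c₀ * (t₀⁻¹ * a) := by
    field_simp
    linear_combination p0
  have ee : t₀⁻¹ * e = (vec z₀).2 - algebraMap k K c₀ * (t₀⁻¹ * c) := by
    field_simp
    linear_combination q0
  have v0 := ht_vec1 (Q := Q) z₀
  have v1 := ht_vec1 (Q := Q) z₁
  have v0' := ht_vec2 (Q := Q) z₀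
  have v1' := ht_vec2 (Q := Q) z₁
  have ha : ht Q (t₀⁻¹ * a) ≤ 6 * E := by
    rw [ea]
    refine (ht_alg_mul _ _).trans ((ht_sub _ _).trans ?_)
    have g := ht_mul (Q := Q) (t₁ / t₀) (vec z₁).1
    linarith
  have hc' : ht Q (t₀⁻¹ * c) ≤ 4 * E := by
    rw [ec]
    refine (ht_alg_mul _ _).trans ((ht_sub _ _).trans ?_)
    have g := ht_mul (Q := Q) (t₁ / t₀) (vec z₁).2
    linarith
  refine ⟨t₀⁻¹, inv_ne_zero ht₀, by linarith, ?_, by linarith, ?_⟩
  · rw [eb]
    refine (ht_sub _ _).trans ?_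
    have g := ht_alg_mul (Q := Q) c₀ (t₀⁻¹ * a)
    linarith
  · rw [ee]
    refine (ht_sub _ _).trans ?_
    have g := ht_alg_mul (Q := Q) c₀ (t₀⁻¹ * c)
    linarith

/-- the constant for the coefficients of a conjugate map -/
def cco (d : ℕ) : ℕ := 4 * (1 + chc d)

lemma hc_eq (d : ℕ) (u A B : K[X]) :
    hc d u A B = ∑ i ∈ range (d + 1), C (u.coeff i) * A ^ i * B ^ (d - i) := by
  unfold hc hev
  apply Finset.sum_congr rfl
  intro i _
  rw [coeff_map]

/-- the heights of the coefficients of a conjugate map -/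
lemma coef_conj [Infinite K] (d : ℕ) (p q u w : K[X]) (hp : p.natDegree ≤ d)
    (hq : q.natDegree = d) (hq1 : q.Monic) (a b c e s : K) (hdet : a * e - b * c ≠ 0) (hs : s ≠ 0)
    (hconj : ∀ Z, FH d u w (Ph a b c e Z) = s • Ph a b c e (FH d p q Z)) (E : ℤ)
    (hu : HB Q d E u) (hw : HB Q d E w) (ha : ht Q a ≤ E) (hb : ht Q b ≤ E) (hc' : ht Q c ≤ E)
    (he : ht Q e ≤ E) : HB Q d (cco d * E) p ∧ HB Q d (cco d * E) q := by
  obtain ⟨h1, h2⟩ := conj_poly d p q u w hp hq.le a b c e s hconj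
  rw [← hc_eq] at h1 h2
  have hU : HB Q d (chc d * E) (hc d u (C a * X + C b) (C c * X + C e)) :=
    hu.hc (HB.lin ha hb) (HB.lin hc' he)
  have hV : HB Q d (chc d * E) (hc d w (C a * X + C b) (C c * X + C e)) :=
    hw.hc (HB.lin ha hb) (HB.lin hc' he)
  set U := hc d u (C a * X + C b) (C c * X + C e) with hUdef
  set V := hc d w (C a * X + C b) (C c * X + C e) with hVdef
  set κ := s * (a * e - b * c) with hκ
  have hκ0 : κ ≠ 0 := mul_ne_zero hs hdet
  have ep : C κ * p = C e * U - C b * V := by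
    rw [h1, h2, hκ]
    simp only [C_mul, C_sub]
    ring
  have eq : C κ * q = C a * V - C c * U := by
    rw [h1, h2, hκ]
    simp only [C_mul, C_sub]
    ring
  have hP : HB Q d (2 * (E + chc d * E)) (C e * U - C b * V) := by
    refine ((hU.C_mul he).sub (hV.C_mul hb)).mono (by simp) (le_of_eq ?_)
    ring
  have hR : HB Q d (2 * (E + chc d * E)) (C a * V - C c * U) := by
    refine ((hV.C_mul ha).sub (hU.C_mul hc')).mono (by simp) (le_of_eq ?_)
    ring
  have hκh : ht Q κ⁻¹ ≤ 2 * (E + chc d * E) := by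
    rw [ht_inv]
    have g : κ = (C a * V - C c * U).coeff d := by
      rw [← eq, coeff_C_mul]
      have : q.coeff d = 1 := by
        rw [← hq]
        exact hq1.coeff_natDegree
      rw [this, mul_one]
    rw [g]
    exact hR.2 d
  have ep' : p = C κ⁻¹ * (C e * U - C b * V) := by
    rw [← ep, ← mul_assoc, ← C_mul, inv_mul_cancel₀ hκ0, C_1, one_mul]
  have eq' : q = C κ⁻¹ * (C a * V - C c * U) := by
    rw [← eq, ← mul_assoc, ← C_mul, inv_mul_cancel₀ hκ0, C_1, one_mul]
  have hcc : (2 * (E + chc d * E) + 2 * (E + chc d * E) : ℤ) = cco d * E := by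
    unfold cco
    push_cast
    ring
  constructor
  · rw [ep', ← hcc]
    exact hP.C_mul hκh
  · rw [eq', ← hcc]
    exact hR.C_mul hκh

/-- the height of the value of a Moebius map -/
lemma ht_mob (a b c e : K) (hdet : a * e - b * c ≠ 0) (E : ℤ) (ha : ht Q a ≤ E)
    (hb : ht Q b ≤ E) (hc' : ht Q c ≤ E) (he : ht Q e ≤ E) (Z : K × K) (hZ : Z ≠ 0) :
    hto Q (pt Z) ≤ hto Q (pt (Ph a b c e Z)) + 32 * E := by
  have hP : HB Q 1 E (C a * X + C b) := HB.lin ha hb
  have hR : HB Q 1 E (C c * X + C e) := HB.lin hc' he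
  have hco : IsCoprime (C a * X + C b : K[X]) (C c * X + C e) := by
    refine ⟨C (-c / (a * e - b * c)), C (a / (a * e - b * c)), ?_⟩
    have h1 : (C (-c / (a * e - b * c)) * (C a * X + C b) + C (a / (a * e - b * c)) *
        (C c * X + C e) : K[X]) = C ((-c / (a * e - b * c)) * a + (a / (a * e - b * c)) * c) * X +
        C ((-c / (a * e - b * c)) * b + (a / (a * e - b * c)) * e) := by
      simp only [C_mul, C_add]
      ring
    rw [h1]
    have h2 : (-c / (a * e - b * c)) * a + (a / (a * e - b * c)) * c = 0 := by ring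
    have h3 : (-c / (a * e - b * c)) * b + (a / (a * e - b * c)) * e = 1 := by
      rw [div_mul_eq_mul_div, div_mul_eq_mul_div, ← add_div, div_eq_one_iff_eq hdet]
      ring
    rw [h2, h3, C_0, zero_mul, zero_add, C_1]
  have hmax : max (C a * X + C b : K[X]).natDegree (C c * X + C e : K[X]).natDegree = 1 := by
    apply le_antisymm (max_le hP.1 hR.1)
    rw [le_max_iff]
    by_cases h : a = 0
    · right
      apply le_natDegree_of_ne_zero
      have hc0 : c ≠ 0 := by
        rintro rfl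
        apply hdet
        rw [h]
        ring
      simpa using hc0
    · left
      apply le_natDegree_of_ne_zero
      simpa using h
  have h1 := ht_lower Q 1 le_rfl _ _ hmax hco E hP.2 hR.2 (pt Z)
  have h2 := (t_PT K 1 le_rfl _ _ hmax hco Z hZ).2
  have h3 : bK 1 (C a * X + C b : K[X]) (C c * X + C e) Z = Ph a b c e Z := by
    unfold bK Ph hev
    refine Prod.ext ?_ ?_
    · simp [Finset.sum_range_succ]
      ring
    · simp [Finset.sum_range_succ]
      ring
  rw [h2, h3] at h1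
  push_cast at h1
  linarith

end

end Pool.Agent.E8helper65.CM
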