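import Pool.Agent.E8helper65.CM.Alg

/-!
# Multipliers and critical heights in large characteristic: the uniform bounds from the rigidity theorem
-/

set_option linter.unusedSectionVars false
set_option linter.unusedVariables false

namespace Pool.Agent.E8helper65.CM

open Polynomial Finset Filter
open Pool.Agent.W277.UH Pool.Agent.Y706.CH Pool.Agent.Y195.CH Pool.Agent.Y676.CH
open Pool.Agent.E8helper88.Mul
open Pool.Agent.E8helper71.UB (UP mk mk_eq mk_eq_zero mk_surjective)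

universe u v w

lemma up_cz (Om : ℕ → Type u) [∀ j, Field (Om j)]
    (hz : ∀ j n : ℕ, 1 ≤ n → n ≤ j → (n : Om j) ≠ 0) : CharZero (UP Om (Filter.hyperfilter ℕ)) := by
  apply charZero_of_inj_zero
  intro n hn
  by_contra h
  have h1 : mk Om (Filter.hyperfilter ℕ) (n : ∀ j, Om j) = 0 := by
    rw [map_natCast]
    exact hn
  have h2 := mk_eq_zero.mp h1
  have h3 : ∀ᶠ j in (Filter.hyperfilter ℕ : Filter ℕ), n ≤ j :=
    Nat.hyperfilter_le_atTop (Filter.eventually_ge_atTop n)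
  obtain ⟨j, hj1, hj2⟩ := (h2.and h3).exists
  apply hz j n (by omega) hj2
  rw [← hj1]
  simp

section
variable (Mf Om : ℕ → Type u) [∀ j, Field (Mf j)] [∀ j, Field (Om j)]
  [∀ j, IsAlgClosed (Om j)] [∀ j, Algebra (Mf j) (Om j)]

variable {Mf}

lemma pk_good (U : Ultrafilter ℕ) (d : ℕ) (hd : 1 ≤ d) (uf wf : ∀ j, (Mf j)[X])
    (hco : ∀ j, IsCoprime (uf j) (wf j)) (hmax : ∀ j, max (uf j).natDegree (wf j).natDegree = d) :
    IsCoprime ((pk Om d uf).map (mk Om U)) ((pk Om d wf).map (mk Om U)) ∧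
      max ((pk Om d uf).map (mk Om U)).natDegree ((pk Om d wf).map (mk Om U)).natDegree = d := by
  have hud : ∀ j, (uf j).natDegree ≤ d := fun j => (hmax j) ▸ le_max_left _ _
  have hwd : ∀ j, (wf j).natDegree ≤ d := fun j => (hmax j) ▸ le_max_right _ _
  apply good_of_Nz d _ _ (pk_deg Om d uf _) (pk_deg Om d wf _)
  rw [los_Nz]
  apply Filter.Eventually.of_forall
  intro j
  rw [pk_ev Om d uf j (hud j), pk_ev Om d wf j (hwd j)]
  exact Nz_of_good d hd _ _ ((Polynomial.isCoprime_map _).mpr (hco j)) (max_map _ _ _ d (hmax j))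

/-- no sequence of normalised maps of small multipliers and large coefficients -/
theorem ultra_seqM (hM : S_MCM.{u}) (hz : ∀ j n : ℕ, 1 ≤ n → n ≤ j → (n : Om j) ≠ 0)
    (h : ∀ j, Mf j → ℝ) (hh : ∀ j, IsHt (h j)) (d : ℕ) (hd : 2 ≤ d) (n₁ n₂ : ℕ)
    (hn : n₂ < n₁) (uf wf : ∀ j, (Mf j)[X]) (hco : ∀ j, IsCoprime (uf j) (wf j))
    (hmax : ∀ j, max (uf j).natDegree (wf j).natDegree = d)
    (hN : ∀ j, Nrm d n₁ n₂ ((uf j).map (algebraMap (Mf j) (Om j)))
      ((wf j).map (algebraMap (Mf j) (Om j))))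
    (hlat : ∀ j, ¬ LatF d ((uf j).map (algebraMap (Mf j) (Om j)))
      ((wf j).map (algebraMap (Mf j) (Om j)))) (A : ℕ → ℝ) (hA : ∀ j, 0 ≤ A j)
    (hmul : ∀ j n, 1 ≤ n → n ≤ j → ∀ lam : Om j,
      IsMul d ((uf j).map (algebraMap (Mf j) (Om j))) ((wf j).map (algebraMap (Mf j) (Om j))) n lam →
      ∃ l : Mf j, algebraMap (Mf j) (Om j) l = lam ∧ h j l ≤ A j)
    (hbad : ∀ j : ℕ, j * A j < ∑ i ∈ range (d + 1), (h j ((uf j).coeff i) + h j ((wf j).coeff i))) :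
    False := by
  classical
  have hcz := up_cz Om hz
  set U : Ultrafilter ℕ := Filter.hyperfilter ℕ with hU
  have hUtop : ∀ s : ℕ, ∀ᶠ j in (U : Filter ℕ), s ≤ j := fun s =>
    Nat.hyperfilter_le_atTop (Filter.eventually_ge_atTop s)
  have hud : ∀ j, (uf j).natDegree ≤ d := fun j => (hmax j) ▸ le_max_left _ _
  have hwd : ∀ j, (wf j).natDegree ≤ d := fun j => (hmax j) ▸ le_max_right _ _
  obtain ⟨hcopq, hmaxpq⟩ := pk_good Om U d (by omega) uf wf hco hmax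
  have hNpq : Nrm d n₁ n₂ ((pk Om d uf).map (mk Om U)) ((pk Om d wf).map (mk Om U)) :=
    los_Nrm d n₁ n₂ _ _ fun j => by
      rw [pk_ev Om d uf j (hud j), pk_ev Om d wf j (hwd j)]
      exact hN j
  refine ultra_gen Om h hh d uf wf (fun j => lt_of_le_of_lt (mul_nonneg (Nat.cast_nonneg j)
    (hA j)) (hbad j)) ?_
  intro F hFcl hsm
  have hmulF : ∀ n, 1 ≤ n → ∀ lam, IsMul d ((pk Om d uf).map (mk Om U))
      ((pk Om d wf).map (mk Om U)) n lam → lam ∈ F := by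
    intro n h1 lam hlam
    obtain ⟨lam', rfl⟩ := mk_surjective (K := Om) (U := U) lam
    rw [los_IsMul] at hlam
    have h3 : ∀ j, ∃ l : Mf j, n ≤ j → IsMul d ((pk Om d uf).map (ev Om j))
        ((pk Om d wf).map (ev Om j)) n (lam' j) →
        algebraMap (Mf j) (Om j) l = lam' j ∧ h j l ≤ A j := by
      intro j
      by_cases hj : n ≤ j
      · by_cases h4 : IsMul d ((pk Om d uf).map (ev Om j)) ((pk Om d wf).map (ev Om j)) n (lam' j)
        · have h5 := h4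
          rw [pk_ev Om d uf j (hud j), pk_ev Om d wf j (hwd j)] at h5
          obtain ⟨l, hl⟩ := hmul j n h1 hj _ h5
          exact ⟨l, fun _ _ => hl⟩
        · exact ⟨0, fun _ h => absurd h h4⟩
      · exact ⟨0, fun h => absurd h hj⟩
    choose l hl using h3
    have h4 : mk Om U (phi Mf Om l) = mk Om U lam' := by
      rw [mk_eq]
      filter_upwards [hlam, hUtop n] with j hj hjn
      rw [phi_apply]
      exact (hl j hjn hj).1
    rw [← h4]
    apply hsm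
    intro s
    filter_upwards [hlam, hUtop s, hUtop n] with j hj hs hjn
    have h5 := (hl j hjn hj).2
    have h6 : (s : ℝ) * h j (l j) ≤ j * A j := by
      have hs' : (s : ℝ) ≤ j := by exact_mod_cast hs
      exact mul_le_mul hs' h5 ((hh j).nonneg _) (Nat.cast_nonneg j)
    exact h6.trans (hbad j).le
  rcases hM (UP Om U) F hFcl d hd _ _ hcopq hmaxpq hmulF with ⟨u₀, w₀, hF0, hco₀, hmax₀, hcj⟩ | hL
  · exact descent2 d hd u₀ w₀ _ _ hco₀ hmax₀ hcopq hmaxpq n₁ n₂ hn hNpq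
      (CjF_symm _ _ _ _ _ hcj) F hFcl hF0
  · exfalso
    have hinf : Infinite (UP Om U) := inferInstance
    have h1 : LatF d ((pk Om d uf).map (mk Om U)) ((pk Om d wf).map (mk Om U)) :=
      latF_of_latP d (by omega) _ _ (pk_deg Om d uf _) (pk_deg Om d wf _)
        (E8helper88.Mul.wr_deg d (by omega) _ _ (pk_deg Om d uf _) (pk_deg Om d wf _)) hL
    obtain ⟨j, hj⟩ := (los_LatF d _ _ h1).exists
    rw [pk_ev Om d uf j (hud j), pk_ev Om d wf j (hwd j)] at hj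
    exact hlat j hj

/-- no sequence of conjugate maps of small and large heights -/
theorem ultra_seqC (hz : ∀ j n : ℕ, 1 ≤ n → n ≤ j → (n : Om j) ≠ 0) (h : ∀ j, Mf j → ℝ) (hh : ∀ j, IsHt (h j)) (d : ℕ) (hd : 2 ≤ d) (n₁ n₂ : ℕ)
    (hn : n₂ < n₁) (u₀ w₀ uf wf : ∀ j, (Mf j)[X]) (hco₀ : ∀ j, IsCoprime (u₀ j) (w₀ j))
    (hmax₀ : ∀ j, max (u₀ j).natDegree (w₀ j).natDegree = d)
    (hco : ∀ j, IsCoprime (uf j) (wf j))
    (hmax : ∀ j, max (uf j).natDegree (wf j).natDegree = d)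
    (hN : ∀ j, Nrm d n₁ n₂ ((uf j).map (algebraMap (Mf j) (Om j)))
      ((wf j).map (algebraMap (Mf j) (Om j))))
    (hcj : ∀ j, CjF d ((u₀ j).map (algebraMap (Mf j) (Om j)))
      ((w₀ j).map (algebraMap (Mf j) (Om j))) ((uf j).map (algebraMap (Mf j) (Om j)))
      ((wf j).map (algebraMap (Mf j) (Om j)))) (A : ℕ → ℝ) (hA : ∀ j, 0 ≤ A j)
    (hcoef : ∀ j i, h j ((u₀ j).coeff i) ≤ A j ∧ h j ((w₀ j).coeff i) ≤ A j)
    (hbad : ∀ j : ℕ, j * A j < ∑ i ∈ range (d + 1), (h j ((uf j).coeff i) + h j ((wf j).coeff i))) :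
    False := by
  classical
  have hcz := up_cz Om hz
  set U : Ultrafilter ℕ := Filter.hyperfilter ℕ with hU
  have hUtop : ∀ s : ℕ, ∀ᶠ j in (U : Filter ℕ), s ≤ j := fun s =>
    Nat.hyperfilter_le_atTop (Filter.eventually_ge_atTop s)
  have hud : ∀ j, (uf j).natDegree ≤ d := fun j => (hmax j) ▸ le_max_left _ _
  have hwd : ∀ j, (wf j).natDegree ≤ d := fun j => (hmax j) ▸ le_max_right _ _
  have hud₀ : ∀ j, (u₀ j).natDegree ≤ d := fun j => (hmax₀ j) ▸ le_max_left _ _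
  have hwd₀ : ∀ j, (w₀ j).natDegree ≤ d := fun j => (hmax₀ j) ▸ le_max_right _ _
  obtain ⟨hcopq, hmaxpq⟩ := pk_good Om U d (by omega) uf wf hco hmax
  obtain ⟨hcopq₀, hmaxpq₀⟩ := pk_good Om U d (by omega) u₀ w₀ hco₀ hmax₀
  have hNpq : Nrm d n₁ n₂ ((pk Om d uf).map (mk Om U)) ((pk Om d wf).map (mk Om U)) :=
    los_Nrm d n₁ n₂ _ _ fun j => by
      rw [pk_ev Om d uf j (hud j), pk_ev Om d wf j (hwd j)]
      exact hN j
  have hcjpq : CjF d ((pk Om d u₀).map (mk Om U)) ((pk Om d w₀).map (mk Om U))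
      ((pk Om d uf).map (mk Om U)) ((pk Om d wf).map (mk Om U)) := by
    apply los_CjF
    apply Filter.Eventually.of_forall
    intro j
    rw [pk_ev Om d uf j (hud j), pk_ev Om d wf j (hwd j), pk_ev Om d u₀ j (hud₀ j),
      pk_ev Om d w₀ j (hwd₀ j)]
    exact hcj j
  refine ultra_gen Om h hh d uf wf (fun j => lt_of_le_of_lt (mul_nonneg (Nat.cast_nonneg j)
    (hA j)) (hbad j)) ?_
  intro F hFcl hsm
  have hsmall : ∀ y : ∀ j, Mf j, (∀ j, h j (y j) ≤ A j) → mk Om U (phi Mf Om y) ∈ F := by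
    intro y hy
    apply hsm
    intro s
    filter_upwards [hUtop s] with j hs
    have h6 : (s : ℝ) * h j (y j) ≤ j * A j := by
      have hs' : (s : ℝ) ≤ j := by exact_mod_cast hs
      exact mul_le_mul hs' (hy j) ((hh j).nonneg _) (Nat.cast_nonneg j)
    exact h6.trans (hbad j).le
  exact descent2 d hd _ _ _ _ hcopq₀ hmaxpq₀ hcopq hmaxpq n₁ n₂ hn hNpq hcjpq F hFcl fun i =>
    ⟨pk_mem Om d u₀ U F (fun i => hsmall _ fun j => (hcoef j i).1) i,
      pk_mem Om d w₀ U F (fun i => hsmall _ fun j => (hcoef j i).2) i⟩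

end

/-- data violating the bound -/
structure CEM (d n₁ n₂ : ℕ) (B : ℕ) : Type (u + 1) where
  M : Type u
  Om : Type u
  [fM : Field M]
  [fO : Field Om]
  [ac : IsAlgClosed Om]
  [al : Algebra M Om]
  cz : ∀ n : ℕ, 1 ≤ n → n ≤ B → (n : Om) ≠ 0
  h : M → ℝ
  hh : IsHt h
  u : M[X]
  w : M[X]
  co : IsCoprime u w
  mx : max u.natDegree w.natDegree = d
  nr : Nrm d n₁ n₂ (u.map (algebraMap M Om)) (w.map (algebraMap M Om))
  nl : ¬ LatF d (u.map (algebraMap M Om)) (w.map (algebraMap M Om))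
  A : ℝ
  hA : 0 ≤ A
  mul : ∀ n, 1 ≤ n → n ≤ B → ∀ lam : Om,
      IsMul d (u.map (algebraMap M Om)) (w.map (algebraMap M Om)) n lam →
      ∃ l : M, algebraMap M Om l = lam ∧ h l ≤ A
  bad : B * A < ∑ i ∈ range (d + 1), (h (u.coeff i) + h (w.coeff i))

/-- **The main bound from the rigidity theorem.** The height of a normalised map is at most a
constant times the largest height of its multipliers, except for flexible Lattes maps. -/
theorem ultraM (hM : S_MCM.{u}) (d : ℕ) (hd : 2 ≤ d) (n₁ n₂ : ℕ) (hn : n₂ < n₁) : ∃ B : ℕ,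
    ∀ (M Om : Type u) [Field M] [Field Om] [IsAlgClosed Om] [Algebra M Om]
    (hz : ∀ n : ℕ, 1 ≤ n → n ≤ B → (n : Om) ≠ 0)
    (h : M → ℝ) (hh : IsHt h) (u w : M[X]) (hco : IsCoprime u w)
    (hmax : max u.natDegree w.natDegree = d)
    (hN : Nrm d n₁ n₂ (u.map (algebraMap M Om)) (w.map (algebraMap M Om)))
    (hlat : ¬ LatF d (u.map (algebraMap M Om)) (w.map (algebraMap M Om)))
    (A : ℝ) (hA : 0 ≤ A) (hmul : ∀ n, 1 ≤ n → n ≤ B → ∀ lam : Om,
      IsMul d (u.map (algebraMap M Om)) (w.map (algebraMap M Om)) n lam →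
      ∃ l : M, algebraMap M Om l = lam ∧ h l ≤ A) (i : ℕ),
    h (u.coeff i) ≤ B * A ∧ h (w.coeff i) ≤ B * A := by
  by_contra hcon
  have h1 : ∀ B : ℕ, Nonempty (CEM.{u} d n₁ n₂ B) := by
    intro B
    by_contra hne
    apply hcon
    refine ⟨B, ?_⟩
    intro M Om _ _ _ _ hz h hh u w hco hmax hN hlat A hA hmul i
    by_contra hi
    exact hne ⟨⟨M, Om, hz, h, hh, u, w, hco, hmax, hN, hlat, A, hA, hmul,
      sum_bad hh d u w (hmax ▸ le_max_left _ _) (hmax ▸ le_max_right _ _) _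
        (mul_nonneg (Nat.cast_nonneg B) hA) i hi⟩⟩
  have X : ∀ B : ℕ, CEM.{u} d n₁ n₂ B := fun B => (h1 B).some
  exact @ultra_seqM (fun B => (X B).M) (fun B => (X B).Om) (fun B => (X B).fM) (fun B => (X B).fO)
    (fun B => (X B).ac) (fun B => (X B).al) hM (fun B => (X B).cz) (fun B => (X B).h)
    (fun B => (X B).hh) d hd n₁ n₂ hn (fun B => (X B).u) (fun B => (X B).w)
    (fun B => (X B).co) (fun B => (X B).mx) (fun B => (X B).nr) (fun B => (X B).nl)
    (fun B => (X B).A) (fun B => (X B).hA) (fun B => (X B).mul) (fun B => (X B).bad)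

/-- data violating the bound -/
structure CEC (d n₁ n₂ : ℕ) (B : ℕ) : Type (u + 1) where
  M : Type u
  Om : Type u
  [fM : Field M]
  [fO : Field Om]
  [ac : IsAlgClosed Om]
  [al : Algebra M Om]
  cz : ∀ n : ℕ, 1 ≤ n → n ≤ B → (n : Om) ≠ 0
  h : M → ℝ
  hh : IsHt h
  u₀ : M[X]
  w₀ : M[X]
  u : M[X]
  w : M[X]
  co₀ : IsCoprime u₀ w₀
  mx₀ : max u₀.natDegree w₀.natDegree = d
  co : IsCoprime u w
  mx : max u.natDegree w.natDegree = d
  nr : Nrm d n₁ n₂ (u.map (algebraMap M Om)) (w.map (algebraMap M Om))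
  cj : CjF d (u₀.map (algebraMap M Om)) (w₀.map (algebraMap M Om)) (u.map (algebraMap M Om))
    (w.map (algebraMap M Om))
  A : ℝ
  hA : 0 ≤ A
  coef : ∀ i, h (u₀.coeff i) ≤ A ∧ h (w₀.coeff i) ≤ A
  bad : B * A < ∑ i ∈ range (d + 1), (h (u.coeff i) + h (w.coeff i))

/-- **Change of normalisation.** -/
theorem ultraC (d : ℕ) (hd : 2 ≤ d) (n₁ n₂ : ℕ) (hn : n₂ < n₁) : ∃ B : ℕ,
    ∀ (M Om : Type u) [Field M] [Field Om] [IsAlgClosed Om] [Algebra M Om]
    (hz : ∀ n : ℕ, 1 ≤ n → n ≤ B → (n : Om) ≠ 0)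
    (h : M → ℝ) (hh : IsHt h) (u₀ w₀ u w : M[X]) (hco₀ : IsCoprime u₀ w₀)
    (hmax₀ : max u₀.natDegree w₀.natDegree = d) (hco : IsCoprime u w)
    (hmax : max u.natDegree w.natDegree = d)
    (hN : Nrm d n₁ n₂ (u.map (algebraMap M Om)) (w.map (algebraMap M Om)))
    (hcj : CjF d (u₀.map (algebraMap M Om)) (w₀.map (algebraMap M Om))
      (u.map (algebraMap M Om)) (w.map (algebraMap M Om)))
    (A : ℝ) (hA : 0 ≤ A) (hcoef : ∀ i, h (u₀.coeff i) ≤ A ∧ h (w₀.coeff i) ≤ A) (i : ℕ),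
    h (u.coeff i) ≤ B * A ∧ h (w.coeff i) ≤ B * A := by
  by_contra hcon
  have h1 : ∀ B : ℕ, Nonempty (CEC.{u} d n₁ n₂ B) := by
    intro B
    by_contra hne
    apply hcon
    refine ⟨B, ?_⟩
    intro M Om _ _ _ _ hz h hh u₀ w₀ u w hco₀ hmax₀ hco hmax hN hcj A hA hcoef i
    by_contra hi
    exact hne ⟨⟨M, Om, hz, h, hh, u₀, w₀, u, w, hco₀, hmax₀, hco, hmax, hN, hcj, A, hA, hcoef,
      sum_bad hh d u w (hmax ▸ le_max_left _ _) (hmax ▸ le_max_right _ _) _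
        (mul_nonneg (Nat.cast_nonneg B) hA) i hi⟩⟩
  have X : ∀ B : ℕ, CEC.{u} d n₁ n₂ B := fun B => (h1 B).some
  exact @ultra_seqC (fun B => (X B).M) (fun B => (X B).Om) (fun B => (X B).fM) (fun B => (X B).fO)
    (fun B => (X B).ac) (fun B => (X B).al) (fun B => (X B).cz) (fun B => (X B).h)
    (fun B => (X B).hh) d hd n₁ n₂ hn (fun B => (X B).u₀) (fun B => (X B).w₀) (fun B => (X B).u)
    (fun B => (X B).w) (fun B => (X B).co₀) (fun B => (X B).mx₀)
    (fun B => (X B).co) (fun B => (X B).mx) (fun B => (X B).nr) (fun B => (X B).cj)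
    (fun B => (X B).A) (fun B => (X B).hA) (fun B => (X B).coef) (fun B => (X B).bad)

end Pool.Agent.E8helper65.CM
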